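import Pool.Agent.Helper48.WL.Defs
import Pool.Agent.Helper79.G2.PS

/-!
G2/Cls. The hypotheses on the class `K` used for theorem 7a (`EXTo`, `SSb`, `IPos`; besides `EXT`, `SSc` of `WL/Defs.lean`) and its
statement `ColK` (one even coordinate `x` with `D x = Q`, closed functions `F` = finite power series in `x`).
-/

set_option autoImplicit false

namespace AnWL

variable {M : Type} {xd : M → ℤ} {N : ℕ}

/-- The homogeneous elements of `I` have positive degree. -/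
def IPos (K : Set (GA M xd N)) : Prop :=
  ∀ G ∈ K, ∀ (g : ℤ) (a : G.A), a ∈ G.I → a ∈ G.Hm g → g ≤ 0 → a = 0

/-- The extension property for odd sources: `w ∈ I^κ` closed odd of level `L` is `D z` up to an element which depends on no
`X_j`, `z` without body component; the components `∂_l z` (`l` nonempty, of even length), and their sums with old even elements,
are units as soon as their degree is at least `n₀`, and the new generators are killed as soon as these components are. -/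
def EXTo (K : Set (GA M xd N)) (κ : ℕ) (n₀ : ℤ) : Prop :=
  ∀ G ∈ K, ∀ (L : Finset M) (g : ℤ) (w : G.A), Odd g → w ∈ G.Hm g → w ∈ G.I ^ κ →
    G.D w = 0 → G.Lv L w →
    ∃ H ∈ K, ∃ (φ : Mor G H) (z : H.A), z ∈ H.R ∧ z ∈ H.I ∧ z ∈ H.Hm (g - 1) ∧ H.Lv L z ∧
      H.Lv ∅ (φ.f w - H.D z) ∧
      (∀ l : List M, l.Nodup → l ≠ [] → Even l.length → (∀ x ∈ l, x ∈ L) →
        n₀ ≤ g - 1 - (l.map xd).sum → ∀ a ∈ G.R, G.s a = a → IsUnit (φ.f a - H.pdl l z)) ∧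
      ∀ t ∈ H.Gen, t ∈ φ.f '' G.Gen ∨
        ∀ H' ∈ K, ∀ ψ : Mor H H',
          (∀ l : List M, l.Nodup → l ≠ [] → Even l.length → (∀ x ∈ l, x ∈ L) →
            ψ.f (H.pdl l z) ∈ H'.Nl) → ψ.f t ∈ H'.Nl

/-- `S(ℓ)` with an explicit exponent. -/
def SScR (K : Set (GA M xd N)) (ℓ R₀ : ℕ) : Prop :=
  ∀ G ∈ K, ∀ L : Finset M, L.card = ℓ → ∀ (f : ℤ) (F : G.A), Even f →
    F ∈ G.I → F ∈ G.Hm f → G.D F = 0 → G.Lv L F → IsUnit F →
    ∃ H ∈ K, ∃ φ : Mor G H, φ.Tame ∧ ∃ z, z ∈ H.R ∧ z ∈ H.I ∧ z ∈ H.Hm (R₀ * f - 1) ∧ H.Lv L z ∧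
      H.D z = φ.f (F ^ R₀)

/-- `S_b(ℓ)`: `S(ℓ)` with one more even coordinate `x_b`, `D x_b = g`; `Φ`, `Z` are polynomials in `x_b`. -/
def SSb (K : Set (GA M xd N)) (ℓ R₀ : ℕ) : Prop :=
  ∀ G ∈ K, ∀ L : Finset M, L.card = ℓ → ∀ (e f : ℤ) (g a : G.A) (Φ : Polynomial G.A),
    Even e → 0 < e → Even f → g ∈ G.I → g ∈ G.Hm (e + 1) → G.D g = 0 → G.Lv ∅ g →
    (∀ k : ℕ, Φ.coeff k ∈ G.I ∧ Φ.coeff k ∈ G.Hm (f - k * e) ∧ G.Lv L (Φ.coeff k)) →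
    (∀ k : ℕ, G.D (Φ.coeff k) + ((k + 1 : ℕ) : ℚ) • (g * Φ.coeff (k + 1)) = 0) →
    a ∈ G.R → a ∈ G.Hm e → IsUnit (Φ.eval a) →
    ∃ H ∈ K, ∃ φ : Mor G H, φ.Tame ∧ ∃ Z : Polynomial H.A,
      (∀ k : ℕ, Z.coeff k ∈ H.R ∧ Z.coeff k ∈ H.Hm (R₀ * f - 1 - k * e) ∧ H.Lv L (Z.coeff k)) ∧
      ∀ k : ℕ, H.D (Z.coeff k) + ((k + 1 : ℕ) : ℚ) • (φ.f g * Z.coeff (k + 1)) =
        φ.f ((Φ ^ R₀).coeff k)

/-- The words in the frames `∂_s + ρ_s ∂_x` (`some s`) and `∂_x` (`none`), on power series in `x`. -/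
noncomputable def GA.wd (G : GA M xd N) (ρ : M → G.A) :
    List (Option M) → PowerSeries G.A → PowerSeries G.A
  | [], F => F
  | none :: l, F => psdx G.A (GA.wd G ρ l F)
  | some s :: l, F => psL (G.pd s) (GA.wd G ρ l F) +
      PowerSeries.C (ρ s) * psdx G.A (GA.wd G ρ l F)

/-- Theorem 7a for the class `K`: one even coordinate `x`, `D x = Q`, frames `∂_s + ρ_s ∂_x`; the closed even functions `F a`
(polynomials in `x`) can be killed at `x = 0`, if for each even word `ω` the function `ω F` is nilpotent or its value at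
`x = 0` is a unit. -/
def ColK (K : Set (GA M xd N)) : Prop :=
  ∀ G ∈ K, ∀ (dx : ℤ) (Q : G.A) (ρ : M → G.A), Even dx → 2 ≤ dx → Q ∈ G.I →
    Q ∈ G.Hm (dx + 1) → G.D Q = 0 → (∀ s, ρ s ∈ G.R) → (∀ s, ρ s ∈ G.Hm (dx - xd s)) →
    (∀ s, G.D (ρ s) + G.pd s Q = 0) →
    (∀ s t, ∃ c : ℚ, G.pd s (ρ t) + G.pd t (ρ s) = algebraMap ℚ G.A c) →
    ∀ {α : Type} (E : Finset α) (F : α → PowerSeries G.A) (f : α → ℤ), (∀ a ∈ E, Even (f a)) →
      (∀ a ∈ E, ∃ n, ∀ k, n ≤ k → PowerSeries.coeff k (F a) = 0) →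
      (∀ a ∈ E, ∀ k : ℕ, PowerSeries.coeff k (F a) ∈ G.I ∧
        PowerSeries.coeff k (F a) ∈ G.Hm (f a - k * dx)) →
      (∀ a ∈ E, ∀ k : ℕ, G.D (PowerSeries.coeff k (F a)) +
        ((k + 1 : ℕ) : ℚ) • (Q * PowerSeries.coeff (k + 1) (F a)) = 0) →
      (∀ a ∈ E, ∀ w : List (Option M), Even (w.countP Option.isSome) →
        IsNilpotent (G.wd ρ w (F a)) ∨ IsUnit (PowerSeries.coeff 0 (G.wd ρ w (F a)))) →
      ∃ H ∈ K, ∃ φ : Mor G H, φ.Tame ∧ ∀ a ∈ E, φ.f (PowerSeries.coeff 0 (F a)) ∈ H.Nl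

end AnWL
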