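import Pool.Agent.Helper84.G2.Emb
import Pool.Agent.Helper48.WL.C08d

/-!
G2-C06. One more even coordinate `x_b` of degree `e`, `D x_b = g`, for a total system `T`.

`TS.adj`: as `TS.redo` (`C08d.lean`), `extD` (`C05a.lean`): `D = der` with the values `inc (T.D ..)` on the letters of `T` and `inc g` on `x_b = gU none`. First `D (inc a) = inc (T.D a)` (check on the generators: `lam_zero`);
`D ∘ D = 0` by `der_sq` on the generators (`T.D (T.D ..) = 0`, `T.D g = 0`). `Dt`: `SP_mapL` for the letters of `T`, `hgs` for `x_b`. `ext`: `inc (iL a) = iL a`.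
-/

set_option autoImplicit false

namespace AnWL
open Anick2

/-- One more even coordinate. -/
def Par.adj (P : Par) (e : ℕ) (he : Even e) (h2 : 2 ≤ e) : Par where
  U := Option P.U
  M := P.M
  finU := by have := P.finU; infer_instance
  finM := P.finM
  du := fun u => u.elim e P.du
  dm := P.dm
  N := P.N
  du_even := by rintro (_ | u); exacts [he, P.du_even u]
  du_pos := by rintro (_ | u); exacts [h2, P.du_pos u]
  dm_odd := P.dm_odd
  N_pos := P.N_pos

variable {P : Par}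

/-- The degrees of the letters of the system with `x_b`. -/
abbrev dA (T : TS P) (e : ℕ) (he : Even e) (h2 : 2 ≤ e) :
    T.ι ⊕ ((P.adj e he h2).U ⊕ (P.adj e he h2).M) → ℕ := Sum.elim T.deg (P.adj e he h2).dq

/-- The inclusion `ΛT → Λ(T, x_b)`. -/
noncomputable def inc (T : TS P) (e : ℕ) (he : Even e) (h2 : 2 ≤ e) :
    Lam T.dt →ₐ[ℚ] Lam (dA T e he h2) :=
  mapL (Sum.map id (Sum.map some id)) (by rintro (i | u | j) <;> rfl)

/-- The letter `x_b`. -/
noncomputable def xb (T : TS P) (e : ℕ) (he : Even e) (h2 : 2 ≤ e) : Lam (dA T e he h2) :=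
  gen (dA T e he h2) (Sum.inr (Sum.inl none))

/-- The values of the differential on the letters. -/
noncomputable def adjVal (T : TS P) (e : ℕ) (he : Even e) (h2 : 2 ≤ e) (g : Lam T.dt) :
    T.ι ⊕ ((P.adj e he h2).U ⊕ (P.adj e he h2).M) → Lam (dA T e he h2) :=
  Sum.elim (fun i => inc T e he h2 (T.D (T.gW i)))
    (Sum.elim (fun u => Option.elim u (inc T e he h2 g) (fun u => inc T e he h2 (T.D (T.gU u))))
      (fun j => inc T e he h2 (T.D (T.gX j))))

private theorem g6_f (T : TS P) (e : ℕ) (he : Even e) (h2 : 2 ≤ e)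
    (x : T.ι ⊕ (P.U ⊕ P.M)) :
    dA T e he h2 (Sum.map id (Sum.map some id) x) = T.dt x := by
  rcases x with i | u | j <;> rfl

private theorem g6_sgn (T : TS P) (e : ℕ) (he : Even e) (h2 : 2 ≤ e) (a : Lam T.dt) :
    sgn (dA T e he h2) (inc T e he h2 a) = inc T e he h2 (sgn T.dt a) := (mapL_sgn _ _).symm

private theorem g6_hom (T : TS P) (e : ℕ) (he : Even e) (h2 : 2 ≤ e) {n : ℕ} {a : Lam T.dt}
    (ha : a ∈ hom T.dt n) : inc T e he h2 a ∈ hom (dA T e he h2) n := mapL_hom _ ha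

private theorem g6_cW {ι κ κ' : Type} (f : κ → κ') (l : List (ι ⊕ κ)) :
    cW (l.map (Sum.map (id : ι → ι) f)) = cW l := by
  induction l with
  | nil => rfl
  | cons x l ih =>
    rw [List.map_cons]
    rcases x with i | t
    · change cW (l.map (Sum.map (id : ι → ι) f)) + 1 = cW l + 1
      rw [ih]
    · exact ih

private theorem g6_not {ι U M : Type} {l : List (ι ⊕ (U ⊕ M))}
    (h : ∀ j : M, Sum.inr (Sum.inr j) ∉ l) (j : M) :
    (Sum.inr (Sum.inr j) : ι ⊕ (Option U ⊕ M)) ∉ l.map (Sum.map id (Sum.map some id)) := by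
  intro hc
  obtain ⟨x, hx, hy⟩ := List.mem_map.1 hc
  rcases x with i | u | j'
  · exact Sum.inl_ne_inr hy
  · exact Sum.inl_ne_inr (Sum.inr_injective hy)
  · exact h j' hx

private theorem g6_mapSP {ι κ : Type} {δ : ι → ℕ} {δ' : κ → ℕ} {f : ι → κ}
    (hf : ∀ i, δ' (f i) = δ i) {p : List ι → Prop} {q : List κ → Prop}
    (h : ∀ l, p l → q (l.map f)) {a : Lam δ} (ha : a ∈ SP δ p) : mapL f hf a ∈ SP δ' q := by
  unfold SP at ha
  induction ha using Submodule.span_induction with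
  | mem x hx =>
    obtain ⟨l, hl, rfl⟩ := hx
    exact Submodule.subset_span ⟨_, h l hl, mapL_mon _ _⟩
  | zero => rw [map_zero]; exact zero_mem _
  | add x z _ _ hx hz => rw [map_add]; exact add_mem hx hz
  | smul r x _ hx => rw [map_smul]; exact Submodule.smul_mem _ _ hx

private theorem g6_iL (T : TS P) (e : ℕ) (he : Even e) (h2 : 2 ≤ e) (a : Lam T.deg) :
    inc T e he h2 (iL T.deg P.dq a) = iL T.deg (P.adj e he h2).dq a := by
  have h : (inc T e he h2).comp (iL T.deg P.dq) = iL T.deg (P.adj e he h2).dq := by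
    refine Lam.algHom_ext _ fun i => ?_
    have h1 : iL T.deg P.dq (gen T.deg i) = gen T.dt (Sum.inl i) := mapL_gen _ _
    have h2' : iL T.deg (P.adj e he h2).dq (gen T.deg i) = gen (dA T e he h2) (Sum.inl i) :=
      mapL_gen _ _
    rw [AlgHom.comp_apply, h1, h2']
    exact mapL_gen _ _
  exact DFunLike.congr_fun h a

theorem adjVal_mem (T : TS P) (e : ℕ) (he : Even e) (h2 : 2 ≤ e) (g : Lam T.dt)
    (hg : g ∈ hom T.dt (e + 1)) (x : T.ι ⊕ ((P.adj e he h2).U ⊕ (P.adj e he h2).M)) :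
    adjVal T e he h2 g x ∈ hom (dA T e he h2) (dA T e he h2 x + 1) := by
  rcases x with i | (_ | u) | j
  · exact g6_hom T e he h2 (T.diff.map_hom _ _ (gen_mem_hom T.dt (Sum.inl i)))
  · exact g6_hom T e he h2 hg
  · exact g6_hom T e he h2 (T.diff.map_hom _ _ (gen_mem_hom T.dt (Sum.inr (Sum.inl u))))
  · exact g6_hom T e he h2 (T.diff.map_hom _ _ (gen_mem_hom T.dt (Sum.inr (Sum.inr j))))

section
variable (T : TS P) (e : ℕ) (he : Even e) (h2 : 2 ≤ e) (g : Lam T.dt)
  (hg : g ∈ hom T.dt (e + 1))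

private noncomputable abbrev g6D : Lam (dA T e he h2) →ₗ[ℚ] Lam (dA T e he h2) :=
  der (dA T e he h2) (adjVal T e he h2 g) (adjVal_mem T e he h2 g hg)

private theorem g6D_gen (x : T.ι ⊕ ((P.adj e he h2).U ⊕ (P.adj e he h2).M)) :
    g6D T e he h2 g hg (gen _ x) = adjVal T e he h2 g x := der_gen _ _ _ x

private theorem g6D_mul (a b : Lam (dA T e he h2)) :
    g6D T e he h2 g hg (a * b) =
      g6D T e he h2 g hg a * b + sgn _ a * g6D T e he h2 g hg b := der_mul _ _ _ a b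

private theorem g6D_M (a : Lam T.dt) :
    g6D T e he h2 g hg (inc T e he h2 a) = inc T e he h2 (T.D a) := by
  let F : Lam T.dt →ₗ[ℚ] Lam (dA T e he h2) :=
    { toFun := fun x => g6D T e he h2 g hg (inc T e he h2 x) - inc T e he h2 (T.D x)
      map_add' := fun a b => by
        rw [map_add, map_add, map_add, map_add]
        abel
      map_smul' := fun r a => by
        rw [map_smul, map_smul, map_smul, map_smul, RingHom.id_apply, smul_sub] }
  have hF : ∀ x, F x = g6D T e he h2 g hg (inc T e he h2 x) - inc T e he h2 (T.D x) :=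
    fun _ => rfl
  have h0 : F a = 0 := by
    refine lam_zero (inc T e he h2) ((inc T e he h2).comp (sgn _)) F ?_ ?_ a
    · intro a b
      rw [hF, hF, hF, AlgHom.comp_apply, map_mul, g6D_mul, T.leib, map_add,
        map_mul, map_mul, g6_sgn]
      noncomm_ring
    · intro x
      rw [hF]
      have h1 : inc T e he h2 (gen T.dt x) = gen (dA T e he h2) (Sum.map id (Sum.map some id) x) :=
        mapL_gen _ _
      rw [h1, g6D_gen]
      rcases x with i | u | j <;> exact sub_self _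
  rw [hF] at h0
  exact sub_eq_zero.1 h0

private theorem g6_DY (j : P.M) : g6D T e he h2 g hg (inc T e he h2 (T.Y j)) =
    g6D T e he h2 g hg (gen (dA T e he h2) (Sum.inr (Sum.inr j))) ^ P.N := by
  have h1 : g6D T e he h2 g hg (gen (dA T e he h2) (Sum.inr (Sum.inr j))) =
      inc T e he h2 (T.D (T.gX j)) := g6D_gen T e he h2 g hg _
  rw [g6D_M, T.D_Y, map_pow, h1]

private theorem g6_Dt (hgs : g ∈ SP T.dt (fun l => 1 ≤ cW l ∧ ∀ j : P.M, Sum.inr (Sum.inr j) ∉ l))
    (t : (P.adj e he h2).U ⊕ (P.adj e he h2).M) :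
    ∃ a ∈ SP T.dt (fun l => 1 ≤ cW l ∧ ∀ j : P.M, Sum.inr (Sum.inr j) ∉ l),
      adjVal T e he h2 g (Sum.inr t) = inc T e he h2 a := by
  rcases t with (_ | u) | j
  · exact ⟨g, hgs, rfl⟩
  · exact ⟨_, T.Dt (Sum.inl u), rfl⟩
  · exact ⟨_, T.Dt (Sum.inr j), rfl⟩

end

/-- The system with the coordinate `x_b`, `D x_b = g`. -/
noncomputable def TS.adj (T : TS P) (e : ℕ) (he : Even e) (h2 : 2 ≤ e) (g : Lam T.dt)
    (hg : g ∈ hom T.dt (e + 1)) (hgD : T.D g = 0)
    (hgs : g ∈ SP T.dt (fun l => 1 ≤ cW l ∧ ∀ j : P.M, Sum.inr (Sum.inr j) ∉ l)) :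
    TS (P.adj e he h2) where
  ι := T.ι
  fin := T.fin
  deg := T.deg
  S := T.S
  D := der (dA T e he h2) (adjVal T e he h2 g) (adjVal_mem T e he h2 g hg)
  diff := by
    refine ⟨fun n a ha => der_mem _ _ _ ha, fun n a ha b => der_leibniz _ _ _ ha b, fun a => ?_⟩
    refine der_sq _ _ _ (fun x => ?_) a
    change g6D T e he h2 g hg (adjVal T e he h2 g x) = 0
    have h1 : ∃ a, T.D a = 0 ∧ adjVal T e he h2 g x = inc T e he h2 a := by
      rcases x with i | (_ | u) | j
      · exact ⟨_, T.diff.d_d _, rfl⟩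
      · exact ⟨g, hgD, rfl⟩
      · exact ⟨_, T.diff.d_d _, rfl⟩
      · exact ⟨_, T.diff.d_d _, rfl⟩
    obtain ⟨a, h3, h4⟩ := h1
    rw [h4, g6D_M, h3, map_zero]
  ext := by
    intro a
    change g6D T e he h2 g hg (iL T.deg (P.adj e he h2).dq a) = _
    rw [← g6_iL, g6D_M, T.ext, g6_iL]
  Dt := by
    intro t
    change g6D T e he h2 g hg (gen _ (Sum.inr t)) ∈ _
    rw [g6D_gen]
    obtain ⟨a, h3, h4⟩ := g6_Dt T e he h2 g hgs t
    rw [h4]
    refine g6_mapSP _ (fun l hl => ⟨?_, fun j => ?_⟩) h3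
    · rw [g6_cW]
      exact hl.1
    · exact g6_not hl.2 j
  Y := fun j => inc T e he h2 (T.Y j)
  Y_hom := by
    intro j
    exact g6_hom T e he h2 (T.Y_hom j)
  Y_free := by
    intro j
    exact g6_mapSP _ (fun l hl j' => g6_not hl j') (T.Y_free j)
  D_Y := by
    exact g6_DY T e he h2 g hg

/-! ### the inclusion -/

section
variable (T : TS P) (e : ℕ) (he : Even e) (h2 : 2 ≤ e)

theorem inc_gW (i : T.ι) : inc T e he h2 (T.gW i) = gen (dA T e he h2) (Sum.inl i) :=
  mapL_gen _ _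

theorem inc_gU (u : P.U) :
    inc T e he h2 (T.gU u) = gen (dA T e he h2) (Sum.inr (Sum.inl (some u))) := mapL_gen _ _

theorem inc_gX (j : P.M) :
    inc T e he h2 (T.gX j) = gen (dA T e he h2) (Sum.inr (Sum.inr j)) := mapL_gen _ _

theorem inc_sgn (a : Lam T.dt) :
    sgn (dA T e he h2) (inc T e he h2 a) = inc T e he h2 (sgn T.dt a) := by
  exact g6_sgn T e he h2 a

theorem inc_hom {n : ℕ} {a : Lam T.dt} (ha : a ∈ hom T.dt n) :
    inc T e he h2 a ∈ hom (dA T e he h2) n := by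
  exact g6_hom T e he h2 ha

theorem inc_inj : Function.Injective (inc T e he h2) := by
  unfold inc
  refine mapL_injective (deg := dA T e he h2) (deg' := T.dt) _ ?_
  exact Function.Injective.sumMap Function.injective_id
    (Function.Injective.sumMap (Option.some_injective _) Function.injective_id)

theorem inc_SP {k : ℕ} {a : Lam T.dt} (ha : a ∈ SP T.dt (fun l => k ≤ cW l)) :
    inc T e he h2 a ∈ SP (dA T e he h2) (fun l => k ≤ cW l) := by
  refine g6_mapSP _ (fun l hl => ?_) ha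
  rw [g6_cW]
  exact hl

theorem inc_p (g : Lam T.dt) (hg : g ∈ hom T.dt (e + 1)) (hgD : T.D g = 0)
    (hgs : g ∈ SP T.dt (fun l => 1 ≤ cW l ∧ ∀ j : P.M, Sum.inr (Sum.inr j) ∉ l)) (j : P.M)
    (a : Lam T.dt) :
    (T.adj e he h2 g hg hgD hgs).p j (inc T e he h2 a) = inc T e he h2 (T.p j a) := by
  exact pdv_mapL (Sum.map id (Sum.map some id)) (g6_f T e he h2)
    (Function.Injective.sumMap Function.injective_id
    (Function.Injective.sumMap (Option.some_injective _) Function.injective_id))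
    (T.odd j) ((T.adj e he h2 g hg hgD hgs).odd j) a

theorem adj_D (g : Lam T.dt) (hg : g ∈ hom T.dt (e + 1)) (hgD : T.D g = 0)
    (hgs : g ∈ SP T.dt (fun l => 1 ≤ cW l ∧ ∀ j : P.M, Sum.inr (Sum.inr j) ∉ l))
    (a : Lam T.dt) :
    (T.adj e he h2 g hg hgD hgs).D (inc T e he h2 a) = inc T e he h2 (T.D a) := by
  exact g6D_M T e he h2 g hg a

theorem adj_xb (g : Lam T.dt) (hg : g ∈ hom T.dt (e + 1)) (hgD : T.D g = 0)
    (hgs : g ∈ SP T.dt (fun l => 1 ≤ cW l ∧ ∀ j : P.M, Sum.inr (Sum.inr j) ∉ l)) :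
    (T.adj e he h2 g hg hgD hgs).D (xb T e he h2) = inc T e he h2 g := by
  exact g6D_gen T e he h2 g hg (Sum.inr (Sum.inl none))

theorem adj_p_xb (g : Lam T.dt) (hg : g ∈ hom T.dt (e + 1)) (hgD : T.D g = 0)
    (hgs : g ∈ SP T.dt (fun l => 1 ≤ cW l ∧ ∀ j : P.M, Sum.inr (Sum.inr j) ∉ l)) (j : P.M) :
    (T.adj e he h2 g hg hgD hgs).p j (xb T e he h2) = 0 := by
  refine pdv_gen_ne ((T.adj e he h2 g hg hgD hgs).odd j) ?_
  intro h
  exact Sum.inl_ne_inr (Sum.inr_injective h)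

end

end AnWL
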