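import Pool.Agent.Helper48.WL.C06b

/-!
G2-C02. A basis of the truncation of `Λ(u, X_j : j ∈ L)` which consists of monomials.

As `exists_basisS` (`Helper98/RD/BasisS.lean`, private `basis_gen`), but for each `p ≤ Q` choose the basis of `homS P.dq (tL P L) p` inside its spanning set of the monomials (`exists_linearIndependent`,
or `Module.Basis.extract`-type lemmas: `∃ b ⊆ s, span b = span s ∧ LinearIndependent ℚ (Subtype.val : b → V)`; `b` is finite since `homS` is finitely generated: `homS_fg`, `LinearIndependent` in a finite-dimensional space).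
Independence of the union over `p`: apply `pr p` (`pr_hom`, `homS_le`), as in `basis_gen`.
-/

set_option autoImplicit false

namespace AnWL
open Anick2

/-- A basis of monomials. -/
structure BasM (P : Par) (L : Finset P.M) (Q : ℕ) extends Bas P L Q where
  wd : B → List (P.U ⊕ P.M)
  ω_eq : ∀ b, ω b = mon P.dq (wd b)
  wd_mem : ∀ b, ∀ t ∈ wd b, t ∈ tL P L

/-- The monomial contains a letter `X`. -/
def BasM.px {P : Par} {L : Finset P.M} {Q : ℕ} (B : BasM P L Q) (b : B.B) : Prop :=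
  ∃ j, Sum.inr j ∈ B.wd b

private theorem basM_gen {A : Type} [Ring A] [Algebra ℚ A] (S : ℕ → Set A)
    (hS : ∀ p, (S p).Finite)
    (pr : ℕ → A →ₗ[ℚ] A) (hpr : ∀ n m : ℕ, ∀ a ∈ S n, pr m a = if n = m then a else 0) (m : ℕ) :
    ∃ (B : Type) (_ : Fintype B) (pd : B → ℕ) (ω : B → A),
      (∀ a, pd a ≤ m) ∧ (∀ a, ω a ∈ S (pd a)) ∧ LinearIndependent ℚ ω ∧
      ∀ p ≤ m, Submodule.span ℚ (S p) ≤ Submodule.span ℚ {x | ∃ a, pd a = p ∧ x = ω a} := by
  classical
  have hb : ∀ p, ∃ b ⊆ S p, Submodule.span ℚ b = Submodule.span ℚ (S p) ∧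
      LinearIndependent ℚ ((↑) : b → A) := fun p => exists_linearIndependent ℚ (S p)
  choose b hbS hspan hind using hb
  have hfin : ∀ p, Fintype (b p) := fun p => ((hS p).subset (hbS p)).fintype
  let B : Type := Σ p : Fin (m + 1), b (p : ℕ)
  let ω : B → A := fun a => (a.2 : A)
  have hmem : ∀ a : B, ω a ∈ S (a.1 : ℕ) := fun a => hbS _ a.2.2
  refine ⟨B, inferInstance, fun a => (a.1 : ℕ), ω, fun a => Nat.lt_succ_iff.mp a.1.2, hmem, ?_, ?_⟩
  · rw [Fintype.linearIndependent_iff]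
    rintro g hg ⟨p, i⟩
    have h := congrArg (pr (p : ℕ)) hg
    rw [map_sum, map_zero, Fintype.sum_sigma] at h
    rw [Finset.sum_eq_single p] at h
    · have h2 : ∑ i : b (p : ℕ), g ⟨p, i⟩ • (i : A) = 0 := by
        refine Eq.trans ?_ h
        refine Finset.sum_congr rfl fun i _ => ?_
        rw [map_smul, hpr _ _ _ (hmem ⟨p, i⟩), if_pos rfl]
      exact Fintype.linearIndependent_iff.mp (hind (p : ℕ)) (fun i => g ⟨p, i⟩) h2 i
    · intro q _ hq
      refine Finset.sum_eq_zero fun i _ => ?_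
      rw [map_smul, hpr _ _ _ (hmem ⟨q, i⟩), if_neg, smul_zero]
      intro h'
      exact hq (Fin.ext h')
    · intro h'
      exact absurd (Finset.mem_univ p) h'
  · intro p hp
    rw [← hspan p]
    refine Submodule.span_mono ?_
    intro x hx
    exact ⟨⟨⟨p, Nat.lt_succ_iff.mpr hp⟩, ⟨x, hx⟩⟩, rfl, rfl⟩

theorem exists_BasM (P : Par) (L : Finset P.M) (Q : ℕ) : Nonempty (BasM P L Q) := by
  have := P.finU
  have := P.finM
  have h1 : ∀ i, 1 ≤ P.dq i := by
    rintro (u | j)
    · exact le_trans (by norm_num) (P.du_pos u)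
    · exact (P.dm_odd j).pos
  have hfin : ∀ p, {a : Lam P.dq | ∃ l : List (P.U ⊕ P.M), (∀ i ∈ l, i ∈ tL P L) ∧
      degSum P.dq l = p ∧ a = mon P.dq l}.Finite := by
    intro p
    refine ((List.finite_length_le (P.U ⊕ P.M) p).image (mon P.dq)).subset ?_
    rintro _ ⟨l, -, hn, rfl⟩
    exact ⟨l, le_trans (degSum_ge P.dq h1 l) (le_of_eq hn), rfl⟩
  obtain ⟨B, hB, e, ω, hle, hmem, hind, hspan⟩ :=
    basM_gen (fun p => {a : Lam P.dq | ∃ l : List (P.U ⊕ P.M), (∀ i ∈ l, i ∈ tL P L) ∧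
      degSum P.dq l = p ∧ a = mon P.dq l}) hfin (pr P.dq) (by
        rintro n m _ ⟨l, hl, rfl, rfl⟩
        exact pr_hom P.dq (mon_mem_hom P.dq l)) Q
  choose wd hwd hdeg hω using hmem
  exact ⟨{ B := B, fin := hB, e := e, ω := ω, le := hle
           mem := fun b => by
             rw [hω b, ← hdeg b]
             exact mon_mem_homS P.dq (wd b) (hwd b)
           ind := hind, span := hspan, wd := wd, ω_eq := hω, wd_mem := hwd }⟩

/-- `X ↦ 0`. -/
noncomputable def zX (P : Par) : Lam P.dq →ₐ[ℚ] Lam P.dq :=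
  Lam.lift P.dq (Sum.elim (fun u => gen P.dq (Sum.inl u)) (fun _ => 0)) (by
    rintro (u | j) (u' | j')
    · exact gen_comm P.dq _ _
    · simp only [Sum.elim_inl, Sum.elim_inr, mul_zero, zero_mul, smul_zero]
    · simp only [Sum.elim_inl, Sum.elim_inr, mul_zero, zero_mul, smul_zero]
    · simp only [Sum.elim_inr, mul_zero, smul_zero])

private theorem zX_inl (P : Par) (u : P.U) :
    zX P (gen P.dq (Sum.inl u)) = gen P.dq (Sum.inl u) := by
  unfold zX
  rw [Lam.lift_gen]
  rfl

private theorem zX_inr (P : Par) (j : P.M) : zX P (gen P.dq (Sum.inr j)) = 0 := by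
  unfold zX
  rw [Lam.lift_gen]
  rfl

private theorem zX_mon_zero (P : Par) {l : List (P.U ⊕ P.M)} {j : P.M} (h : Sum.inr j ∈ l) :
    zX P (mon P.dq l) = 0 := by
  induction l with
  | nil => exact absurd h (List.not_mem_nil)
  | cons t l ih =>
    rw [mon_cons, map_mul]
    rcases List.mem_cons.1 h with h' | h'
    · rw [← h', zX_inr, zero_mul]
    · rw [ih h', mul_zero]

private theorem zX_mon_fix (P : Par) {l : List (P.U ⊕ P.M)} (h : ∀ j, Sum.inr j ∉ l) :
    zX P (mon P.dq l) = mon P.dq l := by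
  induction l with
  | nil => rw [mon_nil, map_one]
  | cons t l ih =>
    rw [mon_cons, map_mul, ih (fun j hj => h j (List.mem_cons_of_mem _ hj))]
    rcases t with u | j
    · rw [zX_inl]
    · exact absurd (List.mem_cons_self) (h j)

theorem zX_px {P : Par} {L : Finset P.M} {Q : ℕ} (B : BasM P L Q) {b : B.B} (h : B.px b) :
    zX P (B.ω b) = 0 := by
  obtain ⟨j, hj⟩ := h
  rw [B.ω_eq b]
  exact zX_mon_zero P hj

theorem zX_not_px {P : Par} {L : Finset P.M} {Q : ℕ} (B : BasM P L Q) {b : B.B} (h : ¬ B.px b) :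
    zX P (B.ω b) = B.ω b := by
  rw [B.ω_eq b]
  exact zX_mon_fix P (fun j hj => h ⟨j, hj⟩)

/-- `X ↦ 0` on the total algebra. -/
private noncomputable def zT {P : Par} (T : TS P) : Lam T.dt →ₐ[ℚ] Lam T.dt :=
  Lam.lift T.dt (Sum.elim (fun i => gen T.dt (Sum.inl i))
    (Sum.elim (fun u => gen T.dt (Sum.inr (Sum.inl u))) (fun _ => 0))) (by
    rintro (i | (u | j)) (i' | (u' | j'))
    · exact gen_comm T.dt _ _
    · exact gen_comm T.dt _ _
    · simp only [Sum.elim_inl, Sum.elim_inr, mul_zero, zero_mul, smul_zero]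
    · exact gen_comm T.dt _ _
    · exact gen_comm T.dt _ _
    · simp only [Sum.elim_inl, Sum.elim_inr, mul_zero, zero_mul, smul_zero]
    · simp only [Sum.elim_inl, Sum.elim_inr, mul_zero, zero_mul, smul_zero]
    · simp only [Sum.elim_inl, Sum.elim_inr, mul_zero, zero_mul, smul_zero]
    · simp only [Sum.elim_inr, mul_zero, smul_zero])

private theorem zT_inl {P : Par} (T : TS P) (i : T.ι) :
    zT T (gen T.dt (Sum.inl i)) = gen T.dt (Sum.inl i) := by
  unfold zT
  rw [Lam.lift_gen]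
  rfl

private theorem zT_u {P : Par} (T : TS P) (u : P.U) :
    zT T (gen T.dt (Sum.inr (Sum.inl u))) = gen T.dt (Sum.inr (Sum.inl u)) := by
  unfold zT
  rw [Lam.lift_gen]
  rfl

private theorem zT_X {P : Par} (T : TS P) (j : P.M) :
    zT T (gen T.dt (Sum.inr (Sum.inr j))) = 0 := by
  unfold zT
  rw [Lam.lift_gen]
  rfl

private theorem zT_iL {P : Par} (T : TS P) (a : Lam T.deg) :
    zT T (iL T.deg P.dq a) = iL T.deg P.dq a := by
  have h : (zT T).comp (iL T.deg P.dq) = iL T.deg P.dq := by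
    refine Lam.algHom_ext _ fun i => ?_
    have h1 : iL T.deg P.dq (gen T.deg i) = gen T.dt (Sum.inl i) := mapL_gen _ i
    rw [AlgHom.comp_apply, h1, zT_inl]
  exact congrArg (fun f : Lam T.deg →ₐ[ℚ] Lam T.dt => f a) h

private theorem zT_iR {P : Par} (T : TS P) (a : Lam P.dq) :
    zT T (iR T.deg P.dq a) = iR T.deg P.dq (zX P a) := by
  have h : (zT T).comp (iR T.deg P.dq) = (iR T.deg P.dq).comp (zX P) := by
    refine Lam.algHom_ext _ fun t => ?_
    have h1 : iR T.deg P.dq (gen P.dq t) = gen T.dt (Sum.inr t) := mapL_gen _ t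
    rw [AlgHom.comp_apply, AlgHom.comp_apply, h1]
    rcases t with u | j
    · rw [zT_u, zX_inl, h1]
    · rw [zT_X, zX_inr, map_zero]
  exact congrArg (fun f : Lam P.dq →ₐ[ℚ] Lam T.dt => f a) h

private theorem zT_mon_fix {P : Par} (T : TS P) {l : List (T.ι ⊕ (P.U ⊕ P.M))}
    (h : ∀ j, Sum.inr (Sum.inr j) ∉ l) : zT T (mon T.dt l) = mon T.dt l := by
  induction l with
  | nil => rw [mon_nil, map_one]
  | cons t l ih =>
    rw [mon_cons, map_mul, ih (fun j hj => h j (List.mem_cons_of_mem _ hj))]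
    rcases t with i | (u | j)
    · rw [zT_inl]
    · rw [zT_u]
    · exact absurd (List.mem_cons_self) (h j)

private theorem zT_SP {P : Par} (T : TS P) {q : List (T.ι ⊕ (P.U ⊕ P.M)) → Prop}
    (hq : ∀ l, q l → ∀ j : P.M, Sum.inr (Sum.inr j) ∉ l) {a : Lam T.dt} (ha : a ∈ SP T.dt q) :
    zT T a = a := by
  unfold SP at ha
  induction ha using Submodule.span_induction with
  | mem x hx =>
    obtain ⟨l, hl, rfl⟩ := hx
    exact zT_mon_fix T (hq l hl)
  | zero => rw [map_zero]
  | add x y _ _ hx hy => rw [map_add, hx, hy]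
  | smul r x _ hx => rw [map_smul, hx]

private theorem zT_D_mon {P : Par} (T : TS P) {l : List (P.U ⊕ P.M)} (h : ∀ j, Sum.inr j ∉ l) :
    zT T (T.D (iR T.deg P.dq (mon P.dq l))) = T.D (iR T.deg P.dq (mon P.dq l)) := by
  induction l with
  | nil =>
    rw [mon_nil, map_one, d_one T.diff, map_zero]
  | cons t l ih =>
    have hl : ∀ j, Sum.inr j ∉ l := fun j hj => h j (List.mem_cons_of_mem _ hj)
    have hg : iR T.deg P.dq (gen P.dq t) = gen T.dt (Sum.inr t) := mapL_gen _ t
    rw [mon_cons, map_mul, T.leib, hg, map_add, map_mul, map_mul, ih hl, zT_iR,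
      zX_mon_fix P hl]
    have h1 : zT T (T.D (gen T.dt (Sum.inr t))) = T.D (gen T.dt (Sum.inr t)) :=
      zT_SP T (fun l hl => hl.2) (T.Dt t)
    have h2 : zT T (sgn T.dt (gen T.dt (Sum.inr t))) = sgn T.dt (gen T.dt (Sum.inr t)) := by
      rw [sgn_gen, map_smul]
      rcases t with u | j
      · rw [zT_u]
      · exact absurd (List.mem_cons_self) (h j)
    rw [h1, h2]


/-- The matrix of `D` is block triangular: `D` of a monomial without `X` has no `X`. (Apply the algebra map `Lam T.dt → Lam T.dt` with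
`X_j ↦ 0` and the other letters fixed to both sides of `Mtx.eq`; it fixes `T.D (iR (ω b))` by `T.Dt` for the letters `u` and the
product rule; it maps `iR a` to `iR (zX a)` and fixes `iL a`; then `Bas_uniq`.) -/
theorem Mtx_px {P : Par} (T : TS P) {L : Finset P.M} {Q : ℕ} (B : BasM P L Q)
    {c : B.B → B.B → Lam T.deg} (hc : Mtx T B.toBas c) {b b' : B.B} (hb : ¬ B.px b)
    (hb' : B.px b') : c b b' = 0 := by
  classical
  have h1 := hc.eq b
  have h2 : zT T (T.D (iR T.deg P.dq (B.ω b))) = T.D (iR T.deg P.dq (B.ω b)) := by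
    rw [B.ω_eq b]
    exact zT_D_mon T (fun j hj => hb ⟨j, hj⟩)
  have h3 : zT T (T.D (iR T.deg P.dq (B.ω b))) =
      ∑ a, iL T.deg P.dq (if B.px a then 0 else c b a) * iR T.deg P.dq (B.ω a) := by
    rw [h1, map_sum]
    refine Finset.sum_congr rfl fun a _ => ?_
    rw [map_mul, zT_iL, zT_iR]
    by_cases ha : B.px a
    · rw [zX_px B ha, map_zero, mul_zero, if_pos ha, map_zero, zero_mul]
    · rw [zX_not_px B ha, if_neg ha]
  have h4 : ∑ a, iL T.deg P.dq (c b a) * iR T.deg P.dq (B.ω a) =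
      ∑ a, iL T.deg P.dq (if B.px a then 0 else c b a) * iR T.deg P.dq (B.ω a) := by
    rw [← h3, h2, h1]
  have h5 := Bas_uniq T B.toBas (x := fun a => c b a)
    (y := fun a => if B.px a then 0 else c b a) h4 b'
  simpa only [if_pos hb'] using h5

end AnWL
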