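import Pool.Agent.Helper48.G2.Adj

/-!
G2-C07. An extension `T'` of `T.adj e g` comes from an extension `T''` of `T` (the letters of `W'` have their differential in `ΛW'`, so `x_b` can be left out).

`T''`: `ι = T'.ι`, `deg = T'.deg`, `S = T'.S`, `D = der` with the values `iL (T'.S.d (gen i))` on `inl i` and `PhiT h.f (T.D (gen (inr t)))` on the coordinates (`h.f : T.ι → T'.ι`, as `(T.adj ..).ι = T.ι`), `Y = PhiT h.f (T.Y j)`;
`k.f = h.f`, `em.f = id`, `em.fu = some`, `em.fm = id`. `em.D`: on `inl i`: `T'.ext`; on the coordinates: `h.D` (`Φ_D`) applied to `inc (gen ..)` and `adj_D`. `em.Φ` is injective (`mapL_injective`), so `D ∘ D = 0` and `D_Y` for `T''` follow from those of `T'` (apply `em.Φ`;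
`Φ_Y h`). `ext`, `Dt`, `Y_hom`, `Y_free`: as in `C05a.lean` (`SP_mapL`).
`τ`: `Lam.lift` to `Polynomial (Lam T''.dt)` with `inl i ↦ C (gW i)`, `inr (inl (some u)) ↦ C (gU u)`, `inr (inl none) ↦ X`, `inr (inr j) ↦ C (gX j)`. `τ_D`: the linear map `a ↦ τ (T'.D a) - (map T''.D + k.Φ g * derivative) (τ a)` has the product rule
with `ρ₁ = τ`, `ρ₂ = τ ∘ sgn` and vanishes on the generators (`lam_zero`; `T'.D (gen ..) = em.Φ (..)` for the letters of `T''`, `T'.D x_b = h.Φ (inc g) = em.Φ (k.Φ g)`). `τ_p`, `τ_hz` (`tau`: `τ (tau a) = `coefficientwise `tau` times `2 ^ (e k)`) in the same way.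
`nl`: a point `θ` of `T''` extends to the point `θ'` of `T'` with `x_b ↦ 0` (`Polynomial.constantCoeff ∘ τ`, then `θ`): `θ' (D a) = θ (T''.D (coeff 0) + k.Φ g * coeff 1) = 0`, since `θ (k.Φ g) = 0` (`k.Φ g` is odd, so its square is `0`; `K` is a domain).
-/

set_option autoImplicit false

namespace AnWL
open Anick2
variable {P : Par}

/-! ### the algebra of the letters of `T'` without `x_b` -/

private noncomputable def g7E {e : ℕ} {he : Even e} {h2 : 2 ≤ e} (T' : TS (P.adj e he h2)) :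
    Lam (Sum.elim T'.deg P.dq) →ₐ[ℚ] Lam T'.dt :=
  mapL (Sum.map id (Sum.map some id)) (by rintro (i | u | j) <;> rfl)

private def g7m {e : ℕ} {he : Even e} {h2 : 2 ≤ e} (T' : TS (P.adj e he h2))
    (y : T'.ι ⊕ (P.U ⊕ P.M)) : T'.ι ⊕ ((P.adj e he h2).U ⊕ (P.adj e he h2).M) :=
  Sum.map id (Sum.map some id) y

private def g7x {e : ℕ} {he : Even e} {h2 : 2 ≤ e} (T' : TS (P.adj e he h2)) :
    T'.ι ⊕ ((P.adj e he h2).U ⊕ (P.adj e he h2).M) := Sum.inr (Sum.inl none)

private theorem g7E_gen {e : ℕ} {he : Even e} {h2 : 2 ≤ e} (T' : TS (P.adj e he h2))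
    (x : T'.ι ⊕ (P.U ⊕ P.M)) :
    g7E T' (gen (Sum.elim T'.deg P.dq) x) = gen T'.dt (g7m T' x) :=
  mapL_gen _ x

private theorem g7E_sgn {e : ℕ} {he : Even e} {h2 : 2 ≤ e} (T' : TS (P.adj e he h2))
    (a : Lam (Sum.elim T'.deg P.dq)) : sgn T'.dt (g7E T' a) = g7E T' (sgn _ a) :=
  (mapL_sgn _ a).symm

private theorem g7E_inj {e : ℕ} {he : Even e} {h2 : 2 ≤ e} (T' : TS (P.adj e he h2)) :
    Function.Injective (g7E T') := by
  unfold g7E
  refine mapL_injective _ ?_
  exact Function.Injective.sumMap Function.injective_id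
    (Function.Injective.sumMap (Option.some_injective _) Function.injective_id)

private theorem g7E_iL {e : ℕ} {he : Even e} {h2 : 2 ≤ e} (T' : TS (P.adj e he h2))
    (a : Lam T'.deg) :
    g7E T' (iL T'.deg P.dq a) = iL T'.deg (P.adj e he h2).dq a := by
  have h : (g7E T').comp (iL T'.deg P.dq) = iL T'.deg (P.adj e he h2).dq := by
    refine Lam.algHom_ext _ fun i => ?_
    have h1 : iL T'.deg P.dq (gen T'.deg i) = gen _ (Sum.inl i) := mapL_gen _ _
    have h3 : iL T'.deg (P.adj e he h2).dq (gen T'.deg i) = gen _ (Sum.inl i) := mapL_gen _ _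
    rw [AlgHom.comp_apply, h1, h3]
    exact g7E_gen T' _
  exact DFunLike.congr_fun h a

section
variable {T : TS P} {e : ℕ} {he : Even e} {h2 : 2 ≤ e} {g : Lam T.dt}
  {hg : g ∈ hom T.dt (e + 1)} {hgD : T.D g = 0}
  {hgs : g ∈ SP T.dt (fun l => 1 ≤ cW l ∧ ∀ j : P.M, Sum.inr (Sum.inr j) ∉ l)}
  {T' : TS (P.adj e he h2)} (h : (T.adj e he h2 g hg hgD hgs).Hom T')

private def g7f : T.ι → T'.ι := h.f

private noncomputable def g7K : Lam T.dt →ₐ[ℚ] Lam (Sum.elim T'.deg P.dq) :=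
  mapL (Sum.map (g7f h) id) (by rintro (i | t); exacts [h.deg i, rfl])

private theorem g7K_gen (x : T.ι ⊕ (P.U ⊕ P.M)) :
    g7K h (gen T.dt x) = gen _ (Sum.map (g7f h) id x) := mapL_gen _ x

private theorem g7EK (a : Lam T.dt) : g7E T' (g7K h a) = h.Φ (inc T e he h2 a) := by
  have h1 : (g7E T').comp (g7K h) = h.Φ.comp (inc T e he h2) := by
    refine Lam.algHom_ext _ fun x => ?_
    rw [AlgHom.comp_apply, AlgHom.comp_apply, g7K_gen, g7E_gen]
    rcases x with i | u | j
    · exact ((congrArg h.Φ (inc_gW T e he h2 i)).trans (Φ_gW h i)).symm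
    · exact ((congrArg h.Φ (inc_gU T e he h2 u)).trans (Φ_inr h (Sum.inl (some u)))).symm
    · exact ((congrArg h.Φ (inc_gX T e he h2 j)).trans (Φ_inr h (Sum.inr j))).symm
  exact DFunLike.congr_fun h1 a

private theorem g7K_hom {n : ℕ} {a : Lam T.dt} (ha : a ∈ hom T.dt n) :
    g7K h a ∈ hom (Sum.elim T'.deg P.dq) n := mapL_hom _ ha

private noncomputable def g7V : T'.ι ⊕ (P.U ⊕ P.M) → Lam (Sum.elim T'.deg P.dq) :=
  Sum.elim (fun i => iL T'.deg P.dq (T'.S.d (gen T'.deg i)))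
    (fun t => g7K h (T.D (gen T.dt (Sum.inr t))))

private theorem g7V_mem (x : T'.ι ⊕ (P.U ⊕ P.M)) :
    g7V h x ∈ hom (Sum.elim T'.deg P.dq) (Sum.elim T'.deg P.dq x + 1) := by
  rcases x with i | t
  · have h1 : T'.S.d (gen T'.deg i) ∈ hom T'.deg (T'.deg i + 1) :=
      T'.S.isDifferential.map_hom _ _ (gen_mem_hom _ i)
    exact mapL_hom (deg := Sum.elim T'.deg P.dq) (f := Sum.inl) (fun _ => rfl) h1
  · have h1 : T.D (gen T.dt (Sum.inr t)) ∈ hom T.dt (T.dt (Sum.inr t) + 1) :=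
      T.diff.map_hom _ _ (gen_mem_hom _ _)
    exact g7K_hom h h1

private noncomputable def g7D :
    Lam (Sum.elim T'.deg P.dq) →ₗ[ℚ] Lam (Sum.elim T'.deg P.dq) :=
  der _ (g7V h) (g7V_mem h)

private theorem g7D_gen (x : T'.ι ⊕ (P.U ⊕ P.M)) : g7D h (gen _ x) = g7V h x :=
  der_gen _ _ _ x

private theorem g7D_mul (a b : Lam (Sum.elim T'.deg P.dq)) :
    g7D h (a * b) = g7D h a * b + sgn _ a * g7D h b := der_mul _ _ _ a b

private theorem g7DK (a : Lam T.dt) :
    T'.D (g7E T' (g7K h a)) = g7E T' (g7K h (T.D a)) := by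
  rw [g7EK, g7EK, Φ_D]
  exact congrArg h.Φ (adj_D T e he h2 g hg hgD hgs a)

private theorem g7ED (a : Lam (Sum.elim T'.deg P.dq)) :
    T'.D (g7E T' a) = g7E T' (g7D h a) := by
  let F : Lam (Sum.elim T'.deg P.dq) →ₗ[ℚ] Lam T'.dt :=
    { toFun := fun x => T'.D (g7E T' x) - g7E T' (g7D h x)
      map_add' := fun a b => by
        rw [map_add, map_add, map_add, map_add]
        abel
      map_smul' := fun r a => by
        rw [map_smul, map_smul, map_smul, map_smul, RingHom.id_apply, smul_sub] }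
  have hF : ∀ x, F x = T'.D (g7E T' x) - g7E T' (g7D h x) := fun _ => rfl
  have h0 : F a = 0 := by
    refine lam_zero (g7E T') ((g7E T').comp (sgn _)) F ?_ ?_ a
    · intro a b
      rw [hF, hF, hF, AlgHom.comp_apply, map_mul, T'.leib, g7D_mul, map_add,
        map_mul, map_mul, g7E_sgn]
      noncomm_ring
    · intro x
      rw [hF, g7D_gen]
      rcases x with i | t
      · have h1 : g7E T' (gen _ (Sum.inl i)) = iL T'.deg (P.adj e he h2).dq (gen T'.deg i) := by
          have h4 : iL T'.deg (P.adj e he h2).dq (gen T'.deg i) = gen T'.dt (Sum.inl i) :=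
            mapL_gen _ _
          exact (g7E_gen T' _).trans h4.symm
        rw [h1, T'.ext]
        have h3 : g7V h (Sum.inl i) = iL T'.deg P.dq (T'.S.d (gen T'.deg i)) := rfl
        rw [h3, g7E_iL, sub_self]
      · have h1 : gen (Sum.elim T'.deg P.dq) (Sum.inr t) = g7K h (gen T.dt (Sum.inr t)) :=
          (g7K_gen h (Sum.inr t)).symm
        rw [h1, g7DK]
        exact sub_self _
  rw [hF] at h0
  exact sub_eq_zero.1 h0

private theorem g7_cW (f : T.ι → T'.ι) (l : List (T.ι ⊕ (P.U ⊕ P.M))) :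
    cW (l.map (Sum.map f (id : P.U ⊕ P.M → P.U ⊕ P.M))) = cW l := by
  induction l with
  | nil => rfl
  | cons x l ih =>
    rw [List.map_cons]
    rcases x with i | t
    · change cW (l.map (Sum.map f id)) + 1 = cW l + 1
      rw [ih]
    · exact ih

private theorem g7_not (f : T.ι → T'.ι) {l : List (T.ι ⊕ (P.U ⊕ P.M))}
    (hl : ∀ j : P.M, Sum.inr (Sum.inr j) ∉ l) (j : P.M) :
    (Sum.inr (Sum.inr j) : T'.ι ⊕ (P.U ⊕ P.M)) ∉
      l.map (Sum.map f (id : P.U ⊕ P.M → P.U ⊕ P.M)) := by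
  intro hc
  obtain ⟨x, hx, hy⟩ := List.mem_map.1 hc
  rcases x with i | t
  · exact Sum.inl_ne_inr hy
  · have h1 : t = Sum.inr j := Sum.inr_injective hy
    rw [h1] at hx
    exact hl j hx

private noncomputable def g7T : TS P where
  ι := T'.ι
  fin := T'.fin
  deg := T'.deg
  S := T'.S
  D := g7D h
  diff := by
    refine ⟨fun n a ha => der_mem _ _ _ ha, fun n a ha b => der_leibniz _ _ _ ha b, fun a => ?_⟩
    apply g7E_inj T'
    rw [← g7ED, ← g7ED, T'.diff.d_d, map_zero]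
  ext := by
    intro a
    apply g7E_inj T'
    rw [← g7ED, g7E_iL, T'.ext, g7E_iL]
  Dt := by
    intro t
    rw [g7D_gen]
    exact SP_mapL _ _ (fun l hl => ⟨(g7_cW _ l).symm ▸ hl.1, g7_not _ hl.2⟩) (T.Dt t)
  Y := fun j => g7K h (T.Y j)
  Y_hom := fun j => g7K_hom h (T.Y_hom j)
  Y_free := fun j => SP_mapL _ _ (fun l hl => g7_not _ hl) (T.Y_free j)
  D_Y := by
    intro j
    apply g7E_inj T'
    have h1 : g7E T' (g7K h (T.Y j)) = T'.Y j := by
      rw [g7EK]
      exact Φ_Y h j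
    have h3 : g7E T' (gen (Sum.elim T'.deg P.dq) (Sum.inr (Sum.inr j))) =
        gen T'.dt (Sum.inr (Sum.inr j)) := g7E_gen T' _
    rw [← g7ED, h1, map_pow, ← g7ED, h3]
    exact T'.D_Y j

private noncomputable def g7k : T.Hom (g7T h) where
  f := g7f h
  inj := h.inj
  deg := h.deg
  D := by
    intro a
    apply g7E_inj T'
    have h1 := g7ED h (g7K h a)
    rw [g7DK] at h1
    exact h1.symm
  Y := fun j => rfl

private noncomputable def g7em : Emb (g7T h) T' where
  f := id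
  fu := some
  fm := id
  inj := Function.injective_id
  injm := Function.injective_id
  deg := fun _ => rfl
  du := fun _ => rfl
  dm := fun _ => rfl
  D := fun a => g7ED h a

end

/-! ### the polynomials in `x_b` -/

private theorem g7_odd {X : Type} {δ : X → ℕ} {m : ℕ} (hm : Odd m) {G : Lam δ}
    (hG : G ∈ hom δ m) (c : Lam δ) : G * c = sgn δ c * G := by
  induction c using Lam.induction with
  | hm l =>
    rw [hom_comm δ hG (mon_mem_hom δ l), sgn_mon, pow_mul, hm.neg_one_pow, smul_mul_assoc]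
  | h0 => rw [mul_zero, map_zero, zero_mul]
  | hadd a b ha hb => rw [mul_add, map_add, add_mul, ha, hb]
  | hsmul r a ha => rw [mul_smul_comm, map_smul, smul_mul_assoc, ha]

private theorem g7_pone {X : Type} {δ : X → ℕ} {y : X} (hy : Odd (δ y)) : pdv hy 1 = 0 := by
  have h := pdv_mul hy (1 : Lam δ) 1
  have h1 : sgn δ (1 : Lam δ) = 1 := map_one (sgn δ)
  rw [h1, mul_one, mul_one, one_mul] at h
  exact (add_eq_left.1 h.symm)

section
variable {e : ℕ} {he : Even e} {h2 : 2 ≤ e} (T' : TS (P.adj e he h2))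

private noncomputable def g7v :
    T'.ι ⊕ ((P.adj e he h2).U ⊕ (P.adj e he h2).M) →
      Polynomial (Lam (Sum.elim T'.deg P.dq)) :=
  Sum.elim (fun i => Polynomial.C (gen _ (Sum.inl i)))
    (Sum.elim (fun u => Option.elim u Polynomial.X
        (fun u => Polynomial.C (gen _ (Sum.inr (Sum.inl u)))))
      (fun j => Polynomial.C (gen _ (Sum.inr (Sum.inr j)))))

private theorem g7v_map (y : T'.ι ⊕ (P.U ⊕ P.M)) :
    g7v T' (g7m T' y) =
      Polynomial.C (gen (Sum.elim T'.deg P.dq) y) := by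
  rcases y with i | u | j <;> rfl

private theorem g7_dt (y : T'.ι ⊕ (P.U ⊕ P.M)) :
    T'.dt (g7m T' y) = Sum.elim T'.deg P.dq y := by
  rcases y with i | u | j <;> rfl

private theorem g7_let (x : T'.ι ⊕ ((P.adj e he h2).U ⊕ (P.adj e he h2).M)) :
    x = g7x T' ∨ ∃ y : T'.ι ⊕ (P.U ⊕ P.M), x = g7m T' y := by
  rcases x with i | (_ | u) | j
  · exact Or.inr ⟨Sum.inl i, rfl⟩
  · exact Or.inl rfl
  · exact Or.inr ⟨Sum.inr (Sum.inl u), rfl⟩
  · exact Or.inr ⟨Sum.inr (Sum.inr j), rfl⟩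

private theorem g7v_comm (i j : T'.ι ⊕ ((P.adj e he h2).U ⊕ (P.adj e he h2).M)) :
    g7v T' i * g7v T' j = (-1 : ℚ) ^ (T'.dt i * T'.dt j) • (g7v T' j * g7v T' i) := by
  rcases g7_let T' i with rfl | ⟨y, rfl⟩
  · have h1 : g7v T' (g7x T') = Polynomial.X := rfl
    have h3 : Even (T'.dt (g7x T')) := he
    rw [h1, (h3.mul_right _).neg_one_pow, one_smul, Polynomial.X_mul]
  · rcases g7_let T' j with rfl | ⟨z, rfl⟩
    · have h1 : g7v T' (g7x T') = Polynomial.X := rfl
      have h3 : Even (T'.dt (g7x T')) := he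
      rw [h1, (h3.mul_left _).neg_one_pow, one_smul, Polynomial.X_mul]
    · rw [g7v_map, g7v_map, g7_dt, g7_dt, ← Polynomial.C_mul, ← Polynomial.C_mul, gen_comm,
        Polynomial.smul_C]

private noncomputable def g7t :
    Lam T'.dt →ₐ[ℚ] Polynomial (Lam (Sum.elim T'.deg P.dq)) :=
  Lam.lift T'.dt (g7v T') (g7v_comm T')

private theorem g7t_gen (x : T'.ι ⊕ ((P.adj e he h2).U ⊕ (P.adj e he h2).M)) :
    g7t T' (gen T'.dt x) = g7v T' x := Lam.lift_gen _ _ _ x

private theorem g7t_E (a : Lam (Sum.elim T'.deg P.dq)) :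
    g7t T' (g7E T' a) = Polynomial.C a := by
  have h : (g7t T').comp (g7E T') = Polynomial.CAlgHom := by
    refine Lam.algHom_ext _ fun x => ?_
    rw [AlgHom.comp_apply, g7E_gen, g7t_gen, g7v_map]
    rfl
  exact DFunLike.congr_fun h a

private theorem g7t_x : g7t T' (gen T'.dt (g7x T')) = Polynomial.X :=
  g7t_gen T' _

private theorem g7_ind {C : Lam T'.dt → Prop} (h1 : C 1)
    (hE : ∀ y b, C b → C (g7E T' (gen _ y) * b))
    (hx : ∀ b, C b → C (gen T'.dt (g7x T') * b)) (h0 : C 0)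
    (hadd : ∀ a b, C a → C b → C (a + b)) (hsmul : ∀ (r : ℚ) a, C a → C (r • a))
    (a : Lam T'.dt) : C a := by
  induction a using Lam.induction with
  | hm l =>
    induction l with
    | nil => rw [mon_nil]; exact h1
    | cons x l ih =>
      rw [mon_cons]
      rcases g7_let T' x with rfl | ⟨y, rfl⟩
      · exact hx _ ih
      · rw [← g7E_gen]
        exact hE _ _ ih
  | h0 => exact h0
  | hadd a b ha hb => exact hadd a b ha hb
  | hsmul r a ha => exact hsmul r a ha

private theorem g7_sx : sgn T'.dt (gen T'.dt (g7x T')) =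
    gen T'.dt (g7x T') := sgn_gen_even he

private theorem g7t_p (j : P.M) (hj : Odd (Sum.elim T'.deg P.dq (Sum.inr (Sum.inr j))))
    (a : Lam T'.dt) : ∀ n, (g7t T' (T'.p j a)).coeff n = pdv hj ((g7t T' a).coeff n) := by
  refine g7_ind T' (C := fun a => ∀ n, (g7t T' (T'.p j a)).coeff n =
    pdv hj ((g7t T' a).coeff n)) ?_ ?_ ?_ ?_ ?_ ?_ a
  · intro n
    have h1 : T'.p j 1 = 0 := g7_pone (T'.odd j)
    rw [h1, map_zero, map_one, Polynomial.coeff_zero, Polynomial.coeff_one]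
    by_cases hn : n = 0
    · rw [if_pos hn, g7_pone]
    · rw [if_neg hn, map_zero]
  · intro y b hb n
    have h1 : T'.p j (g7E T' (gen _ y)) = g7E T' (pdv hj (gen _ y)) := by
      refine pdv_mapL (Sum.map id (Sum.map some id)) (g7_dt T') ?_ hj (T'.odd j) _
      exact Function.Injective.sumMap Function.injective_id
        (Function.Injective.sumMap (Option.some_injective _) Function.injective_id)
    have h3 : T'.p j (g7E T' (gen _ y) * b) = T'.p j (g7E T' (gen _ y)) * b +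
      sgn T'.dt (g7E T' (gen _ y)) * T'.p j b := pdv_mul (T'.odd j) _ _
    rw [h3, h1, g7E_sgn, map_add, map_mul, map_mul, map_mul, g7t_E, g7t_E, g7t_E,
      Polynomial.coeff_add, Polynomial.coeff_C_mul, Polynomial.coeff_C_mul,
      Polynomial.coeff_C_mul, hb, pdv_mul]
  · intro b hb n
    have h1 : T'.p j (gen T'.dt (g7x T')) = 0 := by
      refine pdv_gen_ne (T'.odd j) ?_
      intro h
      exact Sum.inl_ne_inr (Sum.inr_injective h)
    have h3 : T'.p j (gen T'.dt (g7x T') * b) =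
      T'.p j (gen T'.dt (g7x T')) * b +
      sgn T'.dt (gen T'.dt (g7x T')) * T'.p j b := pdv_mul (T'.odd j) _ _
    rw [h3, h1, g7_sx, zero_mul, zero_add, map_mul, map_mul, g7t_x]
    cases n with
    | zero => rw [Polynomial.coeff_X_mul_zero, Polynomial.coeff_X_mul_zero, map_zero]
    | succ n => rw [Polynomial.coeff_X_mul, Polynomial.coeff_X_mul, hb]
  · intro n
    rw [map_zero, map_zero, Polynomial.coeff_zero, map_zero]
  · intro a b ha hb n
    rw [map_add, map_add, map_add, Polynomial.coeff_add, Polynomial.coeff_add, map_add, ha, hb]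
  · intro r a ha n
    rw [map_smul, map_smul, map_smul, Polynomial.coeff_smul, Polynomial.coeff_smul, map_smul, ha]

end

section
variable {T : TS P} {e : ℕ} {he : Even e} {h2 : 2 ≤ e} {g : Lam T.dt}
  {hg : g ∈ hom T.dt (e + 1)} {hgD : T.D g = 0}
  {hgs : g ∈ SP T.dt (fun l => 1 ≤ cW l ∧ ∀ j : P.M, Sum.inr (Sum.inr j) ∉ l)}
  {T' : TS (P.adj e he h2)} (h : (T.adj e he h2 g hg hgD hgs).Hom T')

private theorem g7_Dx :
    T'.D (gen T'.dt (g7x T')) = g7E T' (g7K h g) := by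
  have h1 : h.Φ (xb T e he h2) = gen T'.dt (g7x T') :=
    Φ_inr h (Sum.inl none)
  rw [← h1, Φ_D, g7EK]
  exact congrArg h.Φ (adj_xb T e he h2 g hg hgD hgs)

include hg in
private theorem g7_oddK (c : Lam (Sum.elim T'.deg P.dq)) :
    g7K h g * c = sgn _ c * g7K h g :=
  g7_odd (he.add_one) (g7K_hom h hg) c

private theorem g7t_D (a : Lam T'.dt) : ∀ n, (g7t T' (T'.D a)).coeff n =
    g7D h ((g7t T' a).coeff n) + ((n + 1 : ℕ) : ℚ) • (g7K h g * (g7t T' a).coeff (n + 1)) := by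
  have d1 : g7D h 1 = 0 := der_one _ _ _
  refine g7_ind T' (C := fun a => ∀ n, (g7t T' (T'.D a)).coeff n =
    g7D h ((g7t T' a).coeff n) + ((n + 1 : ℕ) : ℚ) • (g7K h g * (g7t T' a).coeff (n + 1)))
    ?_ ?_ ?_ ?_ ?_ ?_ a
  · intro n
    rw [d_one T'.diff, map_zero, map_one, Polynomial.coeff_zero, Polynomial.coeff_one,
      Polynomial.coeff_one, if_neg (Nat.succ_ne_zero n), mul_zero, smul_zero, add_zero]
    by_cases hn : n = 0
    · rw [if_pos hn, d1]
    · rw [if_neg hn, map_zero]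
  · intro y b hb n
    rw [T'.leib, g7ED h, g7E_sgn, map_add, map_mul, map_mul, map_mul, g7t_E, g7t_E, g7t_E,
      Polynomial.coeff_add, Polynomial.coeff_C_mul, Polynomial.coeff_C_mul,
      Polynomial.coeff_C_mul, Polynomial.coeff_C_mul, hb, g7D_mul, mul_add, mul_smul_comm,
      ← mul_assoc (sgn _ _) (g7K h g), ← g7_oddK, mul_assoc, add_assoc]
  · intro b hb n
    rw [T'.leib, g7_Dx h, g7_sx, map_add, map_mul, map_mul, map_mul, g7t_E, g7t_x,
      Polynomial.coeff_add, Polynomial.coeff_C_mul, Polynomial.coeff_X_mul]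
    cases n with
    | zero =>
      rw [Polynomial.coeff_X_mul_zero, Polynomial.coeff_X_mul_zero, map_zero, add_zero,
        zero_add, Nat.zero_add, Nat.cast_one, one_smul]
    | succ n =>
      rw [Polynomial.coeff_X_mul, Polynomial.coeff_X_mul, hb]
      have e1 : ((n + 1 + 1 : ℕ) : ℚ) = ((n + 1 : ℕ) : ℚ) + 1 := by push_cast; ring
      rw [e1, add_smul, one_smul]
      abel
  · intro n
    rw [map_zero, map_zero, Polynomial.coeff_zero, Polynomial.coeff_zero, map_zero, mul_zero,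
      smul_zero, add_zero]
  · intro a b ha hb n
    rw [map_add, map_add, map_add, Polynomial.coeff_add, Polynomial.coeff_add,
      Polynomial.coeff_add, map_add, ha, hb, mul_add, smul_add]
    abel
  · intro r a ha n
    rw [map_smul, map_smul, map_smul, Polynomial.coeff_smul, Polynomial.coeff_smul,
      Polynomial.coeff_smul, map_smul, ha, mul_smul_comm, smul_add, smul_comm r]

private theorem g7t_hz {m : ℕ} {a : Lam T'.dt} (ha : a ∈ hom T'.dt m) (n : ℕ) :
    (g7t T' a).coeff n ∈ (g7T h).hz ((m : ℤ) - n * e) := by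
  have key : ∀ (l : List (T'.ι ⊕ ((P.adj e he h2).U ⊕ (P.adj e he h2).M))) (n : ℕ),
      (g7t T' (mon T'.dt l)).coeff n ∈ (g7T h).hz ((degSum T'.dt l : ℤ) - n * e) := by
    intro l
    induction l with
    | nil =>
      intro n
      rw [mon_nil, map_one, Polynomial.coeff_one]
      by_cases hn : n = 0
      · rw [if_pos hn, hn, degSum_nil]
        have h1 := hz_one (g7T h)
        have e1 : ((0 : ℕ) : ℤ) - ((0 : ℕ) : ℤ) * e = 0 := by simp
        rw [e1]
        exact h1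
      · rw [if_neg hn]
        exact zero_mem _
    | cons x l ih =>
      intro n
      rw [mon_cons, map_mul, degSum_cons]
      rcases g7_let T' x with rfl | ⟨y, rfl⟩
      · rw [g7t_x]
        cases n with
        | zero => rw [Polynomial.coeff_X_mul_zero]; exact zero_mem _
        | succ n =>
          rw [Polynomial.coeff_X_mul]
          have e1 : T'.dt (g7x T') = e := rfl
          have e2 : ((T'.dt (g7x T') + degSum T'.dt l : ℕ) : ℤ) -
              ((n + 1 : ℕ) : ℤ) * e = (degSum T'.dt l : ℤ) - n * e := by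
            rw [e1]; push_cast; ring
          rw [e2]
          exact ih n
      · rw [g7t_gen, g7v_map, Polynomial.coeff_C_mul, g7_dt]
        have h1 : gen (Sum.elim T'.deg P.dq) y ∈ (g7T h).hz
            ((Sum.elim T'.deg P.dq y : ℕ) : ℤ) := hz_of_hom (g7T h) (gen_mem_hom _ y)
        have h3 := hz_mul (g7T h) h1 (ih n)
        have e2 : ((Sum.elim T'.deg P.dq y + degSum T'.dt l : ℕ) : ℤ) - n * e =
            ((Sum.elim T'.deg P.dq y : ℕ) : ℤ) + ((degSum T'.dt l : ℤ) - n * e) := by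
          push_cast; ring
        rw [e2]
        exact h3
  refine hom_induction T'.dt (C := fun a => (g7t T' a).coeff n ∈
    (g7T h).hz ((m : ℤ) - n * e)) (fun l hl => ?_) ?_ (fun a b ha hb => ?_)
    (fun r a ha => ?_) ha
  · rw [← hl]
    exact key l n
  · rw [map_zero, Polynomial.coeff_zero]
    exact zero_mem _
  · rw [map_add, Polynomial.coeff_add]
    exact add_mem ha hb
  · rw [map_smul, Polynomial.coeff_smul]
    exact Submodule.smul_mem _ _ ha

private theorem g7_nl (r : Lam (g7T h).dt) (hr : g7E T' r ∈ T'.nl) : r ∈ (g7T h).nl := by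
  intro K _ _ _ θ₀ hθ₀
  obtain ⟨θ, rfl⟩ : ∃ θ : Lam (Sum.elim T'.deg P.dq) →ₐ[ℚ] K, θ = θ₀ := ⟨θ₀, rfl⟩
  have hθ : ∀ a, θ (g7D h a) = 0 := hθ₀
  let θ' : Lam T'.dt →ₐ[ℚ] K := RingHom.toRatAlgHom
    ((θ : Lam (Sum.elim T'.deg P.dq) →+* K).comp
    ((Polynomial.constantCoeff (R := Lam (Sum.elim T'.deg P.dq))).comp
      (g7t T' : Lam T'.dt →+* Polynomial (Lam (Sum.elim T'.deg P.dq)))))
  have e0 : ∀ a, θ' a = θ ((g7t T' a).coeff 0) := fun a => rfl
  have hG : θ (g7K h g) = 0 := by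
    have h1 : g7K h g * g7K h g = 0 := by
      refine odd_sq ?_
      rw [sgn_hom _ (g7K_hom h hg), he.add_one.neg_one_pow, Algebra.smul_def, map_neg, map_one,
        neg_one_mul]
    have h3 : θ (g7K h g) * θ (g7K h g) = 0 := by
      rw [← map_mul, h1, map_zero]
    exact mul_self_eq_zero.1 h3
  have h1 := hr K θ' (by
    intro a
    rw [e0, g7t_D h, map_add, map_smul, map_mul, hθ, hG, zero_mul, smul_zero, add_zero])
  rw [e0, g7t_E, Polynomial.coeff_C_zero] at h1
  exact h1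

end

/-- The descent data. -/
structure Dsc (T : TS P) (e : ℕ) (he : Even e) (h2 : 2 ≤ e) (g : Lam T.dt)
    (hg : g ∈ hom T.dt (e + 1)) (hgD : T.D g = 0)
    (hgs : g ∈ SP T.dt (fun l => 1 ≤ cW l ∧ ∀ j : P.M, Sum.inr (Sum.inr j) ∉ l))
    (T' : TS (P.adj e he h2)) (h : (T.adj e he h2 g hg hgD hgs).Hom T') where
  T'' : TS P
  k : T.Hom T''
  em : Emb T'' T'
  bij : Function.Bijective em.f
  fu : em.fu = some
  fm : em.fm = id
  em_k : ∀ i, em.f (k.f i) = h.f i
  em_Φ : ∀ a, em.Φ (k.Φ a) = h.Φ (inc T e he h2 a)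
  τ : Lam T'.dt →ₐ[ℚ] Polynomial (Lam T''.dt)
  τ_em : ∀ a, τ (em.Φ a) = Polynomial.C a
  τ_x : τ (T'.gU none) = Polynomial.X
  τ_D : ∀ a n, (τ (T'.D a)).coeff n =
    T''.D ((τ a).coeff n) + ((n + 1 : ℕ) : ℚ) • (k.Φ g * (τ a).coeff (n + 1))
  τ_p : ∀ (j : P.M) a n, (τ (T'.p j a)).coeff n = T''.p j ((τ a).coeff n)
  τ_hz : ∀ (m : ℕ), ∀ a ∈ hom T'.dt m, ∀ n : ℕ, (τ a).coeff n ∈ T''.hz ((m : ℤ) - n * e)
  nl : ∀ r, em.Φ r ∈ T'.nl → r ∈ T''.nl

theorem exists_dsc (T : TS P) (e : ℕ) (he : Even e) (h2 : 2 ≤ e) (g : Lam T.dt)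
    (hg : g ∈ hom T.dt (e + 1)) (hgD : T.D g = 0)
    (hgs : g ∈ SP T.dt (fun l => 1 ≤ cW l ∧ ∀ j : P.M, Sum.inr (Sum.inr j) ∉ l))
    (T' : TS (P.adj e he h2)) (h : (T.adj e he h2 g hg hgD hgs).Hom T') :
    Nonempty (Dsc T e he h2 g hg hgD hgs T' h) := by
  exact ⟨{
    T'' := g7T h
    k := g7k h
    em := g7em h
    bij := Function.bijective_id
    fu := rfl
    fm := rfl
    em_k := fun _ => rfl
    em_Φ := fun a => g7EK h a
    τ := g7t T'
    τ_em := fun a => g7t_E T' a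
    τ_x := g7t_x T'
    τ_D := fun a n => g7t_D h a n
    τ_p := fun j a n => g7t_p T' j ((g7T h).odd j) a n
    τ_hz := fun m a ha n => g7t_hz h ha n
    nl := fun r hr => g7_nl h r hr }⟩

end AnWL
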