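import Pool.Agent.Helper48.G2.FldX
import Pool.Agent.Helper48.WL.C06e

/-!
G2-C04. The components of a superfield without body component.

`nl_of_fldX`: as `nl_of_fld` in `Helper48/WL/C06e.lean` (copy the private lemmas `ev0`, `psi`, `pq`, `taylor`, `pl_gW`, `pl_iR`, `li_zero`); here `g` is odd: `p (gen (i b)) = 0` if `deg (i b)` is odd; if `deg (i b)` is even, then `e b` is even, so
`ev0 (∂_l ω_b) = 0` for `l` of odd length, and for `l = []` `ev0 (ω_b) = 0` because `ω_b` contains a letter `X` (`B.ω_eq`, `px`). For `l ≠ []` of even length use the hypothesis.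
`fldX_bd`: `∂_l (ζ_b ω_b) = ζ_b ∂_l ω_b` (`l` even); `bd (ζ_b * iR (∂_l ω_b)) = bd ζ_b * rename (ev0 (∂_l ω_b))`. If the sum is equal to `q`, then for every `b` with `deg (ζ b)` even `ev0 (∂_l ω_b) = 0` (the
variables `ζ_b` are different and occur neither in the other factors nor in `q`: apply `MvPolynomial.pderiv (inl (i b))`); for `deg (ζ b)` odd, `e b` is odd and `ev0 (∂_l ω_b) = 0` too; for `¬ px b`, `∂_l ω_b = 0` (`l ≠ []`).
So `ev0 ∘ ∂_l` vanishes on the span of the `ω_b`, which contains the monomial `mon (l.map inr)` (degree `≤ Q`, `hQ`; `B.span`), where its value is `± 1` (`l` without repetitions) — a contradiction.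
-/

set_option autoImplicit false

namespace AnWL
open Anick2
variable {P : Par}

/-! ### the evaluation `u ↦ X_u`, `X_j ↦ 0` -/

private noncomputable def ev0 (P : Par) : Lam P.dq →ₐ[ℚ] MvPolynomial P.U ℚ :=
  Lam.lift P.dq (Sum.elim MvPolynomial.X (fun _ => 0)) (by
    rintro (u | j) (u' | j')
    · have h : Even (P.dq (Sum.inl u) * P.dq (Sum.inl u')) := (P.du_even u).mul_right _
      rw [h.neg_one_pow, one_smul]
      exact mul_comm _ _
    · simp only [Sum.elim_inl, Sum.elim_inr, mul_zero, zero_mul, smul_zero]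
    · simp only [Sum.elim_inl, Sum.elim_inr, mul_zero, zero_mul, smul_zero]
    · simp only [Sum.elim_inr, mul_zero, smul_zero])

private theorem ev0_u (u : P.U) : ev0 P (gen P.dq (Sum.inl u)) = MvPolynomial.X u := by
  unfold ev0
  rw [Lam.lift_gen]
  rfl

private theorem ev0_X (j : P.M) : ev0 P (gen P.dq (Sum.inr j)) = 0 := by
  unfold ev0
  rw [Lam.lift_gen]
  rfl

private theorem ev0_sgn (a : Lam P.dq) : ev0 P (sgn P.dq a) = ev0 P a := by
  have h : (ev0 P).comp (sgn P.dq) = ev0 P := by
    refine Lam.algHom_ext _ fun i => ?_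
    rw [AlgHom.comp_apply, sgn_gen, map_smul]
    rcases i with u | j
    · have h1 : Even (P.dq (Sum.inl u)) := P.du_even u
      rw [h1.neg_one_pow, one_smul]
    · rw [ev0_X, smul_zero]
  exact congrArg (fun f : Lam P.dq →ₐ[ℚ] MvPolynomial P.U ℚ => f a) h

private theorem ev0_odd {a : Lam P.dq} (h : sgn P.dq a = -a) : ev0 P a = 0 := by
  have h1 := ev0_sgn a
  rw [h, map_neg] at h1
  have h2 : (2 : ℚ) • ev0 P a = 0 := by
    rw [two_smul]
    nth_rw 1 [← h1]
    rw [neg_add_cancel]
  rcases smul_eq_zero.1 h2 with h3 | h3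
  · norm_num at h3
  · exact h3

/-! ### injectivity without the odd letters -/

private theorem mon_perm {l l' : List P.U} (h : l.Perm l') :
    mon P.dq (l.map Sum.inl) = mon P.dq (l'.map Sum.inl) := by
  induction h with
  | nil => rfl
  | cons x _ ih => rw [List.map_cons, List.map_cons, mon_cons, mon_cons, ih]
  | swap x y l =>
    rw [List.map_cons, List.map_cons, List.map_cons, List.map_cons, mon_cons, mon_cons, mon_cons,
      mon_cons, ← mul_assoc, ← mul_assoc, gen_comm]
    have h : Even (P.dq (Sum.inl y) * P.dq (Sum.inl x)) := (P.du_even y).mul_right _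
    rw [h.neg_one_pow, one_smul]
  | trans _ _ ih1 ih2 => rw [ih1, ih2]

private noncomputable def psi (P : Par) : MvPolynomial P.U ℚ →ₗ[ℚ] Lam P.dq :=
  (MvPolynomial.basisMonomials P.U ℚ).constr ℚ
    (fun m => mon P.dq ((Finsupp.toMultiset m).toList.map Sum.inl))

private theorem ev0_mon (l : List P.U) : ∃ m : P.U →₀ ℕ, Finsupp.toMultiset m = (l : Multiset P.U) ∧
    ev0 P (mon P.dq (l.map Sum.inl)) = MvPolynomial.monomial m 1 := by
  classical
  induction l with
  | nil =>
    refine ⟨0, by simp, ?_⟩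
    rw [List.map_nil, mon_nil, map_one]
    rfl
  | cons u l ih =>
    obtain ⟨m, h1, h2⟩ := ih
    refine ⟨Finsupp.single u 1 + m, ?_, ?_⟩
    · rw [map_add, h1, Finsupp.toMultiset_single]
      simp
    · rw [List.map_cons, mon_cons, map_mul, ev0_u, h2, MvPolynomial.X,
        MvPolynomial.monomial_mul, one_mul]

private theorem psi_ev0_mon (l : List P.U) :
    psi P (ev0 P (mon P.dq (l.map Sum.inl))) = mon P.dq (l.map Sum.inl) := by
  obtain ⟨m, h1, h2⟩ := ev0_mon l
  rw [h2]
  have h3 : MvPolynomial.monomial m (1 : ℚ) = MvPolynomial.basisMonomials P.U ℚ m := by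
    rw [MvPolynomial.coe_basisMonomials]
  rw [h3]
  unfold psi
  rw [Module.Basis.constr_basis]
  apply mon_perm
  rw [h1]
  exact Multiset.coe_eq_coe.1 (Multiset.coe_toList _)

private theorem psi_ev0 {a : Lam P.dq}
    (ha : a ∈ SP P.dq (fun l => ∀ j : P.M, Sum.inr j ∉ l)) : psi P (ev0 P a) = a := by
  unfold SP at ha
  induction ha using Submodule.span_induction with
  | mem x hx =>
    obtain ⟨l, hl, rfl⟩ := hx
    have h1 : ∃ l' : List P.U, l = l'.map Sum.inl := by
      clear * - hl
      induction l with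
      | nil => exact ⟨[], rfl⟩
      | cons t l ih =>
        obtain ⟨l', h'⟩ := ih (fun j hj => hl j (by simp [hj]))
        rcases t with u | j
        · exact ⟨u :: l', by rw [List.map_cons, ← h']⟩
        · exact absurd (by simp) (hl j)
    obtain ⟨l', rfl⟩ := h1
    exact psi_ev0_mon l'
  | zero => rw [map_zero, map_zero]
  | add x z _ _ hx hz => rw [map_add, map_add, hx, hz]
  | smul r x _ hx => rw [map_smul, map_smul, hx]

/-! ### iterated derivatives -/

private theorem podd (P : Par) (j : P.M) : Odd (P.dq (Sum.inr j)) := P.dm_odd j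

private noncomputable def pq (P : Par) : List P.M → Lam P.dq →ₗ[ℚ] Lam P.dq
  | [] => LinearMap.id
  | k :: l => (pdv (podd P k)).comp (pq P l)

private theorem pq_nil (a : Lam P.dq) : pq P [] a = a := rfl

private theorem pq_cons (k : P.M) (l : List P.M) (a : Lam P.dq) :
    pq P (k :: l) a = pdv (podd P k) (pq P l a) := rfl

private theorem pq_append (l : List P.M) (j : P.M) (a : Lam P.dq) :
    pq P (l ++ [j]) a = pq P l (pdv (podd P j) a) := by
  induction l with
  | nil => rfl
  | cons k l ih => rw [List.cons_append, pq_cons, pq_cons, ih]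

private theorem sgn_pq (l : List P.M) (a : Lam P.dq) :
    sgn P.dq (pq P l a) = (-1 : ℚ) ^ l.length • pq P l (sgn P.dq a) := by
  induction l with
  | nil => rw [pq_nil, pq_nil, List.length_nil, pow_zero, one_smul]
  | cons k l ih =>
    rw [pq_cons, pq_cons, sgn_pdv, ih, map_smul, List.length_cons, pow_succ, mul_neg, mul_one]
    rw [Algebra.smul_def, Algebra.smul_def, map_neg, neg_mul]

private theorem pq_zero {l : List P.M} : pq P l 0 = 0 := map_zero _

/-- Taylor expansion in the odd letters. -/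
private theorem taylor (J : Finset P.M) : ∀ a : Lam P.dq,
    a ∈ SP P.dq (fun l => ∀ j : P.M, Sum.inr j ∈ l → j ∈ J) →
    (∀ l : List P.M, l.Nodup → (∀ x ∈ l, x ∈ J) → ev0 P (pq P l a) = 0) → a = 0 := by
  classical
  induction J using Finset.induction_on with
  | empty =>
    intro a ha h
    have h1 : a ∈ SP P.dq (fun l => ∀ j : P.M, Sum.inr j ∉ l) := by
      refine Submodule.span_mono ?_ ha
      rintro _ ⟨l, hl, rfl⟩
      exact ⟨l, fun j hj => by simpa using hl j hj, rfl⟩
    have h2 := h [] List.nodup_nil (by simp)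
    rw [pq_nil] at h2
    rw [← psi_ev0 h1, h2, map_zero]
  | insert j J hj ih =>
    intro a ha h
    have hmono : ∀ b : Lam P.dq, b ∈ SP P.dq (fun l => (∀ k : P.M, Sum.inr k ∈ l →
        k ∈ insert j J) ∧ Sum.inr j ∉ l) →
        b ∈ SP P.dq (fun l => ∀ k : P.M, Sum.inr k ∈ l → k ∈ J) := by
      intro b hb
      refine Submodule.span_mono ?_ hb
      rintro _ ⟨l, ⟨hl, hl'⟩, rfl⟩
      refine ⟨l, fun k hk => ?_, rfl⟩
      rcases Finset.mem_insert.1 (hl k hk) with h1 | h1
      · rw [h1] at hk
        exact absurd hk hl'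
      · exact h1
    have h1 : pdv (podd P j) a ∈ SP P.dq (fun l => ∀ k : P.M, Sum.inr k ∈ l → k ∈ J) := by
      apply hmono
      refine SP_of_pdv_zero (podd P j) (pdv_SP (podd P j) ?_ ha) ?_
      · intro l₁ l₂ hl k hk
        apply hl
        rw [List.mem_append] at hk ⊢
        rcases hk with hk | hk
        · exact Or.inl hk
        · exact Or.inr (List.mem_cons_of_mem _ hk)
      · have h2 := pdv_pdv (podd P j) (podd P j) a
        have h3 : (2 : ℚ) • pdv (podd P j) (pdv (podd P j) a) = 0 := by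
          rw [two_smul]
          nth_rw 1 [h2]
          rw [neg_add_cancel]
        rcases smul_eq_zero.1 h3 with h4 | h4
        · norm_num at h4
        · exact h4
    have h2 : pdv (podd P j) a = 0 := by
      refine ih _ h1 (fun l hl hl' => ?_)
      rw [← pq_append]
      refine h _ ?_ ?_
      · rw [List.nodup_append]
        refine ⟨hl, List.nodup_singleton j, ?_⟩
        intro x hx y hy hxy
        rw [List.mem_singleton] at hy
        rw [hxy, hy] at hx
        exact hj (hl' j hx)
      · intro x hx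
        rw [List.mem_append, List.mem_singleton] at hx
        rcases hx with hx | hx
        · exact Finset.mem_insert_of_mem (hl' x hx)
        · rw [hx]; exact Finset.mem_insert_self _ _
    refine ih a (hmono a (SP_of_pdv_zero (podd P j) ha h2)) (fun l hl hl' => ?_)
    exact h l hl (fun x hx => Finset.mem_insert_of_mem (hl' x hx))

/-! ### the derivatives of the field -/

private theorem p_gW (T : TS P) (j : P.M) (t : T.ι) : T.p j (T.gW t) = 0 :=
  pdv_gen_ne (T.odd j) (by simp)

private theorem pl_gW (T : TS P) (l : List P.M) (t : T.ι) (x : Lam T.dt) :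
    T.pl l (T.gW t * x) = (-1 : ℚ) ^ (T.deg t * l.length) • (T.gW t * T.pl l x) := by
  induction l with
  | nil =>
    rw [List.length_nil, mul_zero, pow_zero, one_smul]
    rfl
  | cons k l ih =>
    have e1 : T.pl (k :: l) (T.gW t * x) = T.p k (T.pl l (T.gW t * x)) := rfl
    have e2 : T.pl (k :: l) x = T.p k (T.pl l x) := rfl
    have e3 : T.p k (T.gW t * T.pl l x) =
        T.p k (T.gW t) * T.pl l x + sgn T.dt (T.gW t) * T.p k (T.pl l x) :=
      pdv_mul (T.odd k) _ _
    have e4 : sgn T.dt (T.gW t) = (-1 : ℚ) ^ T.deg t • T.gW t := sgn_gen T.dt (Sum.inl t)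
    rw [e1, e2, ih, map_smul, e3, p_gW, zero_mul, zero_add, e4, smul_mul_assoc, smul_smul,
      List.length_cons, mul_add, mul_one, pow_add]

private theorem pl_iR (T : TS P) (l : List P.M) (a : Lam P.dq) :
    T.pl l (iR T.deg P.dq a) = iR T.deg P.dq (pq P l a) := by
  induction l with
  | nil => rfl
  | cons k l ih =>
    have e1 : T.pl (k :: l) (iR T.deg P.dq a) = T.p k (T.pl l (iR T.deg P.dq a)) := rfl
    rw [e1, ih, pq_cons]
    exact pdv_mapL (Sum.inr : P.U ⊕ P.M → T.ι ⊕ (P.U ⊕ P.M)) (fun _ => rfl) Sum.inr_injective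
      (podd P k) (T.odd k) (pq P l a)

private theorem li_zero {B M : Type} [Fintype B] [AddCommMonoid M] [Module ℚ M] {ω : B → M}
    (h : LinearIndependent ℚ ω) (c : B → ℚ) (h0 : ∑ b, c b • ω b = 0) (b : B) : c b = 0 := by
  have h1 : Function.Injective (Finsupp.linearCombination ℚ ω) := h
  have h2 : Finsupp.linearCombination ℚ ω (Finsupp.equivFunOnFinite.symm c) =
      Finsupp.linearCombination ℚ ω 0 := by
    rw [map_zero, Finsupp.linearCombination_apply, Finsupp.sum_fintype _ _ (by simp), ← h0]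
    rfl
  have h3 := h1 h2
  exact congrArg (fun f : B →₀ ℚ => f b) h3


/-! ### values on monomials -/

private theorem ev0_mon_X (l : List (P.U ⊕ P.M)) (h : ∃ j, Sum.inr j ∈ l) :
    ev0 P (mon P.dq l) = 0 := by
  obtain ⟨j, hj⟩ := h
  induction l with
  | nil => simp at hj
  | cons t l ih =>
    rw [mon_cons, map_mul]
    rcases List.mem_cons.1 hj with h1 | h1
    · rw [← h1, ev0_X, zero_mul]
    · rw [ih h1, mul_zero]

private theorem pq_smul (l : List P.M) (c : ℚ) (a : Lam P.dq) :
    pq P l (c • a) = c • pq P l a := map_smul _ _ _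

private theorem pq_notMem (l : List P.M) {k : P.M} (hk : k ∉ l) (a : Lam P.dq) :
    ∃ c : ℚ, c ≠ 0 ∧ pq P l (gen P.dq (Sum.inr k) * a) = c • (gen P.dq (Sum.inr k) * pq P l a) := by
  induction l with
  | nil => exact ⟨1, one_ne_zero, by rw [pq_nil, pq_nil, one_smul]⟩
  | cons j l ih =>
    obtain ⟨c, hc, h⟩ := ih (fun h1 => hk (List.mem_cons_of_mem _ h1))
    have hjk : (Sum.inr k : P.U ⊕ P.M) ≠ Sum.inr j := by
      intro h1
      apply hk
      rw [Sum.inr_injective h1]
      exact List.mem_cons_self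
    refine ⟨-c, neg_ne_zero.2 hc, ?_⟩
    rw [pq_cons, pq_cons, h, map_smul, pdv_mul, pdv_gen_ne _ hjk, zero_mul, zero_add, sgn_gen,
      (podd P k).neg_one_pow, smul_mul_assoc, smul_smul, mul_neg, mul_one]

private theorem pq_mon (l : List P.M) (hl : l.Nodup) :
    ∃ c : ℚ, c ≠ 0 ∧ pq P l (mon P.dq (l.map Sum.inr)) = c • 1 := by
  induction l with
  | nil => exact ⟨1, one_ne_zero, by rw [pq_nil, List.map_nil, mon_nil, one_smul]⟩
  | cons k l ih =>
    obtain ⟨c, hc, h⟩ := ih (List.nodup_cons.1 hl).2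
    obtain ⟨c', hc', h'⟩ := pq_notMem l (List.nodup_cons.1 hl).1 (mon P.dq (l.map Sum.inr))
    refine ⟨c' * c, mul_ne_zero hc' hc, ?_⟩
    rw [pq_cons, List.map_cons, mon_cons, h', h, map_smul, mul_smul_comm, map_smul, mul_one,
      pdv_gen, smul_smul]

private theorem degSum_mapX (l : List P.M) :
    degSum P.dq (l.map Sum.inr) = (l.map P.dm).sum := by
  induction l with
  | nil => rfl
  | cons k l ih =>
    rw [List.map_cons, degSum_cons, ih, List.map_cons, List.sum_cons]
    rfl

private theorem pq_not_px {L : Finset P.M} {Q : ℕ} (B : BasM P L Q) {b : B.B} (hb : ¬ B.px b)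
    (l : List P.M) (hl : l ≠ []) : pq P l (B.ω b) = 0 := by
  obtain ⟨l', j, rfl⟩ : ∃ l' j, l = l' ++ [j] :=
    ⟨l.dropLast, l.getLast hl, (List.dropLast_append_getLast hl).symm⟩
  rw [pq_append]
  have h : pdv (podd P j) (B.ω b) = 0 := by
    apply pdv_zero_of_SP
    rw [B.ω_eq]
    exact Submodule.subset_span ⟨B.wd b, fun h => hb ⟨j, h⟩, rfl⟩
  rw [h, pq_zero]

private theorem fldX_eq (T : TS P) {L : Finset P.M} {Q : ℕ} (B : BasM P L Q)
    (i : {b : B.B // B.px b} → T.ι) [inst : Fintype {b : B.B // B.px b}] :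
    T.fldX B i = ∑ b : {b : B.B // B.px b}, T.gW (i b) * iR T.deg P.dq (B.ω b.1) := by
  have h : inst = Fintype.ofFinite _ := Subsingleton.elim _ _
  subst h
  rfl

private theorem bd_iR (T : TS P) (a : Lam P.dq) :
    bd T.dt (iR T.deg P.dq a) =
      MvPolynomial.rename (fun u => Sum.inr (Sum.inl u)) (ev0 P a) := by
  have h : (bd T.dt).comp (iR T.deg P.dq) =
      (MvPolynomial.rename (fun u : P.U => (Sum.inr (Sum.inl u) : T.ι ⊕ (P.U ⊕ P.M)))).comp
        (ev0 P) := by
    refine Lam.algHom_ext _ fun t => ?_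
    have e1 : iR T.deg P.dq (gen P.dq t) = gen T.dt (Sum.inr t) := mapL_gen _ t
    rw [AlgHom.comp_apply, AlgHom.comp_apply, e1]
    rcases t with u | j
    · rw [ev0_u, MvPolynomial.rename_X]
      exact bd_even (δ := T.dt) (i := Sum.inr (Sum.inl u)) (P.du_even u)
    · rw [ev0_X, map_zero]
      exact bd_odd (δ := T.dt) (i := Sum.inr (Sum.inr j))
        (Nat.not_even_iff_odd.2 (P.dm_odd j))
  exact congrArg (fun f : Lam P.dq →ₐ[ℚ] MvPolynomial (T.ι ⊕ (P.U ⊕ P.M)) ℚ => f a) h

theorem nl_of_fldX (T : TS P) {L : Finset P.M} {Q : ℕ} (B : BasM P L Q)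
    (i : {b : B.B // B.px b} → T.ι) (g : ℕ) (hg : Odd g)
    (hi : ∀ b, T.deg (i b) + B.e b.1 + 1 = g)
    (h : ∀ l : List P.M, l.Nodup → l ≠ [] → Even l.length → (∀ x ∈ l, x ∈ L) →
      T.pl l (T.fldX B i) ∈ T.nl) (b : {b : B.B // B.px b}) : T.gW (i b) ∈ T.nl := by
  intro K _ _ _ θ₀ hθ₀
  classical
  have : Fintype {b : B.B // B.px b} := Fintype.ofFinite _
  let p : Lam T.deg →ₐ[ℚ] K := θ₀.comp (iL T.deg P.dq)
  have hp : ∀ a, p (T.S.d a) = 0 := by
    intro a
    show θ₀ (iL T.deg P.dq (T.S.d a)) = 0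
    rw [← T.ext a]
    exact hθ₀ _
  obtain ⟨θ, h1, h2, h3, h4⟩ := exists_gen_point T p hp
  have hodd : ∀ t, Odd (T.deg t) → p (gen T.deg t) = 0 := by
    intro t ht
    have e : sgn T.deg (gen T.deg t) = -gen T.deg t := by
      rw [sgn_gen, ht.neg_one_pow]
      rw [Algebra.smul_def, map_neg, map_one, neg_one_mul]
    have e2 := congrArg p (odd_sq e)
    rw [map_mul, map_zero] at e2
    exact mul_self_eq_zero.1 e2
  have hR : ∀ a, θ (iR T.deg P.dq a) = MvPolynomial.map (algebraMap ℚ K) (ev0 P a) := by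
    intro a
    have e : θ.comp (iR T.deg P.dq) = (MvPolynomial.mapAlgHom (Algebra.ofId ℚ K)).comp (ev0 P) := by
      refine Lam.algHom_ext _ fun t => ?_
      rw [AlgHom.comp_apply, AlgHom.comp_apply]
      have e1 : iR T.deg P.dq (gen P.dq t) = gen T.dt (Sum.inr t) := mapL_gen _ t
      rw [e1]
      rcases t with u | j
      · rw [ev0_u, h3 u]
        simp
      · rw [ev0_X, h4 j, map_zero]
    exact congrArg (fun f : Lam P.dq →ₐ[ℚ] MvPolynomial P.U K => f a) e
  have hW : ∀ t, θ (T.gW t) = MvPolynomial.C (p (gen T.deg t)) := by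
    intro t
    have e1 : iL T.deg P.dq (gen T.deg t) = T.gW t := mapL_gen _ t
    rw [← e1, h2]
  have key : ∀ l : List P.M, l.Nodup → (∀ x ∈ l, x ∈ L) →
      ∑ b : {b : B.B // B.px b}, MvPolynomial.C (p (gen T.deg (i b))) *
        MvPolynomial.map (algebraMap ℚ K) (ev0 P (pq P l (B.ω b.1))) = 0 := by
    intro l hl hl'
    rcases Nat.even_or_odd l.length with hev | hod
    · by_cases hnil : l = []
      · refine Finset.sum_eq_zero fun b _ => ?_
        have h5 : ev0 P (pq P l (B.ω b.1)) = 0 := by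
          rw [hnil, pq_nil, B.ω_eq]
          exact ev0_mon_X _ b.2
        rw [h5, map_zero, mul_zero]
      · have h5 := h l hl hnil hev hl' (MvPolynomial P.U K) θ h1
        rw [fldX_eq, map_sum, map_sum] at h5
        rw [← h5]
        refine Finset.sum_congr rfl fun b _ => ?_
        rw [pl_gW, map_smul, map_mul, pl_iR, hW, hR, (hev.mul_left _).neg_one_pow, one_smul]
    · refine Finset.sum_eq_zero fun b _ => ?_
      rcases Nat.even_or_odd (T.deg (i b)) with hd | hd
      · have he : Even (B.e b.1) := by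
          have := hi b
          rw [← this] at hg
          by_contra hc
          rw [Nat.not_even_iff_odd] at hc
          have h5 : Even (T.deg (i b) + B.e b.1 + 1) := (hd.add_odd hc).add_one
          exact (Nat.not_even_iff_odd.2 hg) h5
        have h5 : sgn P.dq (pq P l (B.ω b.1)) = -pq P l (B.ω b.1) := by
          rw [sgn_pq, hod.neg_one_pow, sgn_hom P.dq (homS_le P.dq _ _ (B.mem b.1)),
            he.neg_one_pow, one_smul]
          rw [Algebra.smul_def, map_neg, map_one, neg_one_mul]
        rw [ev0_odd h5, map_zero, mul_zero]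
      · rw [hodd _ hd, MvPolynomial.C_0, zero_mul]
  have hlam : ∀ f : Module.Dual ℚ K, f (p (gen T.deg (i b))) = 0 := by
    intro f
    have h6 : ∑ b : {b : B.B // B.px b}, f (p (gen T.deg (i b))) • B.ω b.1 = 0 := by
      refine taylor L _ ?_ ?_
      · refine Submodule.sum_mem _ fun b _ => Submodule.smul_mem _ _ ?_
        refine Submodule.span_mono ?_ (B.mem b.1)
        rintro _ ⟨l, hl, -, rfl⟩
        exact ⟨l, fun j hj => hl _ hj j rfl, rfl⟩
      · intro l hl hl'
        have h7 := key l hl hl'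
        ext m
        have h8 := congrArg (MvPolynomial.coeff m) h7
        rw [MvPolynomial.coeff_sum] at h8
        rw [map_sum, map_sum, MvPolynomial.coeff_sum, MvPolynomial.coeff_zero]
        have h9 := congrArg f h8
        rw [map_sum, MvPolynomial.coeff_zero, map_zero] at h9
        rw [← h9]
        refine Finset.sum_congr rfl fun b _ => ?_
        rw [MvPolynomial.coeff_C_mul, MvPolynomial.coeff_map, map_smul, map_smul,
          MvPolynomial.coeff_smul, mul_comm, ← Algebra.smul_def, map_smul, smul_eq_mul,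
          smul_eq_mul, mul_comm]
    exact li_zero (B.ind.comp Subtype.val Subtype.val_injective)
      (fun b => f (p (gen T.deg (i b)))) h6 b
  have h10 : p (gen T.deg (i b)) = 0 := (Module.forall_dual_apply_eq_zero_iff ℚ _).1 hlam
  have h11 : iL T.deg P.dq (gen T.deg (i b)) = T.gW (i b) := mapL_gen _ (i b)
  rw [← h11]
  exact h10

theorem fldX_bd (T : TS P) {L : Finset P.M} {Q : ℕ} (B : BasM P L Q)
    (i : {b : B.B // B.px b} → T.ι) (hinj : Function.Injective i) (g : ℕ) (hg : Odd g)
    (hi : ∀ b, T.deg (i b) + B.e b.1 + 1 = g) (l : List P.M) (hl : l.Nodup) (hne : l ≠ [])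
    (hev : Even l.length) (hL : ∀ x ∈ l, x ∈ L) (hQ : (l.map P.dm).sum ≤ Q)
    (q : MvPolynomial (T.ι ⊕ (P.U ⊕ P.M)) ℚ) (hq : ∀ b, Sum.inl (i b) ∉ q.vars) :
    bd T.dt (T.pl l (T.fldX B i)) ≠ q := by
  intro heq
  classical
  have : Fintype {b : B.B // B.px b} := Fintype.ofFinite _
  have h7 : bd T.dt (T.pl l (T.fldX B i)) = ∑ b : {b : B.B // B.px b},
      bd T.dt (T.gW (i b)) *
        MvPolynomial.rename (fun u => Sum.inr (Sum.inl u)) (ev0 P (pq P l (B.ω b.1))) := by
    rw [fldX_eq, map_sum, map_sum]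
    refine Finset.sum_congr rfl fun b _ => ?_
    rw [pl_gW, map_smul, map_mul, pl_iR, bd_iR, (hev.mul_left _).neg_one_pow, one_smul]
  have hbd : ∀ b, bd T.dt (T.gW (i b)) =
      if Even (T.deg (i b)) then MvPolynomial.X (Sum.inl (i b)) else 0 := by
    intro b
    by_cases hb : Even (T.deg (i b))
    · rw [if_pos hb]
      exact bd_even (δ := T.dt) (i := Sum.inl (i b)) hb
    · rw [if_neg hb]
      exact bd_odd (δ := T.dt) (i := Sum.inl (i b)) hb
  have hren : ∀ (b : {b : B.B // B.px b}) (r : MvPolynomial P.U ℚ),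
      MvPolynomial.pderiv (Sum.inl (i b) : T.ι ⊕ (P.U ⊕ P.M))
        (MvPolynomial.rename (fun u => Sum.inr (Sum.inl u)) r) = 0 := by
    intro b r
    apply MvPolynomial.pderiv_eq_zero_of_notMem_vars
    intro hm
    have h8 := MvPolynomial.vars_rename _ _ hm
    rw [Finset.mem_image] at h8
    obtain ⟨u, -, hu⟩ := h8
    exact Sum.inr_ne_inl hu
  -- all values vanish
  have hz : ∀ b : B.B, ev0 P (pq P l (B.ω b)) = 0 := by
    intro b
    by_cases hpx : B.px b
    · rcases Nat.even_or_odd (T.deg (i ⟨b, hpx⟩)) with hd | hd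
      · have h9 := congrArg (MvPolynomial.pderiv (Sum.inl (i ⟨b, hpx⟩) : T.ι ⊕ (P.U ⊕ P.M)))
          (h7.symm.trans heq)
        rw [MvPolynomial.pderiv_eq_zero_of_notMem_vars (hq ⟨b, hpx⟩), map_sum,
          Finset.sum_eq_single (⟨b, hpx⟩ : {b : B.B // B.px b})] at h9
        · rw [hbd, if_pos hd, Derivation.leibniz, hren, smul_zero, zero_add,
            MvPolynomial.pderiv_X_self, smul_eq_mul, mul_one] at h9
          have hinj2 : Function.Injective
              (fun u : P.U => (Sum.inr (Sum.inl u) : T.ι ⊕ (P.U ⊕ P.M))) :=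
            Sum.inr_injective.comp Sum.inl_injective
          exact MvPolynomial.rename_injective _ hinj2 (h9.trans (map_zero _).symm)
        · intro b' _ hb'
          rw [Derivation.leibniz, hren, smul_zero, zero_add, hbd]
          have h10 : MvPolynomial.pderiv (Sum.inl (i ⟨b, hpx⟩) : T.ι ⊕ (P.U ⊕ P.M))
              (if Even (T.deg (i b')) then MvPolynomial.X (Sum.inl (i b')) else 0 :
                MvPolynomial (T.ι ⊕ (P.U ⊕ P.M)) ℚ) = 0 := by
            split_ifs
            · apply MvPolynomial.pderiv_X_of_ne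
              intro h11
              exact hb' (hinj (Sum.inl_injective h11))
            · exact map_zero _
          rw [h10, smul_zero]
        · intro h11
          exact absurd (Finset.mem_univ _) h11
      · have he : Odd (B.e b) := by
          have h12 : T.deg (i ⟨b, hpx⟩) + B.e b + 1 = g := hi ⟨b, hpx⟩
          rw [← h12] at hg
          by_contra hc
          rw [Nat.not_odd_iff_even] at hc
          have h5 : Even (T.deg (i ⟨b, hpx⟩) + B.e b + 1) := (hd.add_even hc).add_one
          exact (Nat.not_even_iff_odd.2 hg) h5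
        have h5 : sgn P.dq (pq P l (B.ω b)) = -pq P l (B.ω b) := by
          rw [sgn_pq, hev.neg_one_pow, one_smul, sgn_hom P.dq (homS_le P.dq _ _ (B.mem b)),
            he.neg_one_pow, map_smul]
          rw [Algebra.smul_def, map_neg, map_one, neg_one_mul]
        exact ev0_odd h5
    · rw [pq_not_px B hpx l hne, map_zero]
  obtain ⟨c, hc, hcl⟩ := pq_mon l hl
  have h13 : mon P.dq (l.map Sum.inr) ∈ homS P.dq (tL P L) (degSum P.dq (l.map Sum.inr)) := by
    refine mon_mem_homS P.dq _ ?_
    intro t ht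
    obtain ⟨k, hk, rfl⟩ := List.mem_map.1 ht
    intro j hj
    rw [← Sum.inr_injective hj]
    exact hL k hk
  have h14 := B.span _ (by rw [degSum_mapX]; exact hQ) h13
  have h15 : ev0 P (pq P l (mon P.dq (l.map Sum.inr))) = 0 := by
    have h16 : Submodule.span ℚ {x | ∃ b, B.e b = degSum P.dq (l.map Sum.inr) ∧ x = B.ω b} ≤
        LinearMap.ker ((ev0 P).toLinearMap.comp (pq P l)) := by
      rw [Submodule.span_le]
      rintro _ ⟨b, -, rfl⟩
      exact hz b
    exact h16 h14
  rw [hcl, map_smul, map_one] at h15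
  rcases smul_eq_zero.1 h15 with h17 | h17
  · exact hc h17
  · exact one_ne_zero h17

end AnWL
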