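import Pool.Agent.Helper48.G2.Cls
import Pool.Agent.Helper48.G2.NlX
import Pool.Agent.Helper48.WL.C06f

/-!
G2-C05. `EXTo` and `IPos` for the class `KK T₀ n₀ lab`.

`EXTo_KK`: as `EXT_KK` in `Helper48/WL/C06f.lean` (`Mor_lin`), with `exists_superfieldX`, `nl_of_fldX`, `fldX_map`, `fldX_bd`. `g : ℤ` odd. Case `g < n₀ + 1` : then `w = 0` (`w₀ ∈ SP (n₀ + 2 ≤ cW)` nonzero homogeneous would have degree `≥ 2 (n₀ + 2)`;
all letters have degree `≥ 2`): `H = G`, `φ = id`, `z = 0`; the unit clause is empty: `l ≠ []`, `xd ≥ 1`, so `g - 1 - ∑ xd < n₀`. Case `n₀ + 1 ≤ g`: `n = g.toNat`; if `w₀ = 0` then `w₀ ∈ hom n` anyway; `exists_superfieldX T L n₀ hn₀ n`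
(`w₀ ∈ T.sp 2 (n₀ + 1)`: `sp_mono`, `sp_of_SP`). The unit clause: `a = lc a₀` (`ga_mem_R`, `sgn a₀ = a₀` by `lc_inj`), `H.pdl l z = lc (T'.pl l (fldX ..))` (`ga_pdl`), `lc_unit ⟨even, _⟩` (`Sm`) for `k.Φ a₀ - T'.pl l (fldX ..)`: `bd (k.Φ a₀) = rename .. (bd a₀)` (`bd_mapL`) has no variable `ζ b`
(`MvPolynomial.vars_rename`), so `fldX_bd` applies; `pl l (fldX ..)` has even degree `g - 1 - ∑ dm l` (`Q = g - 1 - n₀`, `hQ` from `n₀ ≤ g - 1 - ∑`).
`IPos_KK`: `a ∈ I ∩ Hm g`, `a = lc a₀`, `a₀ ∈ SP (1 ≤ cW)` (`ga_mem_I`), `ga_hm`: `a₀ = 0` or `a₀ ∈ hom n`, `n = g ≤ 0`, `n = 0`; `SP_pr`: words of degree `0` with a letter of `W`, but all degrees are positive, so `a₀ = 0`.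
-/

set_option autoImplicit false

namespace AnWL
open Anick2
variable {P : Par}

section

attribute [local irreducible] instRingLam

private theorem c05_deg (T : TS P) (l : List (T.ι ⊕ (P.U ⊕ P.M))) :
    2 * cW l ≤ degSum T.dt l := by
  induction l with
  | nil => exact Nat.zero_le _
  | cons x l ih =>
    rcases x with i | t
    · have h := T.S.two_le i
      have h2 : cW (Sum.inl i :: l) = cW l + 1 := rfl
      rw [h2, degSum_cons]
      have h1 : T.dt (Sum.inl i) = T.deg i := rfl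
      omega
    · have h2 : cW (Sum.inr t :: l) = cW l := rfl
      rw [h2, degSum_cons]
      omega

private theorem c05_ge (T : TS P) {k g : ℕ} {w : Lam T.dt} (hw0 : w ≠ 0) (hw : w ∈ hom T.dt g)
    (hκ : w ∈ SP T.dt (fun l => k ≤ cW l)) : 2 * k ≤ g := by
  by_contra hlt
  apply hw0
  have h1 : pr T.dt g w = w := by rw [pr_hom T.dt hw, if_pos rfl]
  rw [← h1]
  clear h1 hw hw0
  unfold SP at hκ
  induction hκ using Submodule.span_induction with
  | mem x hx =>
    obtain ⟨l, hl, rfl⟩ := hx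
    have h2 := c05_deg T l
    rw [pr_hom T.dt (mon_mem_hom T.dt l), if_neg]
    intro h3
    have hl' : k ≤ cW l := hl
    omega
  | zero => rw [map_zero]
  | add y z _ _ hy hz => rw [map_add, hy, hz, add_zero]
  | smul r y _ hy => rw [map_smul, hy, smul_zero]

end

private theorem c05_sum (l : List P.M) :
    (((l.map P.dm).sum : ℕ) : ℤ) = (l.map (fun j => (P.dm j : ℤ))).sum := by
  induction l with
  | nil => rfl
  | cons x l ih =>
    rw [List.map_cons, List.sum_cons, List.map_cons, List.sum_cons, Nat.cast_add, ih]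

private theorem c05_par (l : List P.M) : Even ((l.map P.dm).sum + l.length) := by
  induction l with
  | nil => exact ⟨0, rfl⟩
  | cons x l ih =>
    rw [List.map_cons, List.sum_cons, List.length_cons]
    have h1 : Even (P.dm x + 1) := (P.dm_odd x).add_one
    have h2 := h1.add ih
    have e : P.dm x + (l.map P.dm).sum + (l.length + 1) =
        P.dm x + 1 + ((l.map P.dm).sum + l.length) := by ring
    rw [e]
    exact h2

private theorem c05_hz (T : TS P) {g : ℤ} {a : Lam T.dt} (ha : a ∈ T.hz g) (l : List P.M) :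
    T.pl l a ∈ T.hz (g - ((l.map P.dm).sum : ℕ)) := by
  induction l with
  | nil =>
    change a ∈ T.hz (g - ((0 : ℕ) : ℤ))
    rw [Nat.cast_zero, sub_zero]
    exact ha
  | cons x l ih =>
    have h := hz_p T x ih
    have e : g - (((x :: l).map P.dm).sum : ℕ) = g - ((l.map P.dm).sum : ℕ) - P.dm x := by
      rw [List.map_cons, List.sum_cons, Nat.cast_add]
      ring
    rw [e]
    exact h

theorem EXTo_KK (T₀ : TS P) (n₀ : ℕ) (hn₀ : 2 ≤ n₀) (lab : ℕ → Lam T₀.dt)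
    (hlab : ∀ u, ∃ n, lab n = T₀.gU u) : EXTo (KK T₀ n₀ lab) (n₀ + 2) n₀ := by
  rintro G ⟨T, h, hdeg, rfl⟩ L g w hg hw hwI hDw hLw
  obtain ⟨w₀, hw₀, rfl⟩ := ga_mem_Ik T _ hwI
  by_cases hgn : g < (n₀ : ℤ) + 1
  · have hz : w₀ = 0 := by
      by_contra hne
      obtain ⟨n, hn, hwn⟩ := ((ga_hm T _).1 hw).resolve_left hne
      have h1 := c05_ge T hne hwn hw₀
      omega
    subst hz
    refine ⟨T.ga (fun n => h.Φ (lab n)), ⟨T, h, hdeg, rfl⟩, Mor.id _, 0, Subalgebra.zero_mem _,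
      Submodule.zero_mem _, Submodule.zero_mem _, ?_, ?_, ?_, ?_⟩
    · intro j _
      exact map_zero _
    · intro j _
      have e1 : (T.ga (fun n => h.Φ (lab n))).D 0 = 0 := map_zero _
      rw [e1, sub_zero]
      refine (ga_pd T _ j 0).trans ?_
      rw [map_zero]
      exact map_zero (lc T.dt)
    · intro l _ hne _ _ hn
      exfalso
      rw [← c05_sum] at hn
      have h1 : 1 ≤ (l.map P.dm).sum := by
        obtain ⟨x, l', rfl⟩ := List.exists_cons_of_ne_nil hne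
        rw [List.map_cons, List.sum_cons]
        have := (P.dm_odd x).pos
        omega
      omega
    · intro t ht
      exact Or.inl ⟨t, ht, rfl⟩
  rw [not_lt] at hgn
  obtain ⟨n, rfl⟩ : ∃ n : ℕ, (n : ℤ) = g := ⟨g.toNat, by omega⟩
  have hn1 : n₀ + 1 ≤ n := by omega
  have hwn : w₀ ∈ hom T.dt n := by
    rcases (ga_hm T _).1 hw with hz | ⟨n', hn', hwn'⟩
    · rw [hz]
      exact zero_mem _
    · have e : n' = n := by exact_mod_cast hn'
      rw [← e]
      exact hwn'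
  have hD0 : T.D w₀ = 0 := (ga_D_zero T _).1 hDw
  have hL0 : ∀ j, j ∉ L → T.p j w₀ = 0 := (ga_lv T _).1 hLw
  have hno : Odd n := (Int.odd_coe_nat n).1 hg
  obtain ⟨T', k, B, ζ, hinj, hζr, hζ, hζn, hζe, hDz⟩ :=
    exists_superfieldX T L n₀ hn₀ n hn1 w₀ hwn
      (sp_mono T (by omega) (by omega) (sp_of_SP T hw₀)) hD0 hL0
  obtain ⟨φ, hφ⟩ := exists_mor k (fun m => h.Φ (lab m))
  have elb : (fun m => (h.comp k).Φ (lab m)) = fun m => k.Φ (h.Φ (lab m)) :=
    funext fun m => comp_Φ h k (lab m)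
  have hK : T'.ga (fun m => k.Φ (h.Φ (lab m))) ∈ KK T₀ n₀ lab := by
    refine ⟨T', h.comp k, ?_, by rw [elb]⟩
    intro i hi
    rcases hζ i with ⟨i₀, rfl⟩ | ⟨b, rfl⟩
    · rw [k.deg]
      refine hdeg i₀ ?_
      rintro ⟨i₁, rfl⟩
      exact hi ⟨i₁, rfl⟩
    · exact hζn b
  refine ⟨T'.ga (fun m => k.Φ (h.Φ (lab m))), hK, φ, lc T'.dt (T'.fldX B ζ), ga_lc_R T' _ _,
    ga_lc_I T' _ (fldX_SP T' B ζ), ?_, ?_, ?_, ?_, ?_⟩
  · refine (ga_hm T' _).2 (Or.inr ⟨n - 1, by omega, fldX_hom T' B ζ n hζe⟩)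
  · exact (ga_lv T' _).2 (fldX_p T' B ζ)
  · have e : φ.f (lc T.dt w₀) - (T'.ga (fun m => k.Φ (h.Φ (lab m)))).D (lc T'.dt (T'.fldX B ζ)) =
        lc T'.dt (k.Φ w₀ - T'.D (T'.fldX B ζ)) := by
      rw [map_sub, ← hφ w₀]
      exact congrArg (fun x => φ.f (lc T.dt w₀) - x) (ga_D T' _ _)
    rw [e]
    exact (ga_lv T' _).2 fun j _ => hDz j
  · intro l hl hne hev hlL hn a ha hsa
    have := T.finT
    obtain ⟨a₀, rfl⟩ := ga_mem_R T _ ha
    have hs0 : sgn T.dt a₀ = a₀ := lc_inj ((ga_s T _ a₀).symm.trans hsa)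
    rw [ga_pdl, hφ]
    rw [← c05_sum] at hn
    have e : lc T'.dt (k.Φ a₀) - lc T'.dt (T'.pl l (T'.fldX B ζ)) =
        lc T'.dt (k.Φ a₀ - T'.pl l (T'.fldX B ζ)) := (map_sub (lc T'.dt) _ _).symm
    refine Eq.subst (motive := fun x => IsUnit x) e.symm (lc_unit ⟨?_, ?_⟩)
    · have h4 : sgn T'.dt (T'.pl l (T'.fldX B ζ)) = T'.pl l (T'.fldX B ζ) := by
        refine hz_sgn_even T' ?_ (c05_hz T' (hz_of_hom T' (fldX_hom T' B ζ n hζe)) l)
        have h1 : Even (l.map P.dm).sum := by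
          have h2 := c05_par l
          rw [Nat.even_add] at h2
          exact h2.2 hev
        have h3 : Even (n - 1) := Nat.Odd.sub_odd hno odd_one
        exact ((Int.even_coe_nat _).2 h3).sub ((Int.even_coe_nat _).2 h1)
      rw [map_sub, Φ_sgn, hs0, h4]
    · intro h5
      rw [map_sub, sub_eq_zero] at h5
      refine fldX_bd T' B ζ hinj n hno hζe l hl hne hev hlL (by omega) (bd T'.dt (k.Φ a₀)) ?_
        h5.symm
      intro b hb
      have e6 : bd T'.dt (k.Φ a₀) = MvPolynomial.rename (Sum.map k.f id) (bd T.dt a₀) :=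
        bd_mapL (Sum.map k.f id) (by rintro (i | t); exacts [k.deg i, rfl]) a₀
      rw [e6] at hb
      classical
      obtain ⟨x, -, hx⟩ := Finset.mem_image.1 (MvPolynomial.vars_rename _ _ hb)
      rcases x with x | x
      · exact hζr b ⟨x, Sum.inl_injective hx⟩
      · exact Sum.inr_ne_inl hx
  · rintro t ⟨i, rfl⟩
    rcases hζ i with ⟨i₀, rfl⟩ | ⟨b, rfl⟩
    · left
      refine ⟨lc T.dt (T.gW i₀), ⟨i₀, rfl⟩, ?_⟩
      rw [← Φ_gW]
      exact hφ _
    · right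
      rintro H' ⟨T'', h'', hdeg'', rfl⟩ ψ hψ
      obtain ⟨ψ₀, h0, hD', hp', hX', hlab', f, hf⟩ := Mor_lin ψ
      have hU : ∀ u, ψ₀ (T'.gU u) = T''.gU u := by
        intro u
        obtain ⟨m, hm⟩ := hlab u
        have e := hlab' m
        rw [hm] at e
        have e1 : k.Φ (h.Φ (T₀.gU u)) = T'.gU u := by
          rw [Φ_inr, Φ_inr]
        have e2 : h''.Φ (T₀.gU u) = T''.gU u := Φ_inr h'' (Sum.inl u)
        rw [e1, e2] at e
        exact e
      have hfld : ψ₀ (T'.fldX B ζ) = T''.fldX B (fun b => f (ζ b)) :=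
        fldX_map ψ₀ f (fun i => (hf i).1) hU hX' B ζ
      have hpl : ∀ (l : List P.M) (a : Lam T'.dt), T''.pl l (ψ₀ a) = ψ₀ (T'.pl l a) := by
        intro l
        induction l with
        | nil => intro a; rfl
        | cons x l ih =>
          intro a
          change T''.p x (T''.pl l (ψ₀ a)) = ψ₀ (T'.p x (T'.pl l a))
          rw [ih, hp']
      have hnl := nl_of_fldX T'' B (fun b => f (ζ b)) n hno
        (fun b => by rw [(hf (ζ b)).2]; exact hζe b)
        (fun l hl1 hl2 hl3 hl4 => by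
          have e := hψ l hl1 hl2 hl3 hl4
          rw [ga_pdl] at e
          rw [← hfld, hpl]
          refine (ga_Nl T'' (fun m => h''.Φ (lab m))).1 ?_
          rw [h0]
          exact e) b
      have e := (ga_Nl T'' (fun m => h''.Φ (lab m))).2 hnl
      rw [← (hf (ζ b)).1, h0] at e
      exact e

theorem IPos_KK (T₀ : TS P) (n₀ : ℕ) (lab : ℕ → Lam T₀.dt) : IPos (KK T₀ n₀ lab) := by
  rintro G ⟨T, h, hdeg, rfl⟩ g a ha hg hg0
  obtain ⟨a₀, ha₀, rfl⟩ := ga_mem_I T _ ha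
  have hz : a₀ = 0 := by
    by_contra hne
    obtain ⟨n, hn, han⟩ := ((ga_hm T _).1 hg).resolve_left hne
    have h1 := c05_ge T hne han ha₀
    omega
  rw [hz]
  exact map_zero _

end AnWL
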