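import Pool.Agent.Helper48.G2.BasM
import Pool.Agent.Helper84.G2.Fld

/-!
G2-C03. Superfields without body component: `z = ∑ ζ_b ω_b` over the monomials `ω_b` which contain a letter `X`.

`exists_superfieldX`: as `exists_superfield2` in `Helper84/G2/Fld.lean` (copy the private lemmas): `exists_BasM`, `exists_c`, `Bas_expand2` (`k = 2`, `m = n₀ + 1`), `closed_coeff`, and `exists_matExt` (`C06c.lean`) for the
index set `{b // B.px b}` with the restrictions of `e`, `c`, `G`. Its hypothesis `hflat` for `b b' : {b // px b}`: `hc.flat b b'` has the sum over all `a : B.B`; the terms with `¬ px a` vanish since `c a b' = 0` (`Mtx_px`);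
`hGc` from `closed_coeff` in the same way. `ζ = Sum.inr`, `h = T.extendHom ..`. With `z = fldX`: `D z = ∑_b (D ζ_b) ω_b + ∑_b (sgn ζ_b) D ω_b`, `D ω_b = ∑_{b'} c_{b b'} ω_{b'}` over all `b'`, so
`h.Φ w - D z = ∑_{¬ px b'} (G_{b'} - ∑_b sgn ζ_b c_{b b'}) ω_{b'}`, and `T'.p j (iR (ω b')) = 0` for `¬ px b'` (`pdv_zero_of_SP`).
-/

set_option autoImplicit false

namespace AnWL
open Anick2
variable {P : Par}

/-- The superfield without body component. -/
noncomputable def TS.fldX (T : TS P) {L : Finset P.M} {Q : ℕ} (B : BasM P L Q)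
    (i : {b : B.B // B.px b} → T.ι) : Lam T.dt := by
  classical
  haveI : Fintype {b : B.B // B.px b} := Fintype.ofFinite _
  exact ∑ b, T.gW (i b) * iR T.deg P.dq (B.ω b.1)

private theorem fx_def (T : TS P) {L : Finset P.M} {Q : ℕ} (B : BasM P L Q)
    [F : Fintype {b : B.B // B.px b}] (i : {b : B.B // B.px b} → T.ι) :
    T.fldX B i = ∑ b, T.gW (i b) * iR T.deg P.dq (B.ω b.1) := by
  obtain rfl : F = Fintype.ofFinite _ := Subsingleton.elim _ _
  rfl

private theorem fx_sum {β V : Type} [Fintype β] [AddCommGroup V] [Module ℚ V] (p : β → Prop)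
    [Fintype {b // p b}] (f : β → V) (K : Submodule ℚ V) (hK : ∀ b, ¬ p b → f b ∈ K) :
    ∑ b, f b - ∑ b : {b // p b}, f b.1 ∈ K := by
  classical
  have h1 : ∑ b : {b // p b}, f b.1 = ∑ b ∈ Finset.univ.filter p, f b :=
    (Finset.sum_subtype _ (by simp) f).symm
  rw [h1, ← Finset.sum_filter_add_sum_filter_not Finset.univ p f, add_sub_cancel_left]
  exact Submodule.sum_mem _ fun b hb => hK b (Finset.mem_filter.1 hb).2

private theorem fx_sum0 {β V : Type} [Fintype β] [AddCommMonoid V] (p : β → Prop)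
    [Fintype {b // p b}] (f : β → V) (hK : ∀ b, ¬ p b → f b = 0) :
    ∑ b : {b // p b}, f b.1 = ∑ b, f b := by
  classical
  have h1 : ∑ b : {b // p b}, f b.1 = ∑ b ∈ Finset.univ.filter p, f b :=
    (Finset.sum_subtype _ (by simp) f).symm
  rw [h1]
  refine Finset.sum_filter_of_ne fun b _ hb => ?_
  by_contra h
  exact hb (hK b h)

section

attribute [local irreducible] instRingLam

private theorem fx_iR {T T' : TS P} (h : T.Hom T') (a : Lam P.dq) :
    h.Φ (iR T.deg P.dq a) = iR T'.deg P.dq a := by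
  have : (h.Φ).comp (iR T.deg P.dq) = iR T'.deg P.dq := by
    refine Lam.algHom_ext _ fun t => ?_
    have e1 : iR T.deg P.dq (gen P.dq t) = gen T.dt (Sum.inr t) := mapL_gen (fun _ => rfl) t
    have e2 : iR T'.deg P.dq (gen P.dq t) = gen T'.dt (Sum.inr t) := mapL_gen (fun _ => rfl) t
    rw [AlgHom.comp_apply, e1, e2, Φ_inr]
  exact congrArg (fun g : Lam P.dq →ₐ[ℚ] Lam T'.dt => g a) this

private theorem fx_iL {T T' : TS P} (h : T.Hom T') (j : Lam T.deg →ₐ[ℚ] Lam T'.deg)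
    (hj : ∀ i, j (gen T.deg i) = gen T'.deg (h.f i)) (a : Lam T.deg) :
    h.Φ (iL T.deg P.dq a) = iL T'.deg P.dq (j a) := by
  have : (h.Φ).comp (iL T.deg P.dq) = (iL T'.deg P.dq).comp j := by
    refine Lam.algHom_ext _ fun i => ?_
    have e1 : iL T.deg P.dq (gen T.deg i) = T.gW i := mapL_gen (fun _ => rfl) i
    have e3 : iL T'.deg P.dq (gen T'.deg (h.f i)) = T'.gW (h.f i) :=
      mapL_gen (fun _ => rfl) (h.f i)
    rw [AlgHom.comp_apply, AlgHom.comp_apply, e1, hj, e3, Φ_gW]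
  exact congrArg (fun g : Lam T.deg →ₐ[ℚ] Lam T'.dt => g a) this

private theorem fx_calc {T T' : TS P} (h : T.Hom T') (j : Lam T.deg →ₐ[ℚ] Lam T'.deg)
    (hj : ∀ x, h.Φ (iL T.deg P.dq x) = iL T'.deg P.dq (j x)) {L : Finset P.M} {Q : ℕ}
    (B : BasM P L Q) [Fintype {b : B.B // B.px b}] (ζ : {b : B.B // B.px b} → T'.ι)
    (c : B.B → B.B → Lam T.deg) (G : B.B → Lam T.deg)
    (hc : ∀ b, T.D (iR T.deg P.dq (B.ω b)) =
      ∑ b', iL T.deg P.dq (c b b') * iR T.deg P.dq (B.ω b'))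
    (hz : ∀ b, T'.S.d (gen T'.deg (ζ b)) =
      j (G b.1) - ∑ a, sgn T'.deg (gen T'.deg (ζ a)) * j (c a.1 b.1))
    (K : Submodule ℚ (Lam T'.dt))
    (hK : ∀ (x : Lam T'.deg) (b : B.B), ¬ B.px b →
      iL T'.deg P.dq x * iR T'.deg P.dq (B.ω b) ∈ K) :
    h.Φ (∑ b, iL T.deg P.dq (G b) * iR T.deg P.dq (B.ω b)) - T'.D (T'.fldX B ζ) ∈ K := by
  have hg : ∀ b, iL T'.deg P.dq (gen T'.deg (ζ b)) = T'.gW (ζ b) := fun b =>
    mapL_gen (fun _ => rfl) (ζ b)
  have hs : ∀ b, iL T'.deg P.dq (sgn T'.deg (gen T'.deg (ζ b))) = sgn T'.dt (T'.gW (ζ b)) := by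
    intro b
    rw [← hg b]
    exact mapL_sgn (fun _ => rfl) _
  -- the terms
  obtain ⟨A, hA⟩ : ∃ A : B.B → Lam T'.dt, ∀ b, A b =
      iL T'.deg P.dq (j (G b)) * iR T'.deg P.dq (B.ω b) := ⟨_, fun _ => rfl⟩
  obtain ⟨Mt, hM⟩ : ∃ Mt : {b : B.B // B.px b} → B.B → Lam T'.dt, ∀ a b, Mt a b =
      iL T'.deg P.dq (sgn T'.deg (gen T'.deg (ζ a)) * j (c a.1 b)) *
        iR T'.deg P.dq (B.ω b) := ⟨_, fun _ _ => rfl⟩
  have h1 : ∀ b : {b : B.B // B.px b}, T'.D (T'.gW (ζ b)) * iR T'.deg P.dq (B.ω b.1) =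
      A b.1 - ∑ a, Mt a b.1 := by
    intro b
    rw [← hg b, T'.ext, hz b, map_sub, map_sum, sub_mul, Finset.sum_mul, hA]
    congr 1
    exact Finset.sum_congr rfl fun a _ => (hM a b.1).symm
  have h2 : ∀ b : {b : B.B // B.px b}, sgn T'.dt (T'.gW (ζ b)) *
      T'.D (iR T'.deg P.dq (B.ω b.1)) = ∑ b', Mt b b' := by
    intro b
    rw [← fx_iR h, Φ_D, hc b.1, map_sum, Finset.mul_sum]
    refine Finset.sum_congr rfl fun b' _ => ?_
    rw [map_mul, hj, fx_iR, hM, map_mul, hs, mul_assoc]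
  have h3 : h.Φ (∑ b, iL T.deg P.dq (G b) * iR T.deg P.dq (B.ω b)) = ∑ b, A b := by
    rw [map_sum]
    refine Finset.sum_congr rfl fun b _ => ?_
    rw [map_mul, hj, fx_iR, hA]
  have h4 : T'.D (T'.fldX B ζ) = ∑ b, (T'.D (T'.gW (ζ b)) * iR T'.deg P.dq (B.ω b.1) +
      sgn T'.dt (T'.gW (ζ b)) * T'.D (iR T'.deg P.dq (B.ω b.1))) := by
    rw [fx_def, map_sum]
    exact Finset.sum_congr rfl fun b _ => T'.leib _ _
  have h5 : T'.D (T'.fldX B ζ) = (∑ b : {b : B.B // B.px b}, A b.1) +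
      ∑ a, (∑ b', Mt a b' - ∑ b : {b : B.B // B.px b}, Mt a b.1) := by
    rw [h4, Finset.sum_congr rfl (fun b _ => congrArg₂ (· + ·) (h1 b) (h2 b)),
      Finset.sum_add_distrib, Finset.sum_sub_distrib, Finset.sum_sub_distrib,
      Finset.sum_comm (s := Finset.univ) (t := Finset.univ) (f := fun a (b : {b : B.B // B.px b}) => Mt a b.1)]
    abel
  rw [h3, h5, ← sub_sub]
  refine sub_mem ?_ (Submodule.sum_mem _ fun a _ => ?_)
  · refine fx_sum B.px A K fun b hb => ?_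
    rw [hA]
    exact hK _ b hb
  · refine fx_sum B.px (Mt a) K fun b hb => ?_
    rw [hM]
    exact hK _ b hb

end

private theorem fx_pK (T : TS P) {L : Finset P.M} {Q : ℕ} (B : BasM P L Q) (j : P.M)
    (x : Lam T.deg) {b : B.B} (hb : ¬ B.px b) :
    T.p j (iL T.deg P.dq x * iR T.deg P.dq (B.ω b)) = 0 := by
  have h1 : T.p j (iL T.deg P.dq x) = 0 := by
    refine pdv_zero_of_SP (T.odd j) ?_
    induction x using Lam.induction with
    | hm l =>
      have h3 : iL T.deg P.dq (mon T.deg l) = mon T.dt (l.map Sum.inl) :=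
        mapL_mon (fun _ => rfl) l
      rw [h3]
      refine Submodule.subset_span ⟨_, ?_, rfl⟩
      intro h4
      obtain ⟨t, -, ht'⟩ := List.mem_map.1 h4
      exact Sum.inl_ne_inr ht'
    | h0 => rw [map_zero]; exact zero_mem _
    | hadd a b ha hb => rw [map_add]; exact add_mem ha hb
    | hsmul r a ha => rw [map_smul]; exact Submodule.smul_mem _ _ ha
  have h2 : T.p j (iR T.deg P.dq (B.ω b)) = 0 := by
    refine pdv_zero_of_SP (T.odd j) ?_
    have h3 : iR T.deg P.dq (mon P.dq (B.wd b)) = mon T.dt ((B.wd b).map Sum.inr) :=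
      mapL_mon (fun _ => rfl) _
    rw [B.ω_eq, h3]
    refine Submodule.subset_span ⟨_, ?_, rfl⟩
    intro h4
    obtain ⟨t, ht, ht'⟩ := List.mem_map.1 h4
    have h5 : t = Sum.inr j := Sum.inr_injective ht'
    rw [h5] at ht
    exact hb ⟨j, ht⟩
  have h3 : T.p j (iL T.deg P.dq x * iR T.deg P.dq (B.ω b)) =
      T.p j (iL T.deg P.dq x) * iR T.deg P.dq (B.ω b) +
        sgn T.dt (iL T.deg P.dq x) * T.p j (iR T.deg P.dq (B.ω b)) := pdv_mul (T.odd j) _ _
  rw [h3, h1, h2, zero_mul, mul_zero, add_zero]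

theorem exists_superfieldX (T : TS P) (L : Finset P.M) (n₀ : ℕ) (hn₀ : 2 ≤ n₀) (g : ℕ)
    (hg : n₀ + 1 ≤ g) (w : Lam T.dt) (hw : w ∈ hom T.dt g)
    (hκ : w ∈ T.sp 2 (n₀ + 1)) (hD : T.D w = 0)
    (hL : ∀ j, j ∉ L → T.p j w = 0) :
    ∃ (T' : TS P) (h : T.Hom T') (B : BasM P L (g - 1 - n₀)) (ζ : {b : B.B // B.px b} → T'.ι),
      Function.Injective ζ ∧ (∀ b, ζ b ∉ Set.range h.f) ∧
      (∀ i, i ∈ Set.range h.f ∨ ∃ b, i = ζ b) ∧ (∀ b, n₀ ≤ T'.deg (ζ b)) ∧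
      (∀ b, T'.deg (ζ b) + B.e b.1 + 1 = g) ∧
      ∀ j, T'.p j (h.Φ w - T'.D (T'.fldX B ζ)) = 0 := by
  classical
  obtain ⟨B⟩ := exists_BasM P L (g - 1 - n₀)
  let _ : Fintype {b : B.B // B.px b} := Fintype.ofFinite _
  obtain ⟨c, hc⟩ := exists_c T B.toBas
  obtain ⟨G, hG1, hG2, hG3⟩ :=
    Bas_expand2 T B.toBas (n := g) (k := 2) (m := n₀ + 1) (by omega) hw hκ hL
  have hGc := closed_coeff T B.toBas hc G (by rw [← hG3]; exact hD)
  have hle : ∀ b, B.e b + 1 + n₀ ≤ g := fun b => by have := B.le b; omega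
  have := T.fin
  have hsum : ∀ (x : B.B → Lam T.deg) (b : {b : B.B // B.px b}),
      ∑ a : {b : B.B // B.px b}, x a.1 * c a.1 b.1 = ∑ a, x a * c a b.1 := by
    intro x b
    refine fx_sum0 B.px (fun a => x a * c a b.1) fun a ha => ?_
    show x a * c a b.1 = 0
    rw [Mtx_px T B hc ha b.2, mul_zero]
  obtain ⟨S', hS1, hS2⟩ := exists_matExt T.S (fun b : {b : B.B // B.px b} => B.e b.1) g
    (fun b => by have := hle b.1; omega) (fun b b' => c b.1 b'.1)
    (fun b b' => hc.deg b.1 b'.1) (fun b b' => hc.mem b.1 b'.1)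
    (fun b b' => by
      rw [hsum (fun a => sgn T.deg (c b.1 a)) b']
      exact hc.flat b.1 b'.1)
    (fun b => G b.1) (fun b => hG2 b.1) (fun b => hG1 b.1)
    (fun b => by
      rw [hsum (fun a => sgn T.deg (G a)) b]
      exact hGc b.1)
  refine ⟨T.extend (fun b : {b : B.B // B.px b} => g - 1 - B.e b.1) S' hS1,
    T.extendHom (fun b : {b : B.B // B.px b} => g - 1 - B.e b.1) S' hS1, B, Sum.inr,
    Sum.inr_injective, ?_, ?_, ?_, ?_, ?_⟩
  · rintro b ⟨i, hi⟩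
    exact Sum.inl_ne_inr hi
  · rintro (i | b)
    · exact Or.inl ⟨i, rfl⟩
    · exact Or.inr ⟨b, rfl⟩
  · intro b
    show n₀ ≤ g - 1 - B.e b.1
    have := hle b.1
    omega
  · intro b
    show g - 1 - B.e b.1 + B.e b.1 + 1 = g
    have := hle b.1
    omega
  · intro j
    have key := fx_calc (T.extendHom (fun b : {b : B.B // B.px b} => g - 1 - B.e b.1) S' hS1)
      (iL T.deg (fun b : {b : B.B // B.px b} => g - 1 - B.e b.1))
      (fx_iL (T.extendHom (fun b : {b : B.B // B.px b} => g - 1 - B.e b.1) S' hS1)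
        (iL T.deg (fun b : {b : B.B // B.px b} => g - 1 - B.e b.1))
        (fun i => mapL_gen (fun _ => rfl) i))
      B Sum.inr c G hc.eq hS2
      (LinearMap.ker ((T.extend (fun b : {b : B.B // B.px b} => g - 1 - B.e b.1) S' hS1).p j))
      (fun x b hb => LinearMap.mem_ker.2 (fx_pK _ B j x hb))
    rw [← hG3] at key
    exact LinearMap.mem_ker.1 key

theorem fldX_hom (T : TS P) {L : Finset P.M} {Q : ℕ} (B : BasM P L Q)
    (i : {b : B.B // B.px b} → T.ι) (g : ℕ) (hi : ∀ b, T.deg (i b) + B.e b.1 + 1 = g) :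
    T.fldX B i ∈ hom T.dt (g - 1) := by
  unfold TS.fldX
  refine Submodule.sum_mem _ fun b _ => ?_
  have h1 : T.gW (i b) ∈ hom T.dt (T.deg (i b)) := gen_mem_hom T.dt (Sum.inl (i b))
  have h2 : iR T.deg P.dq (B.ω b.1) ∈ hom T.dt (B.e b.1) :=
    mapL_hom (fun _ => rfl) (homS_le P.dq _ _ (B.mem b.1))
  have h3 := mul_mem_hom T.dt h1 h2
  have h4 : T.deg (i b) + B.e b.1 = g - 1 := by have := hi b; omega
  rw [h4] at h3
  exact h3

theorem fldX_SP (T : TS P) {L : Finset P.M} {Q : ℕ} (B : BasM P L Q)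
    (i : {b : B.B // B.px b} → T.ι) : T.fldX B i ∈ SP T.dt (fun l => 1 ≤ cW l) := by
  unfold TS.fldX
  refine Submodule.sum_mem _ fun b _ => ?_
  have h1 : T.gW (i b) ∈ SP T.dt (fun l => 1 ≤ cW l) :=
    Submodule.subset_span ⟨[Sum.inl (i b)], le_refl _, by rw [mon_cons, mon_nil, mul_one]⟩
  exact SP_mul_left (k := 1) (m := 0) h1 (SP_zero_top T.dt _)

theorem fldX_p (T : TS P) {L : Finset P.M} {Q : ℕ} (B : BasM P L Q)
    (i : {b : B.B // B.px b} → T.ι) (j : P.M) (hj : j ∉ L) : T.p j (T.fldX B i) = 0 := by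
  unfold TS.fldX
  rw [map_sum]
  refine Finset.sum_eq_zero fun b _ => ?_
  have h1 : T.p j (T.gW (i b)) = 0 := pdv_gen_ne (T.odd j) (by simp)
  have h2 : T.p j (iR T.deg P.dq (B.ω b.1)) = 0 := by
    refine pdv_zero_of_SP (T.odd j) ?_
    have h3 : iR T.deg P.dq (mon P.dq (B.wd b.1)) = mon T.dt ((B.wd b.1).map Sum.inr) :=
      mapL_mon (fun _ => rfl) _
    rw [B.ω_eq, h3]
    refine Submodule.subset_span ⟨_, ?_, rfl⟩
    intro h4
    obtain ⟨t, ht, ht'⟩ := List.mem_map.1 h4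
    have h5 : t = Sum.inr j := Sum.inr_injective ht'
    exact hj (B.wd_mem b.1 t ht j h5)
  have h3 : T.p j (T.gW (i b) * iR T.deg P.dq (B.ω b.1)) =
      T.p j (T.gW (i b)) * iR T.deg P.dq (B.ω b.1) +
        sgn T.dt (T.gW (i b)) * T.p j (iR T.deg P.dq (B.ω b.1)) := pdv_mul (T.odd j) _ _
  rw [h3, h1, h2, zero_mul, mul_zero, add_zero]

/-- Image under a map which sends letters to letters and fixes the `u`, `X`. -/
theorem fldX_map {T T' : TS P} (ψ : Lam T.dt →ₐ[ℚ] Lam T'.dt) (f : T.ι → T'.ι)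
    (h1 : ∀ i, ψ (T.gW i) = T'.gW (f i)) (h2 : ∀ u, ψ (T.gU u) = T'.gU u)
    (h3 : ∀ j, ψ (T.gX j) = T'.gX j) {L : Finset P.M} {Q : ℕ} (B : BasM P L Q)
    (i : {b : B.B // B.px b} → T.ι) : ψ (T.fldX B i) = T'.fldX B (fun b => f (i b)) := by
  have h4 : ψ.comp (iR T.deg P.dq) = iR T'.deg P.dq := by
    refine Lam.algHom_ext _ fun t => ?_
    have e1 : iR T.deg P.dq (gen P.dq t) = gen T.dt (Sum.inr t) := mapL_gen (fun _ => rfl) t
    have e2 : iR T'.deg P.dq (gen P.dq t) = gen T'.dt (Sum.inr t) := mapL_gen (fun _ => rfl) t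
    rw [AlgHom.comp_apply, e1, e2]
    rcases t with u | j
    · exact h2 u
    · exact h3 j
  have h5 : ∀ a, ψ (iR T.deg P.dq a) = iR T'.deg P.dq a := fun a =>
    congrArg (fun g : Lam P.dq →ₐ[ℚ] Lam T'.dt => g a) h4
  unfold TS.fldX
  rw [map_sum]
  refine Finset.sum_congr rfl fun b _ => ?_
  rw [map_mul, h1, h5]

end AnWL
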