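import Pool.Agent.Helper48.G2.Sh
import Pool.Agent.Helper48.G2.Desc
import Pool.Agent.Helper48.WL.C07a
import Pool.Agent.Helper84.G2.One

/-!
G2-C10. `OneCol P` from `ColK` for the classes `KK`.

Given the data of `OneCol`: `ϑ' i = if T.p i q = 0 then 0 else ϑ i`, `ρ i = -ϑ' i`: `ρ i = 0` or `-gX j` with `dm j = dx - dm i` (both sides of `T.D (gX j) = T.p i q ≠ 0` are homogeneous), so `ρ i ∈ hz (dx - dm i)`, `D ρ_i + p_i q = 0`, `p_s ρ_t` is `0` or `-1`.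
`G a j = 0` for `j ≥ n` (`hz_neg`; `n` common for all `a ∈ E`, e.g. `n` with `g a < n * dx`). `T₁ = T.lam dx`, `lab` a labelling of all the letters of `T₁` (as in `C07a.lean`), `K = KK T₁ n₀ lab`, `G₁ = T₁.ga (fun m => (TS.Hom.id T₁).Φ (lab m)) ∈ K`, `Q = lc (inc q)`, `F a = shS T .. (G a) n`.
Hypotheses of `ColK`: `sh_zero`, `sh_SP` (`ga_lc_I`), `sh_hz` (`ga_hm`, `hz_iff`), `sh_D` (`ga_D`), and for an even word `wd_shS`, `wdG_zero`, `wdG_sgn`, `shS_dich`. Result: `H = T'.ga (fun m => h.Φ (lab m))`, `φ` with `φ.f ∘ lc = lc ∘ h.Φ` (`key` in `C07a.lean`), `h : T₁.Hom T'`.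
`exists_dsc T dx .. 0 .. T' h`: `D`. `T'' = D.T''`, `D.k : T.Hom T''`. New letters of `D.k`: `em.f i ∉ range h.f` (`em_k`, `bij`), so degree `≥ n₀` and killed in `T'` (as in `C07a.lean`), `em.Φ (gW i) = gW (em.f i)` (`E_gW`), `D.nl`.
`D.k.Φ (G a 0) ∈ T''.nl`: for a point `θ : Lam T''.dt → K` let `θ' = (map θ) ∘ D.τ : Lam T'.dt → K[X]` (`Polynomial.mapAlgHom`, restricted to `ℚ`); it is a point (`τ_D` with `g = 0`). `h.Φ (sh (G a) n 0) ∈ T'.nl`, `τ (h.Φ (sh (G a) n 0)) = ∑_{j < n} X^j * C (D.k.Φ (G a j))`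
(`em_Φ`, `τ_em`, `τ_x`; `h.Φ xb = gU none` by `Φ_inr`), the coefficient at `X^0` of `θ' (..) = 0` is `θ (D.k.Φ (G a 0)) = 0` (if `n = 0` then `G a 0 = 0`).
-/

set_option autoImplicit false

namespace AnWL
open Anick2

private theorem g10_lab {P : Par} (T₀ : TS P) :
    ∃ lab : ℕ → Lam T₀.dt, ∀ t, ∃ m, lab m = gen T₀.dt t := by
  classical
  have hfin : Finite (T₀.ι ⊕ (P.U ⊕ P.M)) := T₀.finT
  obtain ⟨k, ⟨e⟩⟩ := Finite.exists_equiv_fin (T₀.ι ⊕ (P.U ⊕ P.M))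
  refine ⟨fun m => if h : m < k then gen T₀.dt (e.symm ⟨m, h⟩) else 0, fun t => ⟨(e t : ℕ), ?_⟩⟩
  have h1 : ((e t : Fin k) : ℕ) < k := (e t).2
  simp only [h1, dif_pos]
  congr 1
  exact e.symm_apply_apply t

private theorem g10_key {P : Par} (T₀ T : TS P) (h : T₀.Hom T) (lab : ℕ → Lam T₀.dt)
    (hlab : ∀ t, ∃ m, lab m = gen T₀.dt t)
    (φ : Mor (T₀.ga (fun m => (TS.Hom.id T₀).Φ (lab m))) (T.ga (fun m => h.Φ (lab m))))
    (b : Lam T₀.dt) : φ.f (lc T₀.dt b) = lc T.dt (h.Φ b) := by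
  have e1 : (φ.f : Lc T₀.dt →ₐ[ℚ] Lc T.dt).comp (lc T₀.dt) = (lc T.dt).comp h.Φ := by
    refine Lam.algHom_ext _ fun t => ?_
    obtain ⟨m, hm⟩ := hlab t
    have e2 := φ.Lab m
    have e3 : (T₀.ga (fun m => (TS.Hom.id T₀).Φ (lab m))).Lab m = lc T₀.dt (gen T₀.dt t) := by
      change lc T₀.dt ((TS.Hom.id T₀).Φ (lab m)) = _
      rw [id_Φ, hm]
    have e4 : (T.ga (fun m => h.Φ (lab m))).Lab m = lc T.dt (h.Φ (gen T₀.dt t)) := by
      change lc T.dt (h.Φ (lab m)) = _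
      rw [hm]
    rw [e3, e4] at e2
    exact e2
  exact DFunLike.congr_fun e1 b

private theorem g10_fin {P : Par} (T₀ : TS P) (n₀ : ℕ) (lab : ℕ → Lam T₀.dt)
    (hlab : ∀ t, ∃ m, lab m = gen T₀.dt t) {β : Type} (E : Finset β) (x : β → Lc T₀.dt)
    (y : β → Lam T₀.dt) (hxy : ∀ a ∈ E, x a = lc T₀.dt (y a))
    (hH : ∃ H ∈ KK T₀ n₀ lab, ∃ φ : Mor (T₀.ga (fun m => (TS.Hom.id T₀).Φ (lab m))) H,
      φ.Tame ∧ ∀ a ∈ E, φ.f (x a) ∈ H.Nl) :
    ∃ (T : TS P) (h : T₀.Hom T), (∀ i, i ∉ Set.range h.f → n₀ ≤ T.deg i ∧ T.gW i ∈ T.nl) ∧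
      ∀ a ∈ E, h.Φ (y a) ∈ T.nl := by
  obtain ⟨H, hH, φ, hφ, hk⟩ := hH
  obtain ⟨T, h, hdeg, rfl⟩ := hH
  have key := g10_key T₀ T h lab hlab φ
  refine ⟨T, h, ?_, ?_⟩
  · intro i hi
    refine ⟨hdeg i hi, ?_⟩
    refine (ga_Nl T (fun m => h.Φ (lab m))).1 ?_
    rcases hφ (lc T.dt (T.gW i)) ⟨i, rfl⟩ with ⟨g, ⟨i₀, hg⟩, hgi⟩ | h1
    · exfalso
      rw [hg] at hgi
      have h2 : lc T.dt (h.Φ (T₀.gW i₀)) = lc T.dt (T.gW i) := (key (T₀.gW i₀)).symm.trans hgi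
      have := T.finT
      have h3 := lc_inj h2
      rw [Φ_gW] at h3
      have h4 := gen_inj h3
      exact hi ⟨i₀, Sum.inl_injective h4⟩
    · exact h1
  · intro a ha
    refine (ga_Nl T (fun m => h.Φ (lab m))).1 ?_
    have h1 := hk a ha
    have h2 := key (y a)
    rw [hxy a ha] at h1
    rw [← h2]
    exact h1

private theorem g10_inc_hz {P : Par} (T : TS P) (e : ℕ) (he : Even e) (h2 : 2 ≤ e) {g : ℤ}
    {a : Lam T.dt} (ha : a ∈ T.hz g) : inc T e he h2 a ∈ (T.lam e he h2).hz g := by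
  rcases (hz_iff T).1 ha with h | ⟨n, rfl, h⟩
  · rw [h, map_zero]; exact zero_mem _
  · exact hz_of_hom (T.lam e he h2) (inc_hom T e he h2 h)

private theorem g10_hm {P : Par} (T : TS P) (lab : ℕ → Lam T.dt) {g : ℤ} {a : Lam T.dt}
    (ha : a ∈ T.hz g) : lc T.dt a ∈ (T.ga lab).Hm g := (ga_hm T lab).2 ((hz_iff T).1 ha)

private theorem g10_hz_inj {P : Par} (T : TS P) {a b : ℤ} {x : Lam T.dt} (hx : x ≠ 0)
    (ha : x ∈ T.hz a) (hb : x ∈ T.hz b) : a = b := by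
  rw [hz_def] at ha hb
  have h2 : ((2 : ℚ) ^ a - (2 : ℚ) ^ b) • x = 0 := by
    have h2' : ((2 : ℚ) ^ a - (2 : ℚ) ^ b) • x + (2 : ℚ) ^ b • x = (2 : ℚ) ^ b • x := by
      rw [← add_smul, sub_add_cancel, ← ha, ← hb]
    exact add_eq_right.1 h2'
  have h3 := (smul_eq_zero.1 h2).resolve_right hx
  exact zpow_right_injective₀ (by norm_num : (0 : ℚ) < 2) (by norm_num) (sub_eq_zero.1 h3)

private theorem g10_hz_neg {P : Par} (T : TS P) {a : ℤ} {x : Lam T.dt} (ha : x ∈ T.hz a) :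
    -x ∈ T.hz a := by
  rw [hz_def] at ha ⊢
  rw [map_neg, ha, Algebra.smul_def, Algebra.smul_def, mul_neg]

private theorem g10_rho {P : Par} (T : TS P) (dx : ℕ) (q : Lam T.dt) (ϑ : P.M → Lam T.dt)
    (hq : q ∈ T.hz (dx + 1)) (hϑ : ∀ i, ϑ i = 0 ∨ ∃ j, ϑ i = T.gX j)
    (hϑD : ∀ i, T.D (ϑ i) = T.p i q) :
    ∃ ρ : P.M → Lam T.dt, (∀ i, ρ i = 0 ∨ ∃ j, ρ i = -T.gX j) ∧
      (∀ i, ρ i ∈ T.hz (dx - P.dm i)) ∧ ∀ i, T.D (ρ i) + T.p i q = 0 := by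
  have key : ∀ i, ∃ r : Lam T.dt, (r = 0 ∨ ∃ j, r = -T.gX j) ∧
      r ∈ T.hz (dx - P.dm i) ∧ T.D r + T.p i q = 0 := by
    intro i
    by_cases h0 : T.p i q = 0
    · exact ⟨0, Or.inl rfl, zero_mem _, by rw [map_zero, h0, add_zero]⟩
    · rcases hϑ i with h1 | ⟨j, h1⟩
      · exfalso
        have h2 := hϑD i
        rw [h1, map_zero] at h2
        exact h0 h2.symm
      · refine ⟨-T.gX j, Or.inr ⟨j, rfl⟩, ?_, ?_⟩
        · have h2 : T.gX j ∈ T.hz (P.dm j) := hz_of_hom T (gen_mem_hom T.dt (Sum.inr (Sum.inr j)))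
          have h3 : T.p i q ∈ T.hz ((P.dm j : ℤ) + 1) := by
            rw [← hϑD i, h1]
            exact hz_D T h2
          have h4 := g10_hz_inj T h0 h3 (hz_p T i hq)
          have h5 : (dx : ℤ) - P.dm i = P.dm j := by linarith
          rw [h5]
          exact g10_hz_neg T h2
        · rw [map_neg, ← h1, hϑD i, neg_add_cancel]
  choose ρ h1 h2 h3 using key
  exact ⟨ρ, h1, h2, h3⟩

private theorem g10_p_rho {P : Par} (T : TS P) (r : Lam T.dt) (hr : r = 0 ∨ ∃ j, r = -T.gX j)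
    (s : P.M) : ∃ c : ℚ, T.p s r = algebraMap ℚ _ c := by
  rcases hr with rfl | ⟨j, rfl⟩
  · exact ⟨0, by rw [map_zero, map_zero]⟩
  · by_cases h : s = j
    · subst h
      refine ⟨-1, ?_⟩
      have h1 : T.p s (T.gX s) = 1 := pdv_gen (T.odd s)
      rw [map_neg, h1, map_neg, map_one]
    · refine ⟨0, ?_⟩
      have h1 : T.p s (T.gX j) = 0 := pdv_gen_ne (T.odd s) (by
        intro h'
        exact h (Sum.inr_injective (Sum.inr_injective h')).symm)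
      rw [map_neg, h1, neg_zero, map_zero]

private theorem g10_desc {P : Par} (T : TS P) (n₀ dx : ℕ) (hdx : Even dx) (hdx2 : 2 ≤ dx)
    (T' : TS (P.adj dx hdx hdx2))
    (h : (T.adj dx hdx hdx2 0 (zero_mem _) (map_zero _) (zero_mem _)).Hom T')
    (hk : ∀ i, i ∉ Set.range h.f → n₀ ≤ T'.deg i ∧ T'.gW i ∈ T'.nl) :
    ∃ (T'' : TS P) (k : T.Hom T''),
      (∀ i, i ∉ Set.range k.f → n₀ ≤ T''.deg i ∧ T''.gW i ∈ T''.nl) ∧
      ∀ (G : ℕ → Lam T.dt) (n : ℕ), 1 ≤ n → h.Φ (sh T dx hdx hdx2 G n 0) ∈ T'.nl →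
        k.Φ (G 0) ∈ T''.nl := by
  obtain ⟨D⟩ := exists_dsc T dx hdx hdx2 0 (zero_mem _) (map_zero _) (zero_mem _) T' h
  refine ⟨D.T'', D.k, ?_, ?_⟩
  · intro i hi
    have h1 : D.em.f i ∉ Set.range h.f := by
      rintro ⟨i₀, h2⟩
      rw [← D.em_k i₀] at h2
      exact hi ⟨i₀, D.em.inj h2⟩
    obtain ⟨h2, h3⟩ := hk _ h1
    refine ⟨?_, ?_⟩
    · rw [← D.em.deg i]
      exact h2
    · refine D.nl _ ?_
      rw [E_gW]
      exact h3
  · intro G n hn hG K _ _ _ θ hθ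
    have hθ' : ∀ a, ((Polynomial.mapAlgHom θ).comp D.τ) (T'.D a) = 0 := by
      intro a
      rw [AlgHom.comp_apply]
      ext m
      rw [Polynomial.coeff_mapAlgHom_apply, D.τ_D, map_zero, zero_mul, smul_zero, add_zero]
      exact (hθ _).trans (Polynomial.coeff_zero m).symm
    have h1 := hG (Polynomial K) ((Polynomial.mapAlgHom θ).comp D.τ) hθ'
    obtain ⟨Ψ, hΨ⟩ : ∃ Ψ : Lam (dA T dx hdx hdx2) →ₐ[ℚ] Polynomial K,
        ∀ a, Ψ a = Polynomial.mapAlgHom θ (D.τ (h.Φ a)) :=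
      ⟨((Polynomial.mapAlgHom θ).comp D.τ).comp h.Φ, fun _ => rfl⟩
    have hx : Ψ (xb T dx hdx hdx2) = Polynomial.X := by
      have h3 : h.Φ (xb T dx hdx hdx2) = T'.gU none := Φ_inr h (Sum.inl none)
      rw [hΨ]
      refine (congrArg (fun z => Polynomial.mapAlgHom θ (D.τ z)) h3).trans ?_
      rw [D.τ_x, Polynomial.coe_mapAlgHom, Polynomial.map_X]
    have hi : ∀ a, Ψ (inc T dx hdx hdx2 a) = Polynomial.C (θ (D.k.Φ a)) := by
      intro a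
      rw [hΨ, ← D.em_Φ, D.τ_em, Polynomial.coe_mapAlgHom, Polynomial.map_C]
      rfl
    have h4 : Ψ (sh T dx hdx hdx2 G n 0) = 0 := (hΨ _).trans h1
    unfold sh at h4
    rw [map_sum] at h4
    have h5 := congrArg (fun p : Polynomial K => p.coeff 0) h4
    simp only [Polynomial.coeff_zero, Polynomial.finsetSum_coeff] at h5
    rw [Finset.sum_eq_single 0] at h5
    · rw [map_smul, map_mul, map_pow, hx, hi] at h5
      simpa using h5
    · intro j _ hj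
      rw [map_smul, map_mul, map_pow, hx, hi, Polynomial.coeff_smul,
        Polynomial.coeff_X_pow_mul', if_neg (by omega), smul_zero]
    · intro h6
      exact absurd (Finset.mem_range.2 hn) h6

private theorem g10_coeff {P : Par} (T : TS P) (e : ℕ) (he : Even e) (h2 : 2 ≤ e)
    (G : ℕ → Lam T.dt) (n k : ℕ) : PowerSeries.coeff k (shS T e he h2 G n) =
      lc (dA T e he h2) (sh T e he h2 G n k) := PowerSeries.coeff_mk _ _

theorem oneCol_of (H : ∀ (P' : Par) (T₀ : TS P') (n₀ : ℕ), 2 ≤ n₀ → ∀ lab : ℕ → Lam T₀.dt,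
    (∀ u, ∃ n, lab n = T₀.gU u) → ColK (KK T₀ n₀ lab)) (P : Par) : OneCol P := by
  intro T n₀ hn₀ dx q ϑ hdx hdx2 hq hqS hqD hϑ hϑD α E G g hgE hG hGS hGD
  obtain ⟨ρ, hρ1, hρ2, hρ3⟩ := g10_rho T dx q ϑ hq hϑ hϑD
  obtain ⟨n, hn1, hn⟩ : ∃ n : ℕ, 1 ≤ n ∧ ∀ a ∈ E, ∀ j, n ≤ j → G a j = 0 := by
    refine ⟨1 + ∑ a ∈ E, (g a).toNat, by omega, fun a ha j hj => ?_⟩
    refine hz_neg T ?_ (hG a ha j)
    have h1 : (g a).toNat ≤ ∑ a ∈ E, (g a).toNat :=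
      Finset.single_le_sum (f := fun a => (g a).toNat) (fun _ _ => Nat.zero_le _) ha
    have h2 : g a ≤ ((g a).toNat : ℤ) := Int.self_le_toNat _
    have h3 : (j : ℤ) ≤ j * dx := by
      have : (1 : ℤ) ≤ dx := by exact_mod_cast (by omega : 1 ≤ dx)
      nlinarith
    have h4 : ((g a).toNat : ℤ) + 1 ≤ j := by exact_mod_cast (by omega : (g a).toNat + 1 ≤ j)
    linarith
  obtain ⟨lab, hlab⟩ := g10_lab (T.lam dx hdx hdx2)
  have hcol := H (P.adj dx hdx hdx2) (T.lam dx hdx hdx2) n₀ hn₀ lab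
    (fun u => hlab (Sum.inr (Sum.inl u)))
  have hG₁ : (T.lam dx hdx hdx2).ga (fun m => (TS.Hom.id (T.lam dx hdx hdx2)).Φ (lab m)) ∈
      KK (T.lam dx hdx hdx2) n₀ lab :=
    ⟨T.lam dx hdx hdx2, TS.Hom.id (T.lam dx hdx hdx2), fun i hi => absurd ⟨i, rfl⟩ hi, rfl⟩
  have hs : ∀ a ∈ E, ∀ j, sgn T.dt (G a j) = G a j := by
    intro a ha j
    refine hz_sgn_even T ?_ (hG a ha j)
    have h1 : Even ((j : ℤ) * dx) := by
      have : Even (dx : ℤ) := (Int.even_coe_nat dx).2 hdx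
      exact this.mul_left _
    exact (hgE a ha).sub h1
  have hρs : ∀ s, sgn T.dt (ρ s) = -ρ s := by
    intro s
    rcases hρ1 s with h | ⟨j, h⟩
    · rw [h, map_zero, neg_zero]
    · rw [h, map_neg, sgn_gen_odd (T.odd j)]
  have hfin := g10_fin (T.lam dx hdx hdx2) n₀ lab hlab E
    (fun a => PowerSeries.coeff 0 (shS T dx hdx hdx2 (G a) n))
    (fun a => sh T dx hdx hdx2 (G a) n 0)
    (fun a _ => by
      change PowerSeries.coeff 0 (shS T dx hdx hdx2 (G a) n) = _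
      unfold shS
      rw [PowerSeries.coeff_mk]
      rfl)
    (hcol _ hG₁ dx (lc (dA T dx hdx hdx2) (inc T dx hdx hdx2 q))
      (fun s => lc (dA T dx hdx hdx2) (inc T dx hdx hdx2 (ρ s)))
      ((Int.even_coe_nat dx).2 hdx) (by exact_mod_cast hdx2)
      (ga_lc_I (T.lam dx hdx hdx2) _ (inc_SP T dx hdx hdx2 hqS))
      (g10_hm (T.lam dx hdx hdx2) _ (g10_inc_hz T dx hdx hdx2 hq))
      ?_ ?_ ?_ ?_ ?_ E (fun a => shS T dx hdx hdx2 (G a) n) g hgE ?_ ?_ ?_ ?_)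
  · obtain ⟨T', h, h1, h2⟩ := hfin
    obtain ⟨T'', k, h3, h4⟩ := g10_desc T n₀ dx hdx hdx2 T' h h1
    exact ⟨T'', k, h3, fun a ha => h4 (G a) n hn1 (h2 a ha)⟩
  · refine (ga_D_zero (T.lam dx hdx hdx2) _).2 ?_
    have h1 := adj_D T dx hdx hdx2 0 (zero_mem _) (map_zero _) (zero_mem _) q
    exact h1.trans ((congrArg (inc T dx hdx hdx2) hqD).trans (map_zero _))
  · exact fun s => ga_lc_R (T.lam dx hdx hdx2) _ _
  · exact fun s => g10_hm (T.lam dx hdx hdx2) _ (g10_inc_hz T dx hdx hdx2 (hρ2 s))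
  · intro s
    have h1 := adj_D T dx hdx hdx2 0 (zero_mem _) (map_zero _) (zero_mem _) (ρ s)
    have h2 := inc_p T dx hdx hdx2 0 (zero_mem _) (map_zero _) (zero_mem _) s q
    have h3 := congrArg (lc (dA T dx hdx hdx2)) h1
    have h4 := congrArg (lc (dA T dx hdx hdx2)) h2
    refine (congrArg₂ (· + ·) ((ga_D (T.lam dx hdx hdx2) _ _).trans h3)
      ((ga_pd (T.lam dx hdx hdx2) _ s _).trans h4)).trans ?_
    have h5 := congrArg (inc T dx hdx hdx2) (hρ3 s)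
    rw [map_add, map_zero] at h5
    have h6 := congrArg (lc (dA T dx hdx hdx2)) h5
    rw [map_add, map_zero] at h6
    exact h6
  · intro s t
    obtain ⟨c, hc⟩ := g10_p_rho T (ρ t) (hρ1 t) s
    obtain ⟨c', hc'⟩ := g10_p_rho T (ρ s) (hρ1 s) t
    refine ⟨c + c', ?_⟩
    have h2 := inc_p T dx hdx hdx2 0 (zero_mem _) (map_zero _) (zero_mem _) s (ρ t)
    have h2' := inc_p T dx hdx hdx2 0 (zero_mem _) (map_zero _) (zero_mem _) t (ρ s)
    have h4 := congrArg (lc (dA T dx hdx hdx2)) h2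
    have h4' := congrArg (lc (dA T dx hdx hdx2)) h2'
    refine (congrArg₂ (· + ·) ((ga_pd (T.lam dx hdx hdx2) _ s _).trans h4)
      ((ga_pd (T.lam dx hdx hdx2) _ t _).trans h4')).trans ?_
    change lc (dA T dx hdx hdx2) (inc T dx hdx hdx2 (T.p s (ρ t))) +
      lc (dA T dx hdx hdx2) (inc T dx hdx hdx2 (T.p t (ρ s))) = algebraMap ℚ _ (c + c')
    rw [hc, hc', AlgHom.commutes, AlgHom.commutes, AlgHom.commutes, AlgHom.commutes, map_add]
  · intro a ha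
    refine ⟨n, fun k hk => ?_⟩
    exact (g10_coeff T dx hdx hdx2 (G a) n k).trans ((congrArg (lc (dA T dx hdx hdx2))
      (sh_zero T dx hdx hdx2 (G a) (hn a ha) hk)).trans (map_zero _))
  · intro a ha k
    have hI : ∀ x, x = lc (dA T dx hdx hdx2) (sh T dx hdx hdx2 (G a) n k) →
        x ∈ ((T.lam dx hdx hdx2).ga
          (fun m => (TS.Hom.id (T.lam dx hdx hdx2)).Φ (lab m))).I ∧
        x ∈ ((T.lam dx hdx hdx2).ga
          (fun m => (TS.Hom.id (T.lam dx hdx hdx2)).Φ (lab m))).Hm (g a - k * dx) := by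
      rintro _ rfl
      exact ⟨ga_lc_I (T.lam dx hdx hdx2) _ (sh_SP T dx hdx hdx2 (G a) n (hGS a ha) k),
        g10_hm (T.lam dx hdx hdx2) _ (sh_hz T dx hdx hdx2 (G a) n (g a) (hG a ha) k)⟩
    exact hI _ (g10_coeff T dx hdx hdx2 (G a) n k)
  · intro a ha k
    have h0 : ∀ x y z : ((T.lam dx hdx hdx2).ga
          (fun m => (TS.Hom.id (T.lam dx hdx hdx2)).Φ (lab m))).A,
        x = lc (dA T dx hdx hdx2) (sh T dx hdx hdx2 (G a) n k) →
        y = lc (dA T dx hdx hdx2) (sh T dx hdx hdx2 (G a) n (k + 1)) →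
        z = lc (dA T dx hdx hdx2) (inc T dx hdx hdx2 q) →
        ((T.lam dx hdx hdx2).ga
          (fun m => (TS.Hom.id (T.lam dx hdx hdx2)).Φ (lab m))).D x +
        ((k + 1 : ℕ) : ℚ) • (z * y) = 0 := by
      rintro _ _ _ rfl rfl rfl
      have h1 := sh_D T dx hdx hdx2 (G a) n (hn a ha) q (hGD a ha) k
      have h2 := congrArg (lc (dA T dx hdx hdx2)) h1
      refine (congrArg₂ (· + ·) ((ga_D (T.lam dx hdx hdx2) _ _).trans h2) rfl).trans ?_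
      change lc (dA T dx hdx hdx2) (-(((k + 1 : ℕ) : ℚ) •
        (inc T dx hdx hdx2 q * sh T dx hdx hdx2 (G a) n (k + 1)))) +
        ((k + 1 : ℕ) : ℚ) • (lc (dA T dx hdx hdx2) (inc T dx hdx hdx2 q) *
          lc (dA T dx hdx hdx2) (sh T dx hdx hdx2 (G a) n (k + 1))) = 0
      rw [map_neg, map_smul, map_mul, neg_add_cancel]
    exact h0 _ _ _ (g10_coeff T dx hdx hdx2 (G a) n k)
      (g10_coeff T dx hdx hdx2 (G a) n (k + 1)) rfl
  · intro a ha w hw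
    have h1 := wd_shS T dx hdx hdx2 ρ w (G a) n (hn a ha)
      (fun m => (TS.Hom.id (T.lam dx hdx hdx2)).Φ (lab m))
    have h2 := shS_dich T dx hdx hdx2 (wdG T ρ w (G a)) n
      (wdG_zero T ρ w (G a) (hn a ha)) (fun j => by
        rw [wdG_sgn T ρ hρs w (G a) (hs a ha) j]
        exact (congrArg (fun r : ℚ => r • wdG T ρ w (G a) j) hw.neg_one_pow).trans
          (one_smul _ _))
    rw [← h1] at h2
    exact h2

end AnWL
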