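import Pool.Agent.Helper48.G2.Adj

/-!
G2-C08a. The element `poly φ n = ∑_{k < n} φ_k x_b^k` of `Λ(T, x_b)`, `D x_b = g`.

`poly_D`: `inc_sgn`, `adj_D`, `adj_xb`, `d_mul`, `x_b` is even, hence central (`even_comm`), `D (x_b ^ k) = k g x_b ^ (k - 1)`; shift of the summation index; `φ_k g = g φ_k` (`φ_k` even). `poly_hom`: `hz_iff`; `φ k = 0` if `f < k e`.
`poly_bd`: the algebra map `β : MvPolynomial (letters of T_b) ℚ → MvPolynomial (letters of T) ℚ` with `x_b ↦ bd a` and the identity on the other variables satisfies `β (bd (inc φ)) = bd φ` (`Lam.algHom_ext`), so `β (bd (poly φ n)) = bd (∑ φ k * a ^ k)`.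
-/

set_option autoImplicit false

namespace AnWL
open Anick2
variable {P : Par}

section
variable (T : TS P) (e : ℕ) (he : Even e) (h2 : 2 ≤ e) (g : Lam T.dt)
  (hg : g ∈ hom T.dt (e + 1)) (hgD : T.D g = 0)
  (hgs : g ∈ SP T.dt (fun l => 1 ≤ cW l ∧ ∀ j : P.M, Sum.inr (Sum.inr j) ∉ l))

/-- The element `∑ φ_k x_b^k`. -/
noncomputable def poly (φ : ℕ → Lam T.dt) (n : ℕ) : Lam (dA T e he h2) :=
  ∑ k ∈ Finset.range n, inc T e he h2 (φ k) * xb T e he h2 ^ k

private noncomputable def pD : Lam (dA T e he h2) →ₗ[ℚ] Lam (dA T e he h2) :=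
  (T.adj e he h2 g hg hgD hgs).D

private noncomputable def pP (j : P.M) : Lam (dA T e he h2) →ₗ[ℚ] Lam (dA T e he h2) :=
  (T.adj e he h2 g hg hgD hgs).p j

private theorem pD_mul (a b : Lam (dA T e he h2)) :
    pD T e he h2 g hg hgD hgs (a * b) = pD T e he h2 g hg hgD hgs a * b +
      sgn (dA T e he h2) a * pD T e he h2 g hg hgD hgs b :=
  (T.adj e he h2 g hg hgD hgs).leib a b

private theorem pD_inc (a : Lam T.dt) :
    pD T e he h2 g hg hgD hgs (inc T e he h2 a) = inc T e he h2 (T.D a) :=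
  adj_D T e he h2 g hg hgD hgs a

private theorem pD_xb :
    pD T e he h2 g hg hgD hgs (xb T e he h2) = inc T e he h2 g :=
  adj_xb T e he h2 g hg hgD hgs

private theorem pD_one : pD T e he h2 g hg hgD hgs 1 = 0 :=
  d_one (T.adj e he h2 g hg hgD hgs).diff

private theorem pP_mul (j : P.M) (a b : Lam (dA T e he h2)) :
    pP T e he h2 g hg hgD hgs j (a * b) = pP T e he h2 g hg hgD hgs j a * b +
      sgn (dA T e he h2) a * pP T e he h2 g hg hgD hgs j b :=
  pdv_mul ((T.adj e he h2 g hg hgD hgs).odd j) a b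

private theorem pP_inc (j : P.M) (a : Lam T.dt) :
    pP T e he h2 g hg hgD hgs j (inc T e he h2 a) = inc T e he h2 (T.p j a) :=
  inc_p T e he h2 g hg hgD hgs j a

private theorem pP_xb (j : P.M) :
    pP T e he h2 g hg hgD hgs j (xb T e he h2) = 0 :=
  adj_p_xb T e he h2 g hg hgD hgs j

private theorem poly_xb_sgn :
    sgn (dA T e he h2) (xb T e he h2) = xb T e he h2 := by
  unfold xb
  exact sgn_gen_even he

private theorem poly_xb_pow_sgn (k : ℕ) :
    sgn (dA T e he h2) (xb T e he h2 ^ k) = xb T e he h2 ^ k := by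
  rw [map_pow, poly_xb_sgn]

private theorem poly_D_pow (k : ℕ) :
    pD T e he h2 g hg hgD hgs (xb T e he h2 ^ k) =
      (k : ℚ) • (inc T e he h2 g * xb T e he h2 ^ (k - 1)) := by
  induction k with
  | zero =>
    rw [pow_zero, Nat.cast_zero, zero_smul]
    exact pD_one T e he h2 g hg hgD hgs
  | succ k ih =>
    rw [pow_succ, pD_mul, ih, poly_xb_pow_sgn, pD_xb T e he h2 g hg hgD hgs,
      even_comm (poly_xb_pow_sgn T e he h2 k) (inc T e he h2 g), Nat.add_sub_cancel]
    rcases k with _ | k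
    · rw [Nat.cast_zero, zero_smul, zero_mul, zero_add, Nat.cast_one, one_smul]
    · rw [Nat.add_sub_cancel, smul_mul_assoc, mul_assoc, ← pow_succ, Nat.cast_succ (k + 1), add_smul,
        one_smul]

theorem poly_D (φ : ℕ → Lam T.dt) (n : ℕ) (hn : ∀ k, n ≤ k → φ k = 0)
    (hs : ∀ k, sgn T.dt (φ k) = φ k)
    (h : ∀ k, T.D (φ k) + ((k + 1 : ℕ) : ℚ) • (g * φ (k + 1)) = 0) :
    (T.adj e he h2 g hg hgD hgs).D (poly T e he h2 φ n) = 0 := by
  change pD T e he h2 g hg hgD hgs (poly T e he h2 φ n) = 0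
  let F : ℕ → Lam (dA T e he h2) := fun k =>
    (k : ℚ) • (inc T e he h2 (φ k) * (inc T e he h2 g * xb T e he h2 ^ (k - 1)))
  have hF : ∀ k, F k =
    (k : ℚ) • (inc T e he h2 (φ k) * (inc T e he h2 g * xb T e he h2 ^ (k - 1))) := fun _ => rfl
  have h1 : ∀ k, pD T e he h2 g hg hgD hgs (inc T e he h2 (φ k) * xb T e he h2 ^ k) =
      F k - F (k + 1) := by
    intro k
    have h3 : T.D (φ k) = -(((k + 1 : ℕ) : ℚ) • (φ (k + 1) * g)) := by
      have h4 := eq_neg_of_add_eq_zero_left (h k)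
      rw [even_comm (hs (k + 1)) g]
      exact h4
    rw [pD_mul, pD_inc, poly_D_pow T e he h2 g hg hgD hgs, inc_sgn, hs k, h3,
      hF, hF, Nat.add_sub_cancel, map_neg, map_smul, map_mul, mul_smul_comm, neg_mul,
      smul_mul_assoc, mul_assoc]
    abel
  unfold poly
  rw [map_sum, Finset.sum_congr rfl fun k _ => h1 k]
  refine (Finset.sum_range_sub' F n).trans ?_
  rw [hF, hF, hn n le_rfl, map_zero, zero_mul, smul_zero, Nat.cast_zero, zero_smul, sub_zero]

private theorem poly_p_pow (j : P.M) (k : ℕ) :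
    pP T e he h2 g hg hgD hgs j (xb T e he h2 ^ k) = 0 := by
  induction k with
  | zero =>
    have h := pP_mul T e he h2 g hg hgD hgs j 1 1
    rw [mul_one, mul_one, map_one (sgn (dA T e he h2)), one_mul] at h
    rw [pow_zero]
    exact add_eq_left.1 h.symm
  | succ k ih =>
    rw [pow_succ, pP_mul, ih, pP_xb T e he h2 g hg hgD hgs, zero_mul, mul_zero, add_zero]

theorem poly_p (φ : ℕ → Lam T.dt) (n : ℕ) (j : P.M) (h : ∀ k, T.p j (φ k) = 0) :
    (T.adj e he h2 g hg hgD hgs).p j (poly T e he h2 φ n) = 0 := by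
  change pP T e he h2 g hg hgD hgs j (poly T e he h2 φ n) = 0
  unfold poly
  rw [map_sum]
  refine Finset.sum_eq_zero fun k _ => ?_
  rw [pP_mul, pP_inc, h k, map_zero, zero_mul,
    poly_p_pow T e he h2 g hg hgD hgs, mul_zero, add_zero]

theorem poly_SP (φ : ℕ → Lam T.dt) (n : ℕ) (h : ∀ k, φ k ∈ SP T.dt (fun l => 1 ≤ cW l)) :
    poly T e he h2 φ n ∈ SP (dA T e he h2) (fun l => 1 ≤ cW l) := by
  unfold poly
  refine Submodule.sum_mem _ fun k _ => ?_
  exact SP_mul_left (k := 1) (m := 0) (inc_SP T e he h2 (h k)) (SP_zero_top _ _)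

private theorem poly_xb_pow_hom (k : ℕ) :
    xb T e he h2 ^ k ∈ hom (dA T e he h2) (k * e) := by
  induction k with
  | zero =>
    rw [pow_zero, zero_mul]
    exact Submodule.subset_span ⟨[], rfl, rfl⟩
  | succ k ih =>
    have h1 : xb T e he h2 ∈ hom (dA T e he h2) e :=
      gen_mem_hom (dA T e he h2) (Sum.inr (Sum.inl none))
    have h3 := mul_mem_hom _ ih h1
    have h4 : (k + 1) * e = k * e + e := by ring
    rw [pow_succ, h4]
    exact h3

theorem poly_hom (φ : ℕ → Lam T.dt) (n : ℕ) (f : ℕ) (h : ∀ k : ℕ, φ k ∈ T.hz ((f : ℤ) - k * e)) :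
    poly T e he h2 φ n ∈ hom (dA T e he h2) f := by
  unfold poly
  refine Submodule.sum_mem _ fun k _ => ?_
  rcases (hz_iff T).1 (h k) with h1 | ⟨n', h1, h3⟩
  · rw [h1, map_zero, zero_mul]
    exact zero_mem _
  · have h4 := mul_mem_hom _ (inc_hom T e he h2 h3) (poly_xb_pow_hom T e he h2 k)
    have h5 : n' + k * e = f := by
      have h6 : ((n' + k * e : ℕ) : ℤ) = (f : ℤ) := by
        push_cast
        linarith
      exact_mod_cast h6
    rw [h5] at h4
    exact h4

theorem poly_bd (φ : ℕ → Lam T.dt) (n : ℕ) (a : Lam T.dt) (ha : sgn T.dt a = a)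
    (h : bd T.dt (∑ k ∈ Finset.range n, φ k * a ^ k) ≠ 0) :
    bd (dA T e he h2) (poly T e he h2 φ n) ≠ 0 := by
  let β : MvPolynomial (T.ι ⊕ ((P.adj e he h2).U ⊕ (P.adj e he h2).M)) ℚ →ₐ[ℚ]
      MvPolynomial (T.ι ⊕ (P.U ⊕ P.M)) ℚ :=
    MvPolynomial.aeval (Sum.elim (fun i => MvPolynomial.X (Sum.inl i))
      (Sum.elim (fun u => Option.elim u (bd T.dt a) (fun u => MvPolynomial.X (Sum.inr (Sum.inl u))))
        (fun j => MvPolynomial.X (Sum.inr (Sum.inr j)))))
  have hβ1 : ∀ x : Lam T.dt, β (bd (dA T e he h2) (inc T e he h2 x)) = bd T.dt x := by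
    intro x
    have h3 : bd (dA T e he h2) (inc T e he h2 x) =
        MvPolynomial.rename (Sum.map id (Sum.map some id)) (bd T.dt x) := bd_mapL _ _ x
    rw [h3]
    have h4 : β.comp (MvPolynomial.rename (Sum.map id (Sum.map some id))) =
        AlgHom.id ℚ (MvPolynomial (T.ι ⊕ (P.U ⊕ P.M)) ℚ) := by
      refine MvPolynomial.algHom_ext fun i => ?_
      rw [AlgHom.comp_apply, MvPolynomial.rename_X]
      rcases i with i | u | j
      · exact MvPolynomial.aeval_X _ _
      · exact MvPolynomial.aeval_X _ _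
      · exact MvPolynomial.aeval_X _ _
    exact DFunLike.congr_fun h4 (bd T.dt x)
  have hβ2 : β (bd (dA T e he h2) (xb T e he h2)) = bd T.dt a := by
    have h3 : bd (dA T e he h2) (xb T e he h2) = MvPolynomial.X (Sum.inr (Sum.inl none)) :=
      bd_even (δ := dA T e he h2) (i := Sum.inr (Sum.inl none)) he
    rw [h3]
    exact MvPolynomial.aeval_X _ _
  intro h0
  apply h
  have h3 : β (bd (dA T e he h2) (poly T e he h2 φ n)) =
      bd T.dt (∑ k ∈ Finset.range n, φ k * a ^ k) := by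
    unfold poly
    rw [map_sum, map_sum, map_sum]
    refine Finset.sum_congr rfl fun k _ => ?_
    rw [map_mul, map_mul, map_pow, map_pow, hβ1, hβ2, map_mul, map_pow]
  rw [← h3, h0, map_zero]

end

end AnWL
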