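import Pool.Agent.Helper48.G2.SSR
import Pool.Agent.Helper48.G2.Desc
import Pool.Agent.Helper48.G2.Poly
import Pool.Agent.Helper48.WL.C06f

/-!
G2-C08. `SSb` for the class `KK T₀ n₀ lab`.

`G = T.ga (fun m => h.Φ (lab m))`, `g = lc g₀`, `Φ.coeff k = lc (φ k)`, `a = lc a₀` (`ga_mem_I`, `ga_mem_R`, `ga_hm`, `ga_lv`, `ga_D_zero`; choose `φ k = 0` where `Φ.coeff k = 0`). `e : ℤ` even `> 0`: `e = (e' : ℤ)`, `2 ≤ e'` even.
`g₀ ∈ hom (e' + 1)` (if `g₀ = 0` trivially), `g₀ ∈ SP (1 ≤ cW ∧ no X)` (`ga_mem_I`, `Lv ∅`, `SP_of_pdv_zero` for all `j` in the finite set `P.M`). `T_b = T.adj e' g₀`, `F = ∑_{k ≤ natDegree Φ} inc (φ k) * xb ^ k`: `F = poly φ (natDegree + 1)`: `poly_D`, `poly_p`, `poly_SP`, `poly_hom`, `poly_bd` (`Poly.lean`): `bd (∑ φ k * a₀ ^ k) ≠ 0`, since `lc` of the argument is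
`Φ.eval a`, a unit, and an element with body zero is nilpotent (`bd_nil`).
`SScR_of` for `K_b = KK T_b n₀ lab_b`, where `lab_b` is a labelling of all the letters of `T_b` (as in `C07a.lean`; `EXT_KK`), `G_b = T_b.ga (fun m => (TS.Hom.id T_b).Φ (lab_b m))`, the element `lc F` of degree `f` (`f ≥ 0`, even, as `F ≠ 0`): `H_b = T'.ga ..`, `φ_b`, `z = lc z₀` (`ga_mem_R`),
`D z = φ_b (F ^ R₀)`; `φ_b.f ∘ lc = lc ∘ h'.Φ` (labels; `key` in `C07a.lean`). `exists_dsc` for `h'`: `D`. `H = D.T''.ga (fun m => (h.comp D.k).Φ (lab m))`, `φ` from `exists_mor D.k`, `Z = map lc (D.τ z₀)`. Tame: as in `C07a.lean` (`gW i` new for `D.k` is new for `h'`: `em_k`,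
`bij`, `em.Φ (gW i) = gW (em.f i)`, `D.nl`). `D Z_k + (k + 1) g Z_{k+1} = (τ (T'.D z₀))_k = (τ (h'.Φ F ^ R₀))_k`, `τ (h'.Φ F) = ∑ C (D.k.Φ (φ k)) X^k` (`em_Φ`, `τ_em`, `τ_x`). Degrees: `τ_hz` (if `z₀ ≠ 0`; `ga_hm`), `hz_iff`; level: `τ_p`.
-/

set_option autoImplicit false

namespace AnWL
open Anick2
variable {P : Par}

private theorem ssb_free (T : TS P) {p : List (T.ι ⊕ (P.U ⊕ P.M)) → Prop} {a : Lam T.dt}
    (ha : a ∈ SP T.dt p) (h : ∀ j, T.p j a = 0) :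
    a ∈ SP T.dt (fun l => p l ∧ ∀ j : P.M, Sum.inr (Sum.inr j) ∉ l) := by
  classical
  have := P.finM
  have := Fintype.ofFinite P.M
  have key : ∀ s : Finset P.M,
      a ∈ SP T.dt (fun l => p l ∧ ∀ j ∈ s, Sum.inr (Sum.inr j) ∉ l) := by
    intro s
    induction s using Finset.induction_on with
    | empty =>
      refine Submodule.span_mono ?_ ha
      rintro x ⟨l, hl, rfl⟩
      exact ⟨l, ⟨hl, fun j hj => absurd hj (Finset.notMem_empty j)⟩, rfl⟩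
    | insert j s hj ih =>
      have h2 := SP_of_pdv_zero (T.odd j) ih (h j)
      refine Submodule.span_mono ?_ h2
      rintro x ⟨l, ⟨⟨hl, hl'⟩, hl''⟩, rfl⟩
      refine ⟨l, ⟨hl, fun j' hj' => ?_⟩, rfl⟩
      rcases Finset.mem_insert.1 hj' with h3 | h3
      · rw [h3]
        exact hl''
      · exact hl' j' h3
  refine Submodule.span_mono ?_ (key Finset.univ)
  rintro x ⟨l, ⟨hl, hl'⟩, rfl⟩
  exact ⟨l, ⟨hl, fun j => hl' j (Finset.mem_univ j)⟩, rfl⟩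

private theorem ssb_gen_inj {ι : Type} {δ : ι → ℕ} {i j : ι} (h : gen δ i = gen δ j) :
    i = j := by
  by_contra hij
  rcases Nat.even_or_odd (δ i) with hi | hi
  · have h1 := congrArg (bd δ) h
    rw [bd_even hi] at h1
    rcases Nat.even_or_odd (δ j) with hj | hj
    · rw [bd_even hj] at h1
      exact hij (MvPolynomial.X_injective h1)
    · rw [bd_odd (Nat.not_even_iff_odd.2 hj)] at h1
      exact MvPolynomial.X_ne_zero i h1
  · have h1 := pdv_gen hi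
    rw [h, pdv_gen_ne hi (fun e => hij e.symm)] at h1
    have h2 := congrArg (bd δ) h1
    rw [map_zero, map_one] at h2
    exact zero_ne_one h2

private theorem ssb_sgn (T : TS P) {g : ℤ} (hg : Even g) {a : Lam T.dt} (ha : a ∈ T.hz g) :
    sgn T.dt a = a := by
  rcases (hz_iff T).1 ha with h | ⟨n, hn, h⟩
  · rw [h, map_zero]
  · have h1 : Even n := (Int.even_coe_nat n).1 (by rw [hn]; exact hg)
    rw [sgn_hom T.dt h, h1.neg_one_pow, one_smul]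

private theorem ssb_step (T₀ : TS P) (n₀ : ℕ) (hn₀ : 2 ≤ n₀) [Fintype P.M] (L : Finset P.M)
    (F : Lam T₀.dt) (f : ℕ) (hf : Even f) (hF : F ∈ hom T₀.dt f)
    (hFs : F ∈ SP T₀.dt (fun l => 1 ≤ cW l)) (hD : T₀.D F = 0)
    (hL : ∀ j, j ∉ L → T₀.p j F = 0) (hb : bd T₀.dt F ≠ 0) (R₀ : ℕ)
    (hR₀ : R₀ = bb (Fintype.card P.M) L.card + (n₀ + 2)) :
    ∃ (T' : TS P) (h : T₀.Hom T') (z : Lam T'.dt),
      (∀ i, i ∉ Set.range h.f → n₀ ≤ T'.deg i ∧ T'.gW i ∈ T'.nl) ∧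
      z ∈ T'.hz ((R₀ : ℤ) * f - 1) ∧ (∀ j, j ∉ L → T'.p j z = 0) ∧
      T'.D z = h.Φ (F ^ R₀) := by
  classical
  subst hR₀
  have hfin : Finite (T₀.ι ⊕ (P.U ⊕ P.M)) := T₀.finT
  obtain ⟨k, ⟨e⟩⟩ := Finite.exists_equiv_fin (T₀.ι ⊕ (P.U ⊕ P.M))
  obtain ⟨lab, hlab⟩ : ∃ lab : ℕ → Lam T₀.dt, ∀ t, ∃ m, lab m = gen T₀.dt t := by
    refine ⟨fun m => if h : m < k then gen T₀.dt (e.symm ⟨m, h⟩) else 0, fun t => ⟨(e t : ℕ), ?_⟩⟩
    have h1 : ((e t : Fin k) : ℕ) < k := (e t).2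
    simp only [h1, dif_pos]
    congr 1
    exact e.symm_apply_apply t
  have hE := EXT_KK T₀ n₀ hn₀ lab (fun u => hlab (Sum.inr (Sum.inl u)))
  have hG : T₀.ga (fun m => (TS.Hom.id T₀).Φ (lab m)) ∈ KK T₀ n₀ lab :=
    ⟨T₀, TS.Hom.id T₀, fun i hi => absurd ⟨i, rfl⟩ hi, rfl⟩
  have hS := SScR_of (KK T₀ n₀ lab) (by omega) hE L.card
  have hsg : sgn T₀.dt F = F := by rw [sgn_hom T₀.dt hF, hf.neg_one_pow, one_smul]
  obtain ⟨H, hH, φ, hφ, z, hzR, -, hzH, hzL, hDz⟩ := hS _ hG L rfl (f : ℤ) (lc T₀.dt F)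
    ((Int.even_coe_nat f).2 hf)
    (ga_lc_I T₀ _ hFs) ((ga_hm T₀ _).2 (Or.inr ⟨f, rfl, hF⟩)) ((ga_D_zero T₀ _).2 hD)
    ((ga_lv T₀ _).2 hL) (lc_unit ⟨hsg, hb⟩)
  obtain ⟨T, h, hdeg, rfl⟩ := hH
  obtain ⟨z₀, rfl⟩ := ga_mem_R T _ hzR
  have key : ∀ b : Lam T₀.dt, φ.f (lc T₀.dt b) = lc T.dt (h.Φ b) := by
    intro b
    have e1 : (φ.f : Lc T₀.dt →ₐ[ℚ] Lc T.dt).comp (lc T₀.dt) = (lc T.dt).comp h.Φ := by
      refine Lam.algHom_ext _ fun t => ?_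
      obtain ⟨m, hm⟩ := hlab t
      have e2 := φ.Lab m
      have e3 : (T₀.ga (fun m => (TS.Hom.id T₀).Φ (lab m))).Lab m = lc T₀.dt (gen T₀.dt t) := by
        change lc T₀.dt ((TS.Hom.id T₀).Φ (lab m)) = _
        rw [id_Φ, hm]
      have e4 : (T.ga (fun m => h.Φ (lab m))).Lab m = lc T.dt (h.Φ (gen T₀.dt t)) := by
        change lc T.dt (h.Φ (lab m)) = _
        rw [hm]
      rw [e3, e4] at e2
      exact e2
    exact DFunLike.congr_fun e1 b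
  have := T.finT
  refine ⟨T, h, z₀, ?_, ?_, (ga_lv T _).1 hzL, ?_⟩
  · intro i hi
    refine ⟨hdeg i hi, ?_⟩
    refine (ga_Nl T (fun m => h.Φ (lab m))).1 ?_
    rcases hφ (lc T.dt (T.gW i)) ⟨i, rfl⟩ with ⟨g, ⟨i₀, hg⟩, hgi⟩ | h1
    · exfalso
      rw [hg] at hgi
      have h2 : lc T.dt (h.Φ (T₀.gW i₀)) = lc T.dt (T.gW i) := (key (T₀.gW i₀)).symm.trans hgi
      have h3 := lc_inj h2
      rw [Φ_gW] at h3
      have h4 := ssb_gen_inj h3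
      exact hi ⟨i₀, Sum.inl_injective h4⟩
    · exact h1
  · exact (hz_iff T).2 ((ga_hm T _).1 hzH)
  · apply lc_inj
    exact (ga_D T _ z₀).symm.trans (hDz.trans
      ((congrArg φ.f (map_pow (lc T₀.dt) F _).symm).trans (key _)))

private theorem ssb_sum {A : Type} [Ring A] (b : ℕ → A) (n : ℕ) (hn : ∀ k, n ≤ k → b k = 0)
    (k : ℕ) : (∑ i ∈ Finset.range n, Polynomial.C (b i) * Polynomial.X ^ i).coeff k = b k := by
  rw [Polynomial.finsetSum_coeff]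
  simp only [Polynomial.coeff_C_mul_X_pow]
  by_cases hk : k < n
  · rw [Finset.sum_eq_single k]
    · rw [if_pos rfl]
    · intro i _ hi
      rw [if_neg (fun h => hi h.symm)]
    · intro h
      exact absurd (Finset.mem_range.2 hk) h
  · rw [hn k (not_lt.1 hk)]
    refine Finset.sum_eq_zero fun i hi => ?_
    have := Finset.mem_range.1 hi
    rw [if_neg (by omega)]

private theorem ssb_pow {A B C : Type} [Ring A] [Ring B] [Ring C] (u : A →+* C) (v : B →+* C)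
    (Φ : Polynomial A) (S : Polynomial B) (h : ∀ k, u (Φ.coeff k) = v (S.coeff k)) (R k : ℕ) :
    u ((Φ ^ R).coeff k) = v ((S ^ R).coeff k) := by
  have e : Φ.map u = S.map v := Polynomial.ext fun k => by
    rw [Polynomial.coeff_map, Polynomial.coeff_map, h]
  rw [← Polynomial.coeff_map, ← Polynomial.coeff_map, Polynomial.map_pow, Polynomial.map_pow, e]

theorem SSb_KK (T₀ : TS P) (n₀ : ℕ) (hn₀ : 2 ≤ n₀) (lab : ℕ → Lam T₀.dt)
    (hlab : ∀ u, ∃ n, lab n = T₀.gU u) [Fintype P.M] (ℓ : ℕ) :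
    SSb (KK T₀ n₀ lab) ℓ (bb (Fintype.card P.M) ℓ + (n₀ + 2)) := by
  classical
  rintro G ⟨T, h, hdeg, rfl⟩ L hLc e f g a Φ he he0 hf hgI hgH hgD hgL hΦ hΦD ha haH hu
  have hfinT := T.finT
  obtain ⟨e', rfl⟩ := Int.eq_ofNat_of_zero_le he0.le
  have he' : Even e' := (Int.even_coe_nat e').1 he
  have h2 : 2 ≤ e' := by
    have h3 : 0 < e' := by exact_mod_cast he0
    rcases he' with ⟨r, hr⟩
    omega
  obtain ⟨g₀, hgs, rfl⟩ := ga_mem_I T _ hgI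
  have hg : g₀ ∈ hom T.dt (e' + 1) := by
    rcases (ga_hm T _).1 hgH with h1 | ⟨n, hn, h1⟩
    · rw [h1]
      exact zero_mem _
    · have h3 : n = e' + 1 := by omega
      rw [← h3]
      exact h1
  have hgD0 : T.D g₀ = 0 := (ga_D_zero T _).1 hgD
  have hgp : ∀ j, T.p j g₀ = 0 := fun j => (ga_lv T _).1 hgL j (Finset.notMem_empty j)
  have hgs' := ssb_free T hgs hgp
  have hφ : ∀ k : ℕ, ∃ b, b ∈ SP T.dt (fun l => 1 ≤ cW l) ∧ lc T.dt b = Φ.coeff k := fun k => by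
    obtain ⟨b, hb, hb'⟩ := ga_mem_I T _ (hΦ k).1
    exact ⟨b, hb, hb'⟩
  choose φ hφ1 hφ2 using hφ
  have hφz : ∀ k : ℕ, φ k ∈ T.hz (f - k * (e' : ℤ)) := by
    intro k
    have h1 : lc T.dt (φ k) ∈ (T.ga (fun n => h.Φ (lab n))).Hm (f - k * (e' : ℤ)) := by
      rw [hφ2 k]
      exact (hΦ k).2.1
    exact (hz_iff T).2 ((ga_hm T _).1 h1)
  have hφs : ∀ k : ℕ, sgn T.dt (φ k) = φ k := by
    intro k
    refine ssb_sgn T ?_ (hφz k)
    exact hf.sub (he.mul_left _)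
  have hφp : ∀ j, j ∉ L → ∀ k : ℕ, T.p j (φ k) = 0 := by
    intro j hj k
    have h1 : (T.ga (fun n => h.Φ (lab n))).Lv L (lc T.dt (φ k)) := by
      rw [hφ2 k]
      exact (hΦ k).2.2
    exact (ga_lv T _).1 h1 j hj
  have hφD : ∀ k : ℕ, T.D (φ k) + ((k + 1 : ℕ) : ℚ) • (g₀ * φ (k + 1)) = 0 := by
    intro k
    apply lc_inj
    rw [map_add, map_smul, map_mul, hφ2 (k + 1), map_zero]
    have h1 := hΦD k
    have h3 : (T.ga (fun n => h.Φ (lab n))).D (Φ.coeff k) = lc T.dt (T.D (φ k)) := by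
      rw [← hφ2 k]
      exact ga_D T _ (φ k)
    rw [h3] at h1
    exact h1
  obtain ⟨N, hcz, hev⟩ : ∃ N : ℕ, (∀ k, N ≤ k → Φ.coeff k = 0) ∧
      Φ.eval a = ∑ k ∈ Finset.range N, Φ.coeff k * a ^ k :=
    ⟨Φ.natDegree + 1, fun k hk => Polynomial.coeff_eq_zero_of_natDegree_lt (by omega),
      Polynomial.eval_eq_sum_range _⟩
  have hφ0 : ∀ k, N ≤ k → φ k = 0 := by
    intro k hk
    apply lc_inj
    exact (hφ2 k).trans ((hcz k hk).trans (map_zero (lc T.dt)).symm)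
  obtain ⟨a₀, rfl⟩ := ga_mem_R T _ ha
  have ha₀ : sgn T.dt a₀ = a₀ := ssb_sgn T he ((hz_iff T).2 ((ga_hm T _).1 haH))
  have hbd : bd T.dt (∑ k ∈ Finset.range N, φ k * a₀ ^ k) ≠ 0 := by
    intro h0
    have hn := (bd_nil h0).map (lc T.dt)
    have h1 : lc T.dt (∑ k ∈ Finset.range N, φ k * a₀ ^ k) =
        ∑ k ∈ Finset.range N, lc T.dt (φ k) * lc T.dt a₀ ^ k := by
      rw [map_sum]
      refine Finset.sum_congr rfl fun k _ => ?_
      rw [map_mul, map_pow]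
    have h1' : ∑ k ∈ Finset.range N, lc T.dt (φ k) * lc T.dt a₀ ^ k =
        Φ.eval (lc T.dt a₀) := by
      refine Eq.trans ?_ hev.symm
      refine Finset.sum_congr rfl fun k _ => ?_
      rw [hφ2 k]
      rfl
    have hu' : IsUnit (lc T.dt (∑ k ∈ Finset.range N, φ k * a₀ ^ k)) := by
      have e := h1.trans h1'
      exact e ▸ hu
    obtain ⟨m, hm⟩ := hn
    have h3 := hu'.pow m
    rw [hm] at h3
    have h4 : (0 : Lc T.dt) = 1 := isUnit_zero_iff.1 h3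
    have h5 : lc T.dt 0 = lc T.dt 1 := by rw [map_zero, map_one]; exact h4
    have h6 := congrArg (bd T.dt) (lc_inj h5)
    rw [map_zero, map_one] at h6
    exact zero_ne_one h6
  have hf0 : 0 ≤ f := by
    by_contra hneg
    apply hbd
    have h1 : ∀ k : ℕ, φ k = 0 := by
      intro k
      refine hz_neg T ?_ (hφz k)
      have h3 : 0 ≤ (k : ℤ) * (e' : ℤ) := by positivity
      omega
    rw [Finset.sum_eq_zero (fun k _ => by rw [h1 k, zero_mul]), map_zero]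
  obtain ⟨f', rfl⟩ := Int.eq_ofNat_of_zero_le hf0
  have hf' : Even f' := (Int.even_coe_nat f').1 hf
  obtain ⟨R₀, hR₀⟩ : ∃ R₀ : ℕ, R₀ = bb (Fintype.card P.M) ℓ + (n₀ + 2) := ⟨_, rfl⟩
  rw [← hR₀]
  let _ : Fintype (P.adj e' he' h2).M := (inferInstance : Fintype P.M)
  obtain ⟨T', h', z₀, hgen, hzz, hzp, hzD⟩ := ssb_step (P := P.adj e' he' h2)
    (T.adj e' he' h2 g₀ hg hgD0 hgs') n₀ hn₀ L
    (poly T e' he' h2 φ N) f' hf'
    (poly_hom T e' he' h2 φ _ f' hφz) (poly_SP T e' he' h2 φ _ hφ1)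
    (poly_D T e' he' h2 g₀ hg hgD0 hgs' φ _ hφ0 hφs hφD)
    (fun j hj => poly_p T e' he' h2 g₀ hg hgD0 hgs' φ _ j (hφp j hj))
    (poly_bd T e' he' h2 φ _ a₀ ha₀ hbd) R₀ (by rw [hR₀, ← hLc]; rfl)
  obtain ⟨D⟩ := exists_dsc T e' he' h2 g₀ hg hgD0 hgs' T' h'
  obtain ⟨ψ, hψ⟩ := exists_mor D.k (fun m => h.Φ (lab m))
  have elb : (fun m => (h.comp D.k).Φ (lab m)) = fun m => D.k.Φ (h.Φ (lab m)) :=
    funext fun m => comp_Φ h D.k (lab m)
  have hnew : ∀ i, i ∉ Set.range D.k.f → D.em.f i ∉ Set.range h'.f := by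
    rintro i hi ⟨i₀, h0⟩
    apply hi
    refine ⟨i₀, D.em.inj ?_⟩
    rw [← h0]
    exact D.em_k i₀
  have hK : D.T''.ga (fun m => D.k.Φ (h.Φ (lab m))) ∈ KK T₀ n₀ lab := by
    refine ⟨D.T'', h.comp D.k, ?_, by rw [elb]⟩
    intro i hi
    by_cases hr : i ∈ Set.range D.k.f
    · obtain ⟨i₀, rfl⟩ := hr
      rw [D.k.deg]
      refine hdeg i₀ ?_
      rintro ⟨i₁, rfl⟩
      exact hi ⟨i₁, rfl⟩
    · rw [← D.em.deg i]
      exact (hgen _ (hnew i hr)).1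
  have hτ : D.τ (h'.Φ (poly T e' he' h2 φ N)) =
      ∑ i ∈ Finset.range N,
        Polynomial.C (D.k.Φ (φ i)) * Polynomial.X ^ i := by
    have h3 : h'.Φ (xb T e' he' h2) = T'.gU none := Φ_inr h' (Sum.inl none)
    have h4 : h'.Φ (poly T e' he' h2 φ N) =
        ∑ i ∈ Finset.range N, h'.Φ (inc T e' he' h2 (φ i) * xb T e' he' h2 ^ i) :=
      map_sum h'.Φ _ _
    rw [h4, map_sum]
    refine Finset.sum_congr rfl fun i _ => ?_
    have h5 : h'.Φ (inc T e' he' h2 (φ i) * xb T e' he' h2 ^ i) =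
        D.em.Φ (D.k.Φ (φ i)) * T'.gU none ^ i := by
      rw [D.em_Φ, ← h3]
      exact (map_mul h'.Φ _ _).trans (congrArg (fun y => h'.Φ (inc T e' he' h2 (φ i)) * y)
        (map_pow h'.Φ _ _))
    rw [h5, map_mul, map_pow, D.τ_em, D.τ_x]
  refine ⟨_, hK, ψ, ?_, Polynomial.map ((lc D.T''.dt : Lam D.T''.dt →ₐ[ℚ] Lc D.T''.dt) :
    Lam D.T''.dt →+* Lc D.T''.dt) (D.τ z₀), ?_, ?_⟩
  · rintro t ⟨i, rfl⟩
    by_cases hr : i ∈ Set.range D.k.f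
    · obtain ⟨i₀, rfl⟩ := hr
      left
      refine ⟨lc T.dt (T.gW i₀), ⟨i₀, rfl⟩, ?_⟩
      rw [← Φ_gW]
      exact hψ _
    · right
      refine (ga_Nl D.T'' _).2 (D.nl _ ?_)
      rw [E_gW]
      exact (hgen _ (hnew i hr)).2
  · intro k
    have hc : (Polynomial.map ((lc D.T''.dt : Lam D.T''.dt →ₐ[ℚ] Lc D.T''.dt) :
        Lam D.T''.dt →+* Lc D.T''.dt) (D.τ z₀)).coeff k = lc D.T''.dt ((D.τ z₀).coeff k) :=
      Polynomial.coeff_map _ _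
    have hz1 : (D.τ z₀).coeff k ∈ D.T''.hz ((R₀ : ℤ) * f' - 1 - k * e') := by
      rcases (hz_iff T').1 hzz with h3 | ⟨m, hm, h3⟩
      · rw [h3, map_zero, Polynomial.coeff_zero]
        exact zero_mem _
      · rw [← hm]
        exact D.τ_hz m z₀ h3 k
    refine ⟨?_, ?_, ?_⟩
    · exact hc ▸ ga_lc_R D.T'' _ _
    · exact hc ▸ (ga_hm D.T'' _).2 ((hz_iff D.T'').1 hz1)
    · refine hc ▸ (ga_lv D.T'' _).2 fun j hj => ?_
      rw [← D.τ_p, hzp j hj, map_zero, Polynomial.coeff_zero]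
  · intro k
    have hc : ∀ k : ℕ, (Polynomial.map ((lc D.T''.dt : Lam D.T''.dt →ₐ[ℚ] Lc D.T''.dt) :
        Lam D.T''.dt →+* Lc D.T''.dt) (D.τ z₀)).coeff k = lc D.T''.dt ((D.τ z₀).coeff k) :=
      fun k => Polynomial.coeff_map _ _
    have hS : ∀ k : ℕ, (∑ i ∈ Finset.range N,
        Polynomial.C (D.k.Φ (φ i)) * Polynomial.X ^ i).coeff k = D.k.Φ (φ k) :=
      ssb_sum (fun i => D.k.Φ (φ i)) N (fun k hk => by rw [hφ0 k hk, map_zero])
    have hτ' : D.τ (T'.D z₀) = (∑ i ∈ Finset.range N,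
        Polynomial.C (D.k.Φ (φ i)) * Polynomial.X ^ i) ^ R₀ := by
      rw [hzD, ← hτ, ← map_pow D.τ]
      exact congrArg D.τ (map_pow h'.Φ _ _)
    have e1 : lc D.T''.dt (D.T''.D ((D.τ z₀).coeff k) +
        ((k + 1 : ℕ) : ℚ) • (D.k.Φ g₀ * (D.τ z₀).coeff (k + 1))) =
        lc D.T''.dt (((∑ i ∈ Finset.range N,
          Polynomial.C (D.k.Φ (φ i)) * Polynomial.X ^ i) ^ R₀).coeff k) := by
      rw [← D.τ_D z₀ k, hτ']
    have e2 := ssb_pow (A := (T.ga (fun n => h.Φ (lab n))).A)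
      (C := (D.T''.ga (fun m => D.k.Φ (h.Φ (lab m)))).A)
      (ψ.f : (T.ga (fun n => h.Φ (lab n))).A →+* (D.T''.ga (fun m => D.k.Φ (h.Φ (lab m)))).A)
      ((lc D.T''.dt : Lam D.T''.dt →ₐ[ℚ] Lc D.T''.dt) : Lam D.T''.dt →+* Lc D.T''.dt) Φ
      (∑ i ∈ Finset.range N, Polynomial.C (D.k.Φ (φ i)) * Polynomial.X ^ i)
      (fun k => by
        rw [hS k]
        exact (congrArg ψ.f (hφ2 k).symm).trans (hψ (φ k))) R₀ k
    refine Eq.trans ?_ (e1.trans e2.symm)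
    rw [map_add, map_smul, map_mul]
    have e3 : (D.T''.ga (fun m => D.k.Φ (h.Φ (lab m)))).D
        ((Polynomial.map ((lc D.T''.dt : Lam D.T''.dt →ₐ[ℚ] Lc D.T''.dt) :
          Lam D.T''.dt →+* Lc D.T''.dt) (D.τ z₀)).coeff k) =
        lc D.T''.dt (D.T''.D ((D.τ z₀).coeff k)) :=
      (congrArg _ (hc k)).trans (ga_D D.T'' _ _)
    rw [← hψ g₀, ← hc (k + 1)]
    exact congrArg (· + _) e3

end AnWL
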