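import Pool.Agent.Helper48.G2.One7
import Pool.Agent.Helper48.G2.EXTo
import Pool.Agent.Helper48.G2.SSb
import Pool.Agent.Helper79.G2.Col
import Pool.Agent.Helper84.G2.Mn

/-!
G2. The one-column theorem for all parameters, and the theorem for `LocallyPureMod`.
-/

set_option autoImplicit false

namespace AnWL
open Anick2

theorem KK_nontrivial {P : Par} (T₀ : TS P) (n₀ : ℕ) (lab : ℕ → Lam T₀.dt) :
    ∀ G ∈ KK T₀ n₀ lab, Nontrivial G.A := by
  rintro G ⟨T, h, -, rfl⟩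
  have := T.finT
  have h0 : (1 : Lam T.dt) ≠ 0 := by
    intro h1
    have h2 := congrArg (bd T.dt) h1
    rw [map_one, map_zero] at h2
    exact one_ne_zero h2
  refine ⟨lc T.dt 1, lc T.dt 0, fun h1 => h0 (lc_inj h1)⟩

/-- The one-column theorem. -/
theorem oneCol (P : Par) : OneCol P := by
  refine oneCol_of (fun P' T₀ n₀ hn₀ lab hlab => ?_) P
  have := P'.finM
  have := Fintype.ofFinite P'.M
  refine AnOC.col_of (fun j => ?_) (KK T₀ n₀ lab) (κ := n₀ + 2) (n₀ := n₀) (by omega)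
    (EXT_KK T₀ n₀ hn₀ lab hlab) (EXTo_KK T₀ n₀ hn₀ lab hlab) (fun ℓ => ?_)
    (IPos_KK T₀ n₀ lab) (KK_nontrivial T₀ n₀ lab)
  · have := P'.dm_odd j
    have h1 : 0 < P'.dm j := this.pos
    exact_mod_cast h1
  · rw [Nat.card_eq_fintype_card]
    exact SSb_KK T₀ n₀ hn₀ lab hlab ℓ

/-- Theorem `G_2`. -/
theorem main_pureMod (ι κ : Type) [Finite ι] [Finite κ] (deg : ι → ℕ) (deg' : κ → ℕ)
    (S : MinimalSullivan deg) (T : MinimalSullivan deg') (J : Lam deg' →ₐ[ℚ] Lam deg)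
    (hJ : EvenOnto S T J) (hT : T.LocallyPureMod) (n : ℕ) : S.GoodAt n :=
  main_permM oneCol ι κ deg deg' S T J hJ hT n

end AnWL
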