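import Pool.Agent.Helper48.G2.Adj
import Pool.Agent.Helper48.G2.Cls
import Pool.Agent.Helper48.WL.C03c

/-!
G2-C09. Shifted families: for `G : ℕ → Lam T.dt` (`G j = 0` for `j ≥ n`) and the closed even coordinate `λ = x_b` of `T.adj e 0`, the power series
`∑_k t^k ∑_j binom (j + k) k λ^j G_{j+k}` (= `G (λ + t)`).

`sh_D`: `D (λ^j inc a) = λ^j inc (D a)` (`adj_xb` with `g = 0`); `(k + 1) binom (j + k + 1) (k + 1) = (j + k + 1) binom (j + k) k` (`Nat.succ_mul_choose_eq`). The sums for `k + 1` run over `j < n` too: the term is zero for `j + k + 1 ≥ n`. `sh_p`: `p_s λ = 0`, `λ` even central.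
`sh_dich`: if `bd (G j) = 0` for all `j`, then each `G j` is nilpotent (`bd_nil`, `T.finT`), so each coefficient `lc (sh ..)` is nilpotent (a sum of commuting nilpotent elements: all are even, hence central: `Commute.isNilpotent_sum`); a power series with finitely many nonzero
coefficients, all central and nilpotent, is nilpotent (finite sum of `C a * X^k`). Otherwise `bd (sh G n 0) = ∑_j X_λ^j rename (bd (G j)) ≠ 0` (the variable `λ` does not occur in `rename (bd (G j))`; e.g. the algebra map to `Polynomial (MvPolynomial (letters of T) ℚ)`), so `lc (sh G n 0)` is a unit (`lc_unit`).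
`wd_sh`: induction on the list from `sh_dx`, `sh_fr`, `ga_pd`.
-/

set_option autoImplicit false

namespace AnWL
open Anick2
variable {P : Par}

/-- `T` with a closed even coordinate `λ`. -/
noncomputable def TS.lam (T : TS P) (e : ℕ) (he : Even e) (h2 : 2 ≤ e) : TS (P.adj e he h2) :=
  T.adj e he h2 0 (zero_mem _) (map_zero _) (zero_mem _)

section
variable (T : TS P) (e : ℕ) (he : Even e) (h2 : 2 ≤ e)

/-- The coefficients of the shifted family. -/
noncomputable def sh (G : ℕ → Lam T.dt) (n k : ℕ) : Lam (dA T e he h2) :=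
  ∑ j ∈ Finset.range n, (((j + k).choose k : ℕ) : ℚ) •
    (xb T e he h2 ^ j * inc T e he h2 (G (j + k)))

private noncomputable def shDd : Lam (dA T e he h2) →ₗ[ℚ] Lam (dA T e he h2) :=
  (T.lam e he h2).D

private noncomputable def shPd (s : P.M) : Lam (dA T e he h2) →ₗ[ℚ] Lam (dA T e he h2) :=
  (T.lam e he h2).p s

private theorem sh_sgnx : sgn (dA T e he h2) (xb T e he h2) = xb T e he h2 :=
  sgn_gen_even (deg := dA T e he h2) (i := Sum.inr (Sum.inl none)) he

private theorem sh_sgnxp (j : ℕ) :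
    sgn (dA T e he h2) (xb T e he h2 ^ j) = xb T e he h2 ^ j := by
  rw [map_pow, sh_sgnx]

private theorem sh_comm (j : ℕ) (b : Lam (dA T e he h2)) :
    xb T e he h2 ^ j * b = b * xb T e he h2 ^ j := even_comm (sh_sgnxp T e he h2 j) b

private theorem sh_Dx (j : ℕ) (b : Lam (dA T e he h2)) :
    shDd T e he h2 (xb T e he h2 ^ j * b) = xb T e he h2 ^ j * shDd T e he h2 b := by
  have h0 : shDd T e he h2 (xb T e he h2) = 0 :=
    (adj_xb T e he h2 0 (zero_mem _) (map_zero _) (zero_mem _)).trans (map_zero _)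
  induction j with
  | zero => rw [pow_zero, one_mul, one_mul]
  | succ j ih =>
    have h1 : shDd T e he h2 (xb T e he h2 * (xb T e he h2 ^ j * b)) =
        shDd T e he h2 (xb T e he h2) * (xb T e he h2 ^ j * b) +
          sgn (dA T e he h2) (xb T e he h2) * shDd T e he h2 (xb T e he h2 ^ j * b) :=
      (T.lam e he h2).leib _ _
    rw [pow_succ', mul_assoc, h1, h0, zero_mul, zero_add, sh_sgnx, ih, ← mul_assoc]

private theorem sh_Di (a : Lam T.dt) :
    shDd T e he h2 (inc T e he h2 a) = inc T e he h2 (T.D a) :=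
  adj_D T e he h2 0 (zero_mem _) (map_zero _) (zero_mem _) a

private theorem sh_px (j : ℕ) (s : P.M) (b : Lam (dA T e he h2)) :
    shPd T e he h2 s (xb T e he h2 ^ j * b) = xb T e he h2 ^ j * shPd T e he h2 s b := by
  have h0 : shPd T e he h2 s (xb T e he h2) = 0 :=
    adj_p_xb T e he h2 0 (zero_mem _) (map_zero _) (zero_mem _) s
  induction j with
  | zero => rw [pow_zero, one_mul, one_mul]
  | succ j ih =>
    have h1 : shPd T e he h2 s (xb T e he h2 * (xb T e he h2 ^ j * b)) =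
        shPd T e he h2 s (xb T e he h2) * (xb T e he h2 ^ j * b) +
          sgn (dA T e he h2) (xb T e he h2) * shPd T e he h2 s (xb T e he h2 ^ j * b) :=
      pdv_mul ((T.lam e he h2).odd s) _ _
    rw [pow_succ', mul_assoc, h1, h0, zero_mul, zero_add, sh_sgnx, ih, ← mul_assoc]

private theorem sh_pi (s : P.M) (a : Lam T.dt) :
    shPd T e he h2 s (inc T e he h2 a) = inc T e he h2 (T.p s a) :=
  inc_p T e he h2 0 (zero_mem _) (map_zero _) (zero_mem _) s a

private theorem sh_ch (j k : ℕ) :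
    ((k + 1 : ℕ) : ℚ) * (((j + (k + 1)).choose (k + 1) : ℕ) : ℚ) =
      (((j + k).choose k : ℕ) : ℚ) * ((j + k + 1 : ℕ) : ℚ) := by
  have h := Nat.add_one_mul_choose_eq (j + k) k
  have h2 : ((j + k + 1 : ℕ) : ℚ) * (((j + k).choose k : ℕ) : ℚ) =
      (((j + k + 1).choose (k + 1) : ℕ) : ℚ) * ((k + 1 : ℕ) : ℚ) := by
    exact_mod_cast h
  rw [← add_assoc, mul_comm, ← h2, mul_comm]

private theorem sh_mulA (G : ℕ → Lam T.dt) (n : ℕ) (r : Lam T.dt) (k : ℕ) :
    inc T e he h2 r * sh T e he h2 G n k = sh T e he h2 (fun i => r * G i) n k := by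
  unfold sh
  refine (Finset.mul_sum _ _ _).trans ?_
  refine Finset.sum_congr rfl fun i _ => ?_
  rw [mul_smul_comm, map_mul, ← mul_assoc, ← sh_comm, mul_assoc]

private theorem sh_dxA (G : ℕ → Lam T.dt) (n : ℕ) (k : ℕ) :
    ((k + 1 : ℕ) : ℚ) • sh T e he h2 G n (k + 1) =
      sh T e he h2 (fun j => ((j + 1 : ℕ) : ℚ) • G (j + 1)) n k := by
  unfold sh
  rw [Finset.smul_sum]
  refine Finset.sum_congr rfl fun j _ => ?_
  rw [smul_smul, sh_ch, map_smul, mul_smul_comm, smul_smul]
  rfl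

private theorem sh_DA (G : ℕ → Lam T.dt) (n k : ℕ) :
    shDd T e he h2 (sh T e he h2 G n k) = sh T e he h2 (fun i => T.D (G i)) n k := by
  unfold sh
  rw [map_sum]
  refine Finset.sum_congr rfl fun i _ => ?_
  rw [map_smul, sh_Dx, sh_Di]

private theorem sh_negA (G : ℕ → Lam T.dt) (n k : ℕ) :
    sh T e he h2 (fun i => -G i) n k = -sh T e he h2 G n k := by
  unfold sh
  refine Eq.trans ?_ (Finset.sum_neg_distrib _)
  refine Finset.sum_congr rfl fun i _ => ?_
  rw [map_neg, mul_neg, smul_neg]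

theorem sh_zero (G : ℕ → Lam T.dt) {n k : ℕ} (hn : ∀ j, n ≤ j → G j = 0) (hk : n ≤ k) :
    sh T e he h2 G n k = 0 := by
  unfold sh
  refine Finset.sum_eq_zero fun j _ => ?_
  rw [hn (j + k) (by omega), map_zero, mul_zero, smul_zero]

theorem sh_D (G : ℕ → Lam T.dt) (n : ℕ) (hn : ∀ j, n ≤ j → G j = 0) (q : Lam T.dt)
    (hG : ∀ j, T.D (G j) = -(((j + 1 : ℕ) : ℚ) • (q * G (j + 1)))) (k : ℕ) :
    (T.lam e he h2).D (sh T e he h2 G n k) =
      -(((k + 1 : ℕ) : ℚ) • (inc T e he h2 q * sh T e he h2 G n (k + 1))) := by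
  rw [sh_mulA, sh_dxA, ← sh_negA]
  refine (sh_DA T e he h2 G n k).trans ?_
  exact congrArg (fun H => sh T e he h2 H n k) (funext hG)

theorem sh_hz (G : ℕ → Lam T.dt) (n : ℕ) (f : ℤ) (hG : ∀ j : ℕ, G j ∈ T.hz (f - j * e)) (k : ℕ) :
    sh T e he h2 G n k ∈ (T.lam e he h2).hz (f - k * e) := by
  unfold sh
  refine Submodule.sum_mem _ fun j _ => Submodule.smul_mem _ _ ?_
  have hx : xb T e he h2 ∈ (T.lam e he h2).hz e :=
    hz_of_hom (T.lam e he h2) (gen_mem_hom (dA T e he h2) (Sum.inr (Sum.inl none)))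
  have hi : inc T e he h2 (G (j + k)) ∈ (T.lam e he h2).hz (f - ((j + k : ℕ) : ℤ) * e) := by
    rcases (hz_iff T).1 (hG (j + k)) with h | ⟨n, hn, h⟩
    · rw [h, map_zero]; exact zero_mem _
    · rw [← hn]
      exact hz_of_hom (T.lam e he h2) (inc_hom T e he h2 h)
  have h := hz_mul (T.lam e he h2) (hz_pow (T.lam e he h2) hx j) hi
  have e1 : (j : ℤ) * (e : ℤ) + (f - ((j + k : ℕ) : ℤ) * e) = f - k * e := by
    push_cast
    ring
  rwa [e1] at h

theorem sh_SP (G : ℕ → Lam T.dt) (n : ℕ) (hG : ∀ j, G j ∈ SP T.dt (fun l => 1 ≤ cW l)) (k : ℕ) :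
    sh T e he h2 G n k ∈ SP (dA T e he h2) (fun l => 1 ≤ cW l) := by
  unfold sh
  refine Submodule.sum_mem _ fun j _ => Submodule.smul_mem _ _ ?_
  have h := SP_mul_left (SP_zero_top (dA T e he h2) (xb T e he h2 ^ j))
    (inc_SP T e he h2 (hG (j + k)))
  rwa [zero_add] at h

/-- `(k + 1) sh G (k + 1) = sh G' k` for `G'_j = (j + 1) G_{j+1}`. -/
theorem sh_dx (G : ℕ → Lam T.dt) (n : ℕ) (hn : ∀ j, n ≤ j → G j = 0) (k : ℕ) :
    ((k + 1 : ℕ) : ℚ) • sh T e he h2 G n (k + 1) =
      sh T e he h2 (fun j => ((j + 1 : ℕ) : ℚ) • G (j + 1)) n k := by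
  exact sh_dxA T e he h2 G n k

theorem sh_p (G : ℕ → Lam T.dt) (n : ℕ) (j : P.M) (k : ℕ) :
    (T.lam e he h2).p j (sh T e he h2 G n k) = sh T e he h2 (fun i => T.p j (G i)) n k := by
  change shPd T e he h2 j (sh T e he h2 G n k) = _
  unfold sh
  rw [map_sum]
  refine Finset.sum_congr rfl fun i _ => ?_
  rw [map_smul, sh_px, sh_pi]

theorem sh_mul (G : ℕ → Lam T.dt) (n : ℕ) (r : Lam T.dt) (k : ℕ) :
    inc T e he h2 r * sh T e he h2 G n k = sh T e he h2 (fun i => r * G i) n k := by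
  exact sh_mulA T e he h2 G n r k

theorem sh_add (G G' : ℕ → Lam T.dt) (n k : ℕ) :
    sh T e he h2 G n k + sh T e he h2 G' n k = sh T e he h2 (fun i => G i + G' i) n k := by
  unfold sh
  rw [← Finset.sum_add_distrib]
  refine Finset.sum_congr rfl fun i _ => ?_
  rw [map_add, mul_add, smul_add]

/-- The shifted power series. -/
noncomputable def shS (G : ℕ → Lam T.dt) (n : ℕ) : PowerSeries (Lc (dA T e he h2)) :=
  PowerSeries.mk fun k => lc (dA T e he h2) (sh T e he h2 G n k)

/-- The words on families. -/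
noncomputable def wdG (ρ : P.M → Lam T.dt) : List (Option P.M) → (ℕ → Lam T.dt) → ℕ → Lam T.dt
  | [], G => G
  | none :: l, G => fun j => ((j + 1 : ℕ) : ℚ) • wdG ρ l G (j + 1)
  | some s :: l, G => fun j => T.p s (wdG ρ l G j) +
      ρ s * (((j + 1 : ℕ) : ℚ) • wdG ρ l G (j + 1))

theorem wdG_zero (ρ : P.M → Lam T.dt) (w : List (Option P.M)) (G : ℕ → Lam T.dt) {n : ℕ}
    (hn : ∀ j, n ≤ j → G j = 0) (j : ℕ) (hj : n ≤ j) : wdG T ρ w G j = 0 := by
  induction w generalizing j with
  | nil => exact hn j hj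
  | cons o l ih =>
    rcases o with _ | s
    · change ((j + 1 : ℕ) : ℚ) • wdG T ρ l G (j + 1) = 0
      rw [ih (j + 1) (by omega), smul_zero]
    · change T.p s (wdG T ρ l G j) + ρ s * (((j + 1 : ℕ) : ℚ) • wdG T ρ l G (j + 1)) = 0
      rw [ih j hj, ih (j + 1) (by omega), map_zero, smul_zero, mul_zero, add_zero]

theorem wdG_sgn (ρ : P.M → Lam T.dt) (hρ : ∀ s, sgn T.dt (ρ s) = -ρ s) (w : List (Option P.M))
    (G : ℕ → Lam T.dt) (hG : ∀ j, sgn T.dt (G j) = G j) (j : ℕ) :
    sgn T.dt (wdG T ρ w G j) = (-1 : ℚ) ^ (w.countP Option.isSome) • wdG T ρ w G j := by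
  induction w generalizing j with
  | nil =>
    change sgn T.dt (G j) = (-1 : ℚ) ^ 0 • G j
    rw [hG, pow_zero, one_smul]
  | cons o l ih =>
    rcases o with _ | s
    · have h1 : ((none : Option P.M) :: l).countP Option.isSome = l.countP Option.isSome := rfl
      rw [h1]
      change sgn T.dt (((j + 1 : ℕ) : ℚ) • wdG T ρ l G (j + 1)) =
        _ • (((j + 1 : ℕ) : ℚ) • wdG T ρ l G (j + 1))
      rw [map_smul, ih, smul_comm]
    · have h1 : (some s :: l).countP Option.isSome = l.countP Option.isSome + 1 := by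
        rw [List.countP_cons]
        rfl
      rw [h1]
      change sgn T.dt (T.p s (wdG T ρ l G j) +
        ρ s * (((j + 1 : ℕ) : ℚ) • wdG T ρ l G (j + 1))) =
        _ • (T.p s (wdG T ρ l G j) + ρ s * (((j + 1 : ℕ) : ℚ) • wdG T ρ l G (j + 1)))
      have h2 : sgn T.dt (T.p s (wdG T ρ l G j)) = -T.p s (sgn T.dt (wdG T ρ l G j)) :=
        sgn_pdv (T.odd s) _
      have h5 : ∀ x : Lam T.dt, (-1 : ℚ) • x = -x := fun x => by
        rw [Algebra.smul_def, map_neg, map_one, neg_one_mul]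
      rw [map_add, map_mul, map_smul, h2, hρ, ih, ih, map_smul, pow_succ, mul_smul, h5,
        smul_neg, smul_add, neg_add, neg_mul]
      congr 2
      rw [smul_comm, mul_smul_comm]

private noncomputable def shPc (lab : ℕ → Lam (T.lam e he h2).dt) (s : P.M) :
    Lc (dA T e he h2) →ₗ[ℚ] Lc (dA T e he h2) := ((T.lam e he h2).ga lab).pd s

private theorem shPc_lc (lab : ℕ → Lam (T.lam e he h2).dt) (s : P.M) (G : ℕ → Lam T.dt)
    (n k : ℕ) : shPc T e he h2 lab s (lc (dA T e he h2) (sh T e he h2 G n k)) =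
      lc (dA T e he h2) (sh T e he h2 (fun i => T.p s (G i)) n k) :=
  (ga_pd (T.lam e he h2) lab s _).trans
    (congrArg (lc (dA T e he h2)) (sh_p T e he h2 G n s k))

private noncomputable def shW (ρ : P.M → Lam T.dt) (lab : ℕ → Lam (T.lam e he h2).dt)
    (w : List (Option P.M)) (F : PowerSeries (Lc (dA T e he h2))) :
    PowerSeries (Lc (dA T e he h2)) :=
  ((T.lam e he h2).ga lab).wd (fun s => lc (dA T e he h2) (inc T e he h2 (ρ s))) w F

theorem wd_shS (ρ : P.M → Lam T.dt) (w : List (Option P.M)) (G : ℕ → Lam T.dt) (n : ℕ)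
    (hn : ∀ j, n ≤ j → G j = 0) (lab : ℕ → Lam (T.lam e he h2).dt) :
    ((T.lam e he h2).ga lab).wd (fun s => lc (dA T e he h2) (inc T e he h2 (ρ s))) w
      (shS T e he h2 G n) = shS T e he h2 (wdG T ρ w G) n := by
  induction w with
  | nil => rfl
  | cons o l ih =>
    have hz := fun i hi => wdG_zero T ρ l G hn i hi
    have hdx : psdx (Lc (dA T e he h2)) (shS T e he h2 (wdG T ρ l G) n) =
        shS T e he h2 (fun j => ((j + 1 : ℕ) : ℚ) • wdG T ρ l G (j + 1)) n := by
      ext k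
      rw [coeff_psdx]
      unfold shS
      rw [PowerSeries.coeff_mk, PowerSeries.coeff_mk, ← map_smul,
        sh_dx T e he h2 (wdG T ρ l G) n hz k]
    have ih' : shW T e he h2 ρ lab l (shS T e he h2 G n) = shS T e he h2 (wdG T ρ l G) n := ih
    rcases o with _ | s
    · change psdx (Lc (dA T e he h2)) (shW T e he h2 ρ lab l (shS T e he h2 G n)) = _
      rw [ih', hdx]
      rfl
    · change psL (shPc T e he h2 lab s) (shW T e he h2 ρ lab l (shS T e he h2 G n)) +
        PowerSeries.C (lc (dA T e he h2) (inc T e he h2 (ρ s))) *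
          psdx (Lc (dA T e he h2)) (shW T e he h2 ρ lab l (shS T e he h2 G n)) = _
      rw [ih', hdx]
      ext k
      unfold shS
      rw [map_add, coeff_psL, PowerSeries.coeff_C_mul, PowerSeries.coeff_mk, PowerSeries.coeff_mk,
        PowerSeries.coeff_mk, shPc_lc, ← map_mul, sh_mul, ← map_add, sh_add]
      rfl

private theorem sh_even (G : ℕ → Lam T.dt) (n : ℕ) (hG : ∀ j, sgn T.dt (G j) = G j) (k : ℕ) :
    sgn (dA T e he h2) (sh T e he h2 G n k) = sh T e he h2 G n k := by
  unfold sh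
  rw [map_sum]
  refine Finset.sum_congr rfl fun j _ => ?_
  rw [map_smul, map_mul, sh_sgnxp, inc_sgn, hG]

private theorem sh_bd (G : ℕ → Lam T.dt) (n k : ℕ) :
    bd (dA T e he h2) (sh T e he h2 G n k) =
      ∑ j ∈ Finset.range n, (((j + k).choose k : ℕ) : ℚ) •
        (MvPolynomial.X (Sum.inr (Sum.inl none)) ^ j *
          MvPolynomial.rename (Sum.map id (Sum.map some id)) (bd T.dt (G (j + k)))) := by
  unfold sh
  rw [map_sum]
  refine Finset.sum_congr rfl fun j _ => ?_
  have h1 : bd (dA T e he h2) (xb T e he h2) = MvPolynomial.X (Sum.inr (Sum.inl none)) :=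
    bd_even (δ := dA T e he h2) (i := Sum.inr (Sum.inl none)) he
  have h3 : bd (dA T e he h2) (inc T e he h2 (G (j + k))) =
      MvPolynomial.rename (Sum.map id (Sum.map some id)) (bd T.dt (G (j + k))) :=
    bd_mapL _ _ _
  rw [map_smul, map_mul, map_pow, h1, h3]
  rfl

/-- The letters of `T` as constants, `λ` as the variable. -/
private noncomputable def sh_q : T.ι ⊕ (Option P.U ⊕ P.M) →
    Polynomial (MvPolynomial (T.ι ⊕ (P.U ⊕ P.M)) ℚ) :=
  Sum.elim (fun i => Polynomial.C (MvPolynomial.X (Sum.inl i)))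
    (Sum.elim (fun u => Option.elim u Polynomial.X
      (fun u => Polynomial.C (MvPolynomial.X (Sum.inr (Sum.inl u)))))
      (fun j => Polynomial.C (MvPolynomial.X (Sum.inr (Sum.inr j)))))

private theorem sh_qr (p : MvPolynomial (T.ι ⊕ (P.U ⊕ P.M)) ℚ) :
    MvPolynomial.aeval (sh_q T) (MvPolynomial.rename (Sum.map id (Sum.map some id)) p) =
      Polynomial.C p := by
  rw [MvPolynomial.aeval_rename]
  have h1 : (MvPolynomial.aeval (sh_q T ∘ Sum.map id (Sum.map some id)) :
      MvPolynomial (T.ι ⊕ (P.U ⊕ P.M)) ℚ →ₐ[ℚ] _) =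
      (Polynomial.CAlgHom : MvPolynomial (T.ι ⊕ (P.U ⊕ P.M)) ℚ →ₐ[ℚ] _) := by
    refine MvPolynomial.algHom_ext fun x => ?_
    rw [MvPolynomial.aeval_X]
    rcases x with i | u | j <;> rfl
  rw [h1]
  rfl

private theorem sh_ne {n : ℕ} {G : ℕ → Lam T.dt} (hb : ∃ j, bd T.dt (G j) ≠ 0)
    (hn : ∀ j, n ≤ j → bd T.dt (G j) = 0) :
    ∑ j ∈ Finset.range n, (((j + 0).choose 0 : ℕ) : ℚ) •
        ((MvPolynomial.X (Sum.inr (Sum.inl none)) :
          MvPolynomial (T.ι ⊕ (Option P.U ⊕ P.M)) ℚ) ^ j *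
          MvPolynomial.rename (Sum.map id (Sum.map some id)) (bd T.dt (G (j + 0)))) ≠ 0 := by
  obtain ⟨j, hj⟩ := hb
  have hjn : j < n := by
    by_contra h
    exact hj (hn j (by omega))
  intro h0
  have h1 := congrArg (MvPolynomial.aeval (sh_q T)) h0
  rw [map_zero, map_sum] at h1
  have h2 := congrArg (fun r => Polynomial.coeff r j) h1
  rw [Polynomial.coeff_zero, Polynomial.finsetSum_coeff] at h2
  have h3 : ∀ i, Polynomial.coeff ((MvPolynomial.aeval (sh_q T)) ((((i + 0).choose 0 : ℕ) : ℚ) •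
        ((MvPolynomial.X (Sum.inr (Sum.inl none)) :
          MvPolynomial (T.ι ⊕ (Option P.U ⊕ P.M)) ℚ) ^ i *
          MvPolynomial.rename (Sum.map id (Sum.map some id)) (bd T.dt (G (i + 0)))))) j =
      if j = i then bd T.dt (G i) else 0 := by
    intro i
    have h4 : MvPolynomial.aeval (sh_q T) (MvPolynomial.X (Sum.inr (Sum.inl none)) :
        MvPolynomial (T.ι ⊕ (Option P.U ⊕ P.M)) ℚ) = Polynomial.X := by
      rw [MvPolynomial.aeval_X]
      rfl
    rw [Nat.choose_zero_right, Nat.cast_one, one_smul, map_mul, map_pow, h4, sh_qr, mul_comm,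
      Polynomial.coeff_C_mul_X_pow]
    rfl
  rw [Finset.sum_congr rfl fun i _ => h3 i, Finset.sum_eq_single_of_mem j
    (Finset.mem_range.2 hjn)] at h2
  · rw [if_pos rfl] at h2
    exact hj h2
  · intro i _ hi
    rw [if_neg (Ne.symm hi)]

theorem shS_dich (G : ℕ → Lam T.dt) (n : ℕ) (hn : ∀ j, n ≤ j → G j = 0)
    (hG : ∀ j, sgn T.dt (G j) = G j) :
    IsNilpotent (shS T e he h2 G n) ∨ IsUnit (PowerSeries.coeff 0 (shS T e he h2 G n)) := by
  have hS := sh_even T e he h2 G n hG
  by_cases hb : ∀ j, bd T.dt (G j) = 0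
  · left
    have hfin : Finite (T.ι ⊕ ((P.adj e he h2).U ⊕ (P.adj e he h2).M)) := (T.lam e he h2).finT
    have hnil : ∀ k, IsNilpotent (sh T e he h2 G n k) := by
      intro k
      refine bd_nil (δ := dA T e he h2) ?_
      rw [sh_bd]
      refine Finset.sum_eq_zero fun j _ => ?_
      rw [hb, map_zero, mul_zero]
      exact smul_zero (A := MvPolynomial (T.ι ⊕ (Option P.U ⊕ P.M)) ℚ) _
    have hcen : ∀ k (y : Lc (dA T e he h2)), lc (dA T e he h2) (sh T e he h2 G n k) * y =
        y * lc (dA T e he h2) (sh T e he h2 G n k) := by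
      intro k y
      refine lc_even_comm ?_ y
      rw [lcs_lc, hS]
    have hsum : shS T e he h2 G n = ∑ k ∈ Finset.range n,
        PowerSeries.C (lc (dA T e he h2) (sh T e he h2 G n k)) * PowerSeries.X ^ k := by
      ext k
      rw [map_sum]
      unfold shS
      rw [PowerSeries.coeff_mk]
      by_cases hk : k < n
      · rw [Finset.sum_eq_single_of_mem k (Finset.mem_range.2 hk)]
        · rw [PowerSeries.coeff_C_mul_X_pow, if_pos rfl]
        · intro i _ hi
          rw [PowerSeries.coeff_C_mul_X_pow, if_neg (Ne.symm hi)]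
      · rw [sh_zero T e he h2 G hn (by omega), map_zero]
        refine (Finset.sum_eq_zero fun i hi => ?_).symm
        have := Finset.mem_range.1 hi
        rw [PowerSeries.coeff_C_mul_X_pow, if_neg (by omega)]
    have hcen2 : ∀ k (y : PowerSeries (Lc (dA T e he h2))),
        Commute (PowerSeries.C (lc (dA T e he h2) (sh T e he h2 G n k)) * PowerSeries.X ^ k) y := by
      intro k y
      refine Commute.mul_left ?_ (PowerSeries.commute_X_pow y k).symm
      change PowerSeries.C _ * y = y * PowerSeries.C _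
      ext m
      rw [PowerSeries.coeff_C_mul, PowerSeries.coeff_mul_C, hcen]
    rw [hsum]
    refine Commute.isNilpotent_sum (fun k _ => ?_) (fun i j _ _ => hcen2 i _)
    refine Commute.isNilpotent_mul_right (PowerSeries.commute_X_pow _ k) ?_
    exact ((hnil k).map (lc (dA T e he h2))).map (PowerSeries.C (R := Lc (dA T e he h2)))
  · right
    push Not at hb
    unfold shS
    rw [PowerSeries.coeff_mk]
    refine lc_unit ⟨hS 0, ?_⟩
    rw [sh_bd]
    exact sh_ne T hb (fun j hj => by rw [hn j hj, map_zero])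

end

end AnWL
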