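import Pool.Agent.Helper98.G2.Stat
import Pool.Agent.Helper48.WL.C08l

/-!
G2-Wt. `LocallyPureMod` from weights of the generators.

Weights `w`, a constant `e`, all words in `d (gen i)` have weight at most `w i + e`. Even letters have weight `≥ a`, all letters
weight `≥ c / 2` and `≥ e`, `2 e ≤ c ≤ a`. Then `O = {odd, w + e < a + c}`,
`A = {even, w + 2 e < 2 a + c} ∪ {odd, w + 3 e < 2 a + 2 c}` is `PureMod`, and `d t` is in the ideal generated by `A` if `t` is even
and `w t + 6 e < 4 a + 3 c`. Applications: `w = deg`, `e = 1`; and `e = 0`, `a = c = 1` (nilpotency class at most six).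
-/

set_option autoImplicit false

namespace AnWL
open Anick2

section
variable {ι : Type} (deg : ι → ℕ) (w : ι → ℕ)

private theorem wt_odd {l : List ι} (h : Odd (degSum deg l)) : ∃ x ∈ l, Odd (deg x) := by
  induction l with
  | nil =>
    exfalso
    have h0 : degSum deg ([] : List ι) = 0 := rfl
    rw [h0] at h
    exact (Nat.not_odd_iff_even.2 Even.zero) h
  | cons x l ih =>
    have h0 : degSum deg (x :: l) = deg x + degSum deg l := by simp [degSum]
    rw [h0] at h
    by_cases hx : Odd (deg x)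
    · exact ⟨x, List.mem_cons_self, hx⟩
    · have h1 : Even (deg x) := Nat.not_odd_iff_even.1 hx
      have h2 : Odd (degSum deg l) := by
        by_contra h3
        exact (Nat.not_odd_iff_even.2 (h1.add (Nat.not_odd_iff_even.1 h3))) h
      obtain ⟨y, hy, hy'⟩ := ih h2
      exact ⟨y, List.mem_cons_of_mem _ hy, hy'⟩

private theorem wt_split {l : List ι} {x : ι} (hx : x ∈ l) :
    ∃ r : List ι, degSum deg l = deg x + degSum deg r ∧ (l.map w).sum = w x + (r.map w).sum ∧
      l.length = r.length + 1 ∧ ∀ y ∈ r, y ∈ l := by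
  obtain ⟨s, t, rfl⟩ := List.append_of_mem hx
  refine ⟨s ++ t, ?_, ?_, ?_, ?_⟩
  · simp only [degSum, List.map_append, List.map_cons, List.sum_append, List.sum_cons]
    omega
  · simp only [List.map_append, List.map_cons, List.sum_append, List.sum_cons]
    omega
  · simp only [List.length_append, List.length_cons]
    omega
  · intro y hy
    rcases List.mem_append.1 hy with h | h
    · exact List.mem_append.2 (Or.inl h)
    · exact List.mem_append.2 (Or.inr (List.mem_cons_of_mem _ h))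

private theorem wt_le {l : List ι} {x : ι} (hx : x ∈ l) : w x ≤ (l.map w).sum := by
  obtain ⟨r, -, h, -⟩ := wt_split w w hx
  omega

/-- A nonempty word of even degree has an even letter or two odd letters. -/
private theorem wt_even {r : List ι} (hr : 1 ≤ r.length) (he : Even (degSum deg r)) {α β : ℕ}
    (hα : ∀ x ∈ r, Even (deg x) → α ≤ w x) (hβ : ∀ x ∈ r, Odd (deg x) → β ≤ w x) :
    α ≤ (r.map w).sum ∨ 2 * β ≤ (r.map w).sum := by
  rcases r with _ | ⟨x, r⟩
  · simp at hr
  · have h0 : degSum deg (x :: r) = deg x + degSum deg r := by simp [degSum]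
    have h1 : ((x :: r).map w).sum = w x + (r.map w).sum := by simp
    rw [h0] at he
    rw [h1]
    rcases Nat.even_or_odd (deg x) with hx | hx
    · have := hα x List.mem_cons_self hx
      left
      omega
    · have h2 : Odd (degSum deg r) := by
        by_contra h3
        exact (Nat.not_even_iff_odd.2 (hx.add_even (Nat.not_odd_iff_even.1 h3))) he
      obtain ⟨y, hy, hy'⟩ := wt_odd deg h2
      have h3 := hβ x List.mem_cons_self hx
      have h4 := hβ y (List.mem_cons_of_mem _ hy) hy'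
      have h5 := wt_le w hy
      right
      omega

end

section
variable {ι : Type} (deg : ι → ℕ) (w : ι → ℕ) (e a c : ℕ)

private def wA : Set ι := {i | (Even (deg i) ∧ w i + 2 * e < 2 * a + c) ∨
  (Odd (deg i) ∧ w i + 3 * e < 2 * a + 2 * c)}

private def wO : Set ι := {i | Odd (deg i) ∧ w i + e < a + c}

/-- The bounds. -/
private structure WB : Prop where
  hca : c ≤ a
  hec : 2 * e ≤ c
  ha : ∀ i, Even (deg i) → a ≤ w i
  hc : ∀ i, c ≤ 2 * w i
  he : ∀ i, e ≤ w i

variable {deg w e a c}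

private theorem wb_rest (h : WB deg w e a c) {r : List ι} (hr : 1 ≤ r.length)
    (hr' : Even (degSum deg r)) : c ≤ (r.map w).sum := by
  have h1 : ∀ i, (c + 1) / 2 ≤ w i := fun i => by
    have := h.hc i
    omega
  have h0 := h.hca
  rcases wt_even deg w hr hr' (fun x _ hx => h.ha x hx) (fun x _ _ => h1 x) with h | h
  · omega
  · omega

private theorem wb_rest' (h : WB deg w e a c) {r : List ι} (hr : 1 ≤ r.length) :
    e ≤ (r.map w).sum := by
  rcases r with _ | ⟨x, r⟩
  · simp at hr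
  · have h1 := h.he x
    have h2 := wt_le w (l := x :: r) (x := x) List.mem_cons_self
    omega

private theorem par1 {x y : ℕ} (h : Even (x + y)) (h' : Even x) : Even y := (Nat.even_add.1 h).1 h'

private theorem par2 {x y : ℕ} (h : Even (x + y)) (h' : Odd x) : Odd y := by
  by_contra h3
  exact (Nat.not_even_iff_odd.2 (h'.add_even (Nat.not_odd_iff_even.1 h3))) h

private theorem par3 {x y : ℕ} (h : Odd (x + y)) (h' : Odd x) : Even y := by
  by_contra h3
  exact (Nat.not_odd_iff_even.2 (h'.add_odd (Nat.not_even_iff_odd.1 h3))) h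

/-- The letters of `O`. -/
private theorem wb_O (h : WB deg w e a c) {n : ℕ} {l : List ι} (hn : n + e < a + c)
    (h1 : (l.map w).sum ≤ n + e) (h2 : 2 ≤ l.length) (h3 : Even (degSum deg l)) :
    ∀ j ∈ l, j ∈ wO deg w e a c := by
  intro j hj
  obtain ⟨r, hr1, hr2, hr3, -⟩ := wt_split deg w hj
  have hr4 := wb_rest' h (r := r) (by omega)
  rw [hr1] at h3
  rcases Nat.even_or_odd (deg j) with hx | hx
  · exfalso
    have h4 := wb_rest h (r := r) (by omega) (par1 h3 hx)
    have h5 := h.ha j hx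
    omega
  · exact ⟨hx, by omega⟩

/-- Even letters of `A`. -/
private theorem wb_A1 (h : WB deg w e a c) {n : ℕ} {l : List ι} (hn : n + 2 * e < 2 * a + c)
    (h1 : (l.map w).sum ≤ n + e) (h2 : 2 ≤ l.length) (h3 : Odd (degSum deg l)) :
    (∀ j ∈ l, j ∈ wA deg w e a c) ∧ ∃ j ∈ l, j ∈ wO deg w e a c := by
  have b1 := h.hca
  have b2 := h.hec
  refine ⟨fun j hj => ?_, ?_⟩
  · obtain ⟨r, hr1, hr2, hr3, -⟩ := wt_split deg w hj
    have hr4 := wb_rest' h (r := r) (by omega)
    rcases Nat.even_or_odd (deg j) with hx | hx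
    · exact Or.inl ⟨hx, by omega⟩
    · exact Or.inr ⟨hx, by omega⟩
  · by_contra hcon
    have hno : ∀ j ∈ l, Odd (deg j) → a + c ≤ w j + e := by
      intro j hj hjo
      by_contra h4
      exact hcon ⟨j, hj, hjo, by omega⟩
    obtain ⟨y, hy, hyo⟩ := wt_odd deg h3
    obtain ⟨r, hr1, hr2, hr3, hr4⟩ := wt_split deg w hy
    have h5 := hno y hy hyo
    rw [hr1] at h3
    have h6 : Even (degSum deg r) := par3 h3 hyo
    rcases wt_even deg w (by omega) h6 (fun x _ hx => h.ha x hx)
      (β := a + c - e) (fun x hx hxo => by have := hno x (hr4 x hx) hxo; omega) with h7 | h7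
    · omega
    · omega

/-- Odd letters of `A`. -/
private theorem wb_A2 (h : WB deg w e a c) {n : ℕ} {l : List ι} (hn : n + 3 * e < 2 * a + 2 * c)
    (h1 : (l.map w).sum ≤ n + e) (h2 : 2 ≤ l.length) (h3 : Even (degSum deg l)) :
    (∀ j ∈ l, j ∈ wA deg w e a c) ∧ ((∃ j ∈ l, j ∈ wO deg w e a c) ∨ ∀ j ∈ l, Even (deg j)) := by
  have b1 := h.hca
  have b2 := h.hec
  refine ⟨fun j hj => ?_, ?_⟩
  · obtain ⟨r, hr1, hr2, hr3, -⟩ := wt_split deg w hj
    have hr4 := wb_rest' h (r := r) (by omega)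
    rw [hr1] at h3
    rcases Nat.even_or_odd (deg j) with hx | hx
    · have h4 := wb_rest h (r := r) (by omega) (par1 h3 hx)
      exact Or.inl ⟨hx, by omega⟩
    · exact Or.inr ⟨hx, by omega⟩
  · by_cases hO : ∃ j ∈ l, j ∈ wO deg w e a c
    · exact Or.inl hO
    · refine Or.inr fun y hy => ?_
      by_contra hyo
      have hyo' : Odd (deg y) := Nat.not_even_iff_odd.1 hyo
      have hno : ∀ j ∈ l, Odd (deg j) → a + c ≤ w j + e := by
        intro j hj hjo
        by_contra h4
        exact hO ⟨j, hj, hjo, by omega⟩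
      obtain ⟨r, hr1, hr2, hr3, hr4⟩ := wt_split deg w hy
      rw [hr1] at h3
      obtain ⟨z, hz, hzo⟩ := wt_odd deg (par2 h3 hyo')
      have h7 := hno y hy hyo'
      have h8 := hno z (hr4 z hz) hzo
      have h9 := wt_le w hz
      omega

/-- Words in the differential of an even letter. -/
private theorem wb_T (h : WB deg w e a c) {n : ℕ} {l : List ι} (hn : n + 6 * e < 4 * a + 3 * c)
    (h1 : (l.map w).sum ≤ n + e) (h2 : 2 ≤ l.length) (h3 : Odd (degSum deg l)) :
    ∃ j ∈ l, j ∈ wA deg w e a c := by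
  have b1 := h.hca
  have b2 := h.hec
  by_contra hcon
  have hnE : ∀ j ∈ l, Even (deg j) → 2 * a + c ≤ w j + 2 * e := by
    intro j hj hje
    by_contra h4
    exact hcon ⟨j, hj, Or.inl ⟨hje, by omega⟩⟩
  have hnO : ∀ j ∈ l, Odd (deg j) → 2 * a + 2 * c ≤ w j + 3 * e := by
    intro j hj hjo
    by_contra h4
    exact hcon ⟨j, hj, Or.inr ⟨hjo, by omega⟩⟩
  obtain ⟨y, hy, hyo⟩ := wt_odd deg h3
  obtain ⟨r, hr1, hr2, hr3, hr4⟩ := wt_split deg w hy
  have h5 := hnO y hy hyo
  rw [hr1] at h3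
  have h6 : Even (degSum deg r) := par3 h3 hyo
  rcases wt_even deg w (by omega) h6
    (α := 2 * a + c - 2 * e) (fun x hx hxe => by have := hnE x (hr4 x hx) hxe; omega)
    (β := 2 * a + 2 * c - 3 * e) (fun x hx hxo => by have := hnO x (hr4 x hx) hxo; omega)
    with h8 | h8
  · omega
  · omega

end

section
variable {ι : Type} {deg : ι → ℕ}

/-- `LocallyPureMod` from weights. -/
theorem locallyPureMod_of_wt (S : MinimalSullivan deg) (w : ι → ℕ) (e a c : ℕ) (hca : c ≤ a)
    (hec : 2 * e ≤ c) (ha : ∀ i, Even (deg i) → a ≤ w i) (hc : ∀ i, c ≤ 2 * w i)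
    (he : ∀ i, e ≤ w i)
    (hd : ∀ i, S.d (gen deg i) ∈ SP deg (fun l => (l.map w).sum ≤ w i + e))
    (ht : ∀ i, Even (deg i) → w i + 6 * e < 4 * a + 3 * c) : S.LocallyPureMod := by
  have hb : WB deg w e a c := ⟨hca, hec, ha, hc, he⟩
  -- the words in the differentials
  have hd' : ∀ i, S.d (gen deg i) ∈ SP deg (fun l => ((l.map w).sum ≤ w i + e ∧ 2 ≤ l.length) ∧
      degSum deg l = deg i + 1) := by
    intro i
    have h1 : S.d (gen deg i) ∈ SP deg (fun l => 2 ≤ l.length) := S.minimal i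
    exact SP_pr (SP_length (hd i) h1) (S.isDifferential.map_hom _ _ (gen_mem_hom deg i))
  intro t hte
  refine ⟨wA deg w e a c, wO deg w e a c, ⟨?_, ?_, ?_, ?_⟩, Or.inr ?_⟩
  · rintro i ⟨hi, hi'⟩
    have := he i
    exact Or.inr ⟨hi, by omega⟩
  · intro i hi
    exact hi.1
  · rintro i ⟨hi, hi'⟩
    refine SP_imp ?_ (hd' i)
    rintro l ⟨⟨h1, h2⟩, h3⟩
    refine wb_O hb hi' h1 h2 ?_
    rw [h3]
    exact hi.add_one
  · intro i hi
    have hle : SP deg (fun l => ((l.map w).sum ≤ w i + e ∧ 2 ≤ l.length) ∧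
      degSum deg l = deg i + 1) ≤ Submodule.span ℚ {x | ∃ l : List ι,
        (∀ j ∈ l, j ∈ wA deg w e a c) ∧ ((∃ j ∈ l, j ∈ wO deg w e a c) ∨
          (Odd (deg i) ∧ ∀ j ∈ l, Even (deg j))) ∧ x = mon deg l} := by
      refine Submodule.span_mono ?_
      rintro x ⟨l, ⟨⟨h1, h2⟩, h3⟩, hx⟩
      rcases hi with ⟨hi, hi'⟩ | ⟨hi, hi'⟩
      · have h4 := wb_A1 hb hi' h1 h2 (by rw [h3]; exact hi.add_one)
        exact ⟨l, h4.1, Or.inl h4.2, hx⟩
      · have h4 := wb_A2 hb hi' h1 h2 (by rw [h3]; exact hi.add_one)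
        exact ⟨l, h4.1, h4.2.imp id (fun h5 => ⟨hi, h5⟩), hx⟩
    exact hle (hd' i)
  · have hle : SP deg (fun l => ((l.map w).sum ≤ w t + e ∧ 2 ≤ l.length) ∧
        degSum deg l = deg t + 1) ≤ idealSpan (gen deg '' wA deg w e a c) := by
      refine Submodule.span_le.2 ?_
      rintro x ⟨l, ⟨⟨h1, h2⟩, h3⟩, rfl⟩
      obtain ⟨j, hj, hjA⟩ := wb_T hb (ht t hte) h1 h2 (by rw [h3]; exact hte.add_one)
      obtain ⟨s, t, rfl⟩ := List.append_of_mem hj
      have h4 : gen deg j ∈ idealSpan (gen deg '' wA deg w e a c) :=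
        mem_idealSpan_self ⟨j, hjA, rfl⟩
      have h5 : mon deg (s ++ j :: t) ∈ idealSpan (gen deg '' wA deg w e a c) := by
        rw [mon_append, mon_cons]
        exact idealSpan_left (idealSpan_right h4 _) _
      exact h5
    exact hle (hd' t)

/-- The even generators have degrees `2 p, …, 8 p + 6 q - 8`, all generators degrees `≥ q`, `q ≤ p`. -/
theorem locallyPureMod_of_deg (S : MinimalSullivan deg) (p q : ℕ) (hqp : q ≤ p)
    (h : ∀ i, q ≤ deg i ∧ (Even (deg i) → 2 * p ≤ deg i ∧ deg i + 8 ≤ 8 * p + 6 * q)) :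
    S.LocallyPureMod := by
  have hd : ∀ i, S.d (gen deg i) ∈ SP deg (fun l => (l.map deg).sum ≤ deg i + 1) := by
    intro i
    have h1 : S.d (gen deg i) ∈ hom deg (deg i + 1) :=
      S.isDifferential.map_hom _ _ (gen_mem_hom deg i)
    have h2 : hom deg (deg i + 1) ≤ SP deg (fun l => (l.map deg).sum ≤ deg i + 1) := by
      refine Submodule.span_mono ?_
      rintro x ⟨l, hl, rfl⟩
      exact ⟨l, le_of_eq hl, rfl⟩
    exact h2 h1
  have h2 := S.two_le
  rcases Nat.eq_zero_or_pos p with hp | hp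
  · intro t ht
    exfalso
    have h3 := ((h t).2 ht).2
    omega
  · refine locallyPureMod_of_wt S deg 1 (2 * p) (2 * max q 1) (by omega) (by omega)
      (fun i hi => ((h i).2 hi).1) (fun i => ?_) (fun i => ?_) hd (fun i hi => ?_)
    · have h3 := (h i).1
      have h4 := h2 i
      omega
    · have h4 := h2 i
      omega
    · have h3 := ((h i).2 hi).2
      omega

/-- Nilpotency class at most six, in the sense of the weights `w ≥ 1` of the generators. -/
theorem locallyPureMod_of_class (S : MinimalSullivan deg) (w : ι → ℕ) (hw : ∀ i, 1 ≤ w i)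
    (hd : ∀ i, S.d (gen deg i) ∈ Submodule.span ℚ {x | ∃ l : List ι, (l.map w).sum ≤ w i ∧
      x = mon deg l})
    (h : ∀ i, Even (deg i) → w i ≤ 6) : S.LocallyPureMod := by
  refine locallyPureMod_of_wt S w 0 1 1 le_rfl (by omega) (fun i _ => hw i) (fun i => ?_)
    (fun i => Nat.zero_le _) (fun i => ?_) (fun i hi => ?_)
  · have := hw i
    omega
  · exact hd i
  · have := h i hi
    omega

end

end AnWL
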